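import Pool.Agent.helper63.NF.Cert

/-!
Generated: table E8a.
-/

namespace Pool.Agent.helper14.NR.E8a

open Pool.Agent.helper63.NF

def tab : TD where
  strip := true
  bm := none
  ec := 114621939712
  bc := 0
  H := [[[-112292417920, 64024346880, -33810010432, 2679238784], [-1231377189440, 430572355136, -38983266880], [240202372288, 6450256265280], [-29625738547008]], [[13177875584, -5980397184, -162226176], [161662807104, -149285636032], [-74338941632]], [[-527565568, 125404288], [-11029065088]], [[-95452416]], [[10674432]]]
  pol := some ⟨-946234982400, -4535485464576, 5872294035456, 31362867265536, [[299457937536, -389164506368], [3557182232064, 0]], [[2968280557248, 503056542592], [32651557279744, 0]]⟩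
  a := [[[105750265856, 247679025152, 926203969536, -4284988456960], [111974219776, -656633430016]], [[80929751040, 114576261120, -593234427904, 152704450560], [232781185024, -1097389899776]], [[72045625344, 74389782528, -478562811904, 245383888896], [254759796736, -974103576576]], [[64103645184, 39584989184, -328717434880, 171479662592], [261481365504, -835814227968]], [[56876335104, 12419268608, -181424422912, 48188030976], [260046979072, -680121401344]], [[50247499776, -8087404544, -52204470272, -51247251456], [251730395136, -490509107200]]]
  j := [0, 0, 0, 0, 0, 0]
  c := [879662989312, 1099511627776, 879662989312, 659814350848, 494726545408, 384936443904]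
  M := [[[[1100493422592, -2955608064, 107146313728], [-493504102400, 967053541376], [3594007281664]], [[140808355840, 16778592256], [4871902789632]], [[660878065664, -2745630720], [-2196212875264]], [[-761017401344]], [[443954495488]], [[-104699396096]]], [[[1088292126720, -13733986304, 91333459968], [434556436480]], [[70376030208, 2868969472], [581940215808]], [[-3510566912]], [[282525696]]], [[[1090713878528, -11107041280, 101230706688], [220464873472]], [[69180850176, 1460797440], [560273948672]], [[-3114663936]], [[204603392]]], [[[1092552097792, -4630183936, 87351164928], [80955310080]], [[67453452288, 1721171968], [583549648896]], [[-2651455488]], [[141426688]]], [[[1094263439360, -1370750976, 71120650240], [34185805824]], [[65486454784, 1857486848], [597218885632]], [[-1974861824]], [[63438848]]], [[[1094346473472, -968228864, 62430838784], [-3174236160]], [[64109805568, 1994194944], [621360709632]], [[-1043267584]], [[-70975488]]]]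
  l0 := [[[3568807858240, 93418899264, -53988152960], [3493862172544, 24869097728], [-3142172768128]], [[655839999680, -206014811776, -196088089920], [-17520412268928, -1410686757952], [-12917825902976]], [[-719246439552, 350159114240], [-40842765312]], [[-73813301312, -283530426176], [-6985335024512]], [[1494696711424, 116709115776], [-2256147790784]], [[-2922333129792]], [[2288761267456]], [[-1103075507712]]]
  q0 := [[-440894912, 66802931904, 2742081830272, -5327681825472], [-762522937600, 11013807476416, -16333491920256], [11621744013440, -28539489790976], [-759573443010944]]
  t := [[[1327838658560, 1427614072832, 3605500067840, -16427901386752], [-4184561745920, -390961496064]], [[823490117632, 146996461568, -3733055209472, 10646029271040], [-273234526208, 8345026560000]], [[727291854848, 273157980160, -3656855191552, 10760934981632], [534552772608, 3900325101568]], [[646631915520, 128096337920, -555098570752, 2536518582272], [1058819670016, 2244848058368]], [[574846664704, -21652439040, 2458349862912, -4822770122752], [1240401510400, 3280359653376]], [[509173235712, -118094299136, 4279621713920, -8021515501568], [1445021024256, 4572181168128]]]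
  y := [13244605399040, 13965086162944, 12810813702144, 10663330054144, 8490076602368, 6691559047168]
  sc := [0, 0, 0, 0, 0, 0]
  L := [(0, 2), (0, 3), (1, 1), (1, 2), (2, 0), (2, 1), (3, 0)]
  Lt := [(0, 2), (0, 3), (1, 1)]
  far := 0
  x2 := 10775213952000
  B1 := 659706347520
  C2 := 1327712154624
  f1 := 91625969664
  f2 := 2308974418944
  f3 := 224390128640
  is1 := 8796093022208
  s1 := 137438953472

end Pool.Agent.helper14.NR.E8a
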