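import Pool.Agent.helper14.NR.E8a.PN1

/-!
Generated: certificates.
-/

namespace Pool.Agent.helper14.NR.E8a

open Pool.Agent.helper31.IA (Z)
open Pool.Agent.helper31.IX (Op XOps runX Cov CovD cov_split covD_split)
open Pool.Agent.helper31.IC (TD)
open Pool.Agent.helper63.RG (reloc)
open Pool.Agent.helper63.NF hiding TD
open Pool.Agent.helper14.CF (xE covD_E)
open Pool.Agent.helper14.NR (share)

mutual
theorem A1_c1_t6 : CovD 1 gA1 [(125986406400, 11453595648), (137438953472, 137438953472), (42949672960, 42949672960)] :=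
  covD_E kA1_eq (.l 2)
    [(125986406400, 11453595648), (137438953472, 137438953472), (42949672960, 42949672960)] rfl (by decide +kernel)
theorem A1_c1_t9 : CovD 1 gA1 [(125986406400, 11453595648), (68719476736, 68719476736), (107374182400, 21474836480)] :=
  covD_E kA1_eq (.l 2)
    [(125986406400, 11453595648), (68719476736, 68719476736), (107374182400, 21474836480)] rfl (by decide +kernel)
end

mutual
theorem A1_c1_t11 : CovD 1 gA1 [(125986406400, 11453595648), (68719476736, 68719476736), (139586437120, 10737418240)] :=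
  covD_E kA1_eq (.n 1 (.n 1 (.n 0 (.n 1 (.n 1 (.n 0 (.l 0) (.l 0)) (.l 0)) (.n 1 (.l 0) (.l 0))) (.n 1 (.n 1 (.n 0 (.l 0) (.l 0)) (.l 0)) (.n 1 (.l 0) (.l 0)))) (.n 1 (.n 1 (.l 0) (.l 0)) (.l 0))) (.n 1 (.l 0) (.l 0)))
    [(125986406400, 11453595648), (68719476736, 68719476736), (139586437120, 10737418240)] rfl (by decide +kernel)
theorem A1_c1_t12 : CovD 1 gA1 [(125986406400, 11453595648), (68719476736, 68719476736), (161061273600, 10737418240)] :=
  covD_E kA1_eq (.n 1 (.n 1 (.n 0 (.n 1 (.n 1 (.n 0 (.l 0) (.l 0)) (.l 0)) (.n 0 (.l 0) (.l 0))) (.n 1 (.n 1 (.l 0) (.l 0)) (.n 1 (.l 0) (.l 0)))) (.n 1 (.n 0 (.l 0) (.l 0)) (.l 0))) (.n 1 (.l 0) (.l 0)))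
    [(125986406400, 11453595648), (68719476736, 68719476736), (161061273600, 10737418240)] rfl (by decide +kernel)
end

mutual
theorem A1_c1_t13 : CovD 1 gA1 [(125986406400, 11453595648), (206158430208, 68719476736), (128849018880, 42949672960)] :=
  covD_E kA1_eq (.n 2 (.l 2) (.n 1 (.l 0) (.l 0)))
    [(125986406400, 11453595648), (206158430208, 68719476736), (128849018880, 42949672960)] rfl (by decide +kernel)
theorem A1_c1_t19 : CovD 1 gA1 [(120259608576, 5726797824), (8589934592, 8589934592), (257698037760, 85899345920)] :=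
  covD_E kA1_eq (.n 2 (.n 1 (.n 2 (.n 0 (.l 0) (.l 0)) (.l 0)) (.n 2 (.n 0 (.l 0) (.l 0)) (.l 0))) (.n 2 (.n 0 (.l 0) (.l 0)) (.l 0)))
    [(120259608576, 5726797824), (8589934592, 8589934592), (257698037760, 85899345920)] rfl (by decide +kernel)
end

mutual
theorem A1_c1_t20 : CovD 1 gA1 [(131713204224, 5726797824), (8589934592, 8589934592), (257698037760, 85899345920)] :=
  covD_E kA1_eq (.n 2 (.n 1 (.n 2 (.n 1 (.l 0) (.l 0)) (.l 0)) (.n 2 (.n 1 (.l 0) (.l 0)) (.l 0))) (.n 2 (.n 1 (.l 0) (.l 0)) (.l 0)))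
    [(131713204224, 5726797824), (8589934592, 8589934592), (257698037760, 85899345920)] rfl (by decide +kernel)
theorem A1_c1_t21 : CovD 1 gA1 [(125986406400, 11453595648), (25769803776, 8589934592), (257698037760, 85899345920)] :=
  covD_E kA1_eq (.n 0 (.n 2 (.n 1 (.n 2 (.l 0) (.l 0)) (.n 2 (.l 0) (.l 0))) (.n 2 (.l 0) (.l 0))) (.n 2 (.n 1 (.n 2 (.l 0) (.l 0)) (.n 2 (.l 0) (.l 0))) (.n 2 (.n 0 (.l 0) (.l 0)) (.l 0))))
    [(125986406400, 11453595648), (25769803776, 8589934592), (257698037760, 85899345920)] rfl (by decide +kernel)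
end

mutual
theorem A1_c1_t23 : CovD 1 gA1 [(125986406400, 11453595648), (42949672960, 8589934592), (257698037760, 85899345920)] :=
  covD_E kA1_eq (.n 0 (.n 2 (.n 2 (.n 1 (.l 0) (.l 0)) (.l 0)) (.n 2 (.l 0) (.l 0))) (.n 2 (.n 2 (.n 1 (.l 0) (.l 0)) (.l 0)) (.n 2 (.l 0) (.l 0))))
    [(125986406400, 11453595648), (42949672960, 8589934592), (257698037760, 85899345920)] rfl (by decide +kernel)
theorem A1_c1_t24 : CovD 1 gA1 [(125986406400, 11453595648), (60129542144, 8589934592), (257698037760, 85899345920)] :=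
  covD_E kA1_eq (.n 2 (.n 2 (.n 2 (.l 0) (.l 0)) (.n 0 (.l 0) (.l 0))) (.n 2 (.n 0 (.l 0) (.l 0)) (.l 0)))
    [(125986406400, 11453595648), (60129542144, 8589934592), (257698037760, 85899345920)] rfl (by decide +kernel)
end

mutual
theorem A1_c1_t25 : CovD 1 gA1 [(125986406400, 11453595648), (103079215104, 34359738368), (257698037760, 85899345920)] :=
  covD_E kA1_eq (.n 1 (.n 1 (.n 2 (.n 0 (.n 2 (.l 0) (.l 0)) (.n 2 (.l 0) (.l 0))) (.n 2 (.l 0) (.l 0))) (.n 2 (.n 2 (.l 0) (.l 0)) (.n 2 (.l 0) (.l 0)))) (.n 2 (.n 2 (.l 0) (.l 0)) (.n 2 (.l 0) (.l 0))))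
    [(125986406400, 11453595648), (103079215104, 34359738368), (257698037760, 85899345920)] rfl (by decide +kernel)
theorem A1_c1_t26 : CovD 1 gA1 [(125986406400, 11453595648), (206158430208, 68719476736), (257698037760, 85899345920)] :=
  covD_E kA1_eq (.n 1 (.n 2 (.n 2 (.l 0) (.l 0)) (.n 0 (.n 0 (.l 0) (.l 0)) (.n 0 (.l 0) (.l 0)))) (.n 0 (.n 2 (.l 0) (.l 0)) (.n 2 (.l 0) (.l 0))))
    [(125986406400, 11453595648), (206158430208, 68719476736), (257698037760, 85899345920)] rfl (by decide +kernel)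
end

mutual
theorem A1_c1_t31 : CovD 1 gA1 [(125986406400, 11453595648), (17179869184, 17179869184), (429496729600, 85899345920)] :=
  covD_E kA1_eq (.n 0 (.n 2 (.n 2 (.n 1 (.l 0) (.l 0)) (.l 0)) (.n 0 (.l 0) (.l 0))) (.n 1 (.n 2 (.n 2 (.l 0) (.l 0)) (.l 0)) (.n 2 (.n 2 (.l 0) (.l 0)) (.l 0))))
    [(125986406400, 11453595648), (17179869184, 17179869184), (429496729600, 85899345920)] rfl (by decide +kernel)
theorem A1_c1_t32 : CovD 1 gA1 [(125986406400, 11453595648), (51539607552, 17179869184), (429496729600, 85899345920)] :=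
  covD_E kA1_eq (.n 1 (.n 0 (.n 2 (.n 1 (.l 0) (.l 0)) (.l 0)) (.n 2 (.n 2 (.l 0) (.l 0)) (.l 0))) (.n 2 (.n 2 (.l 0) (.l 0)) (.n 0 (.l 0) (.l 0))))
    [(125986406400, 11453595648), (51539607552, 17179869184), (429496729600, 85899345920)] rfl (by decide +kernel)
end

mutual
theorem A1_c1_t33 : CovD 1 gA1 [(125986406400, 11453595648), (103079215104, 34359738368), (429496729600, 85899345920)] :=
  covD_E kA1_eq (.n 0 (.n 1 (.n 1 (.n 2 (.l 0) (.l 0)) (.n 2 (.l 0) (.l 0))) (.n 2 (.l 0) (.l 0))) (.n 1 (.n 2 (.n 2 (.l 0) (.l 0)) (.n 1 (.l 0) (.l 0))) (.n 2 (.l 0) (.l 0))))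
    [(125986406400, 11453595648), (103079215104, 34359738368), (429496729600, 85899345920)] rfl (by decide +kernel)
theorem A1_c1_t34 : CovD 1 gA1 [(125986406400, 11453595648), (206158430208, 68719476736), (429496729600, 85899345920)] :=
  covD_E kA1_eq (.n 0 (.n 1 (.n 2 (.n 0 (.l 0) (.l 0)) (.l 0)) (.n 2 (.l 0) (.l 0))) (.n 1 (.n 2 (.n 0 (.l 0) (.l 0)) (.l 0)) (.n 2 (.l 0) (.l 0))))
    [(125986406400, 11453595648), (206158430208, 68719476736), (429496729600, 85899345920)] rfl (by decide +kernel)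
end

mutual
theorem A1_c1_t36 : CovD 1 gA1 [(125986406400, 11453595648), (137438953472, 137438953472), (558345748480, 42949672960)] :=
  covD_E kA1_eq (.n 1 (.n 1 (.n 1 (.n 0 (.l 0) (.l 0)) (.n 2 (.l 0) (.l 0))) (.n 0 (.n 1 (.l 0) (.l 0)) (.n 1 (.l 0) (.l 0)))) (.n 1 (.n 1 (.n 0 (.l 0) (.l 0)) (.l 0)) (.n 0 (.l 0) (.l 0))))
    [(125986406400, 11453595648), (137438953472, 137438953472), (558345748480, 42949672960)] rfl (by decide +kernel)
theorem A1_c1_t37 : CovD 1 gA1 [(125986406400, 11453595648), (137438953472, 137438953472), (644245094400, 42949672960)] :=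
  covD_E kA1_eq (.n 0 (.n 1 (.n 1 (.n 0 (.l 0) (.l 0)) (.n 1 (.l 0) (.l 0))) (.n 1 (.l 0) (.l 0))) (.n 1 (.n 1 (.n 1 (.l 0) (.l 0)) (.n 1 (.l 0) (.l 0))) (.n 1 (.l 0) (.l 0))))
    [(125986406400, 11453595648), (137438953472, 137438953472), (644245094400, 42949672960)] rfl (by decide +kernel)
end

mutual
theorem A1_c1_t40 : CovD 1 gA1 [(120259608576, 5726797824), (68719476736, 68719476736), (1030792151040, 343597383680)] :=
  covD_E kA1_eq (.n 1 (.n 2 (.n 2 (.n 2 (.l 0) (.l 0)) (.n 2 (.l 0) (.l 0))) (.n 0 (.n 2 (.l 0) (.l 0)) (.n 2 (.l 0) (.l 0)))) (.n 2 (.n 2 (.n 2 (.l 0) (.l 0)) (.n 2 (.l 0) (.l 0))) (.n 2 (.n 0 (.l 0) (.l 0)) (.l 0))))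
    [(120259608576, 5726797824), (68719476736, 68719476736), (1030792151040, 343597383680)] rfl (by decide +kernel)
theorem A1_c1_t41 : CovD 1 gA1 [(120259608576, 5726797824), (206158430208, 68719476736), (1030792151040, 343597383680)] :=
  covD_E kA1_eq (.n 1 (.n 2 (.n 2 (.n 2 (.l 0) (.l 0)) (.n 0 (.l 0) (.l 0))) (.n 2 (.n 0 (.l 0) (.l 0)) (.l 0))) (.n 2 (.n 2 (.n 2 (.l 0) (.l 0)) (.n 0 (.l 0) (.l 0))) (.n 2 (.n 0 (.l 0) (.l 0)) (.l 0))))
    [(120259608576, 5726797824), (206158430208, 68719476736), (1030792151040, 343597383680)] rfl (by decide +kernel)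
end

mutual
theorem A1_c1_t43 : CovD 1 gA1 [(131713204224, 5726797824), (68719476736, 68719476736), (1030792151040, 343597383680)] :=
  covD_E kA1_eq (.n 1 (.n 2 (.n 2 (.n 2 (.l 0) (.l 0)) (.n 2 (.l 0) (.l 0))) (.n 2 (.n 2 (.l 0) (.l 0)) (.n 0 (.l 0) (.l 0)))) (.n 2 (.n 2 (.n 2 (.l 0) (.l 0)) (.n 2 (.l 0) (.l 0))) (.n 2 (.n 0 (.l 0) (.l 0)) (.l 0))))
    [(131713204224, 5726797824), (68719476736, 68719476736), (1030792151040, 343597383680)] rfl (by decide +kernel)
theorem A1_c1_t44 : CovD 1 gA1 [(131713204224, 5726797824), (206158430208, 68719476736), (1030792151040, 343597383680)] :=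
  covD_E kA1_eq (.n 1 (.n 2 (.n 2 (.n 2 (.l 0) (.l 0)) (.n 2 (.l 0) (.l 0))) (.n 2 (.n 0 (.l 0) (.l 0)) (.l 0))) (.n 2 (.n 2 (.n 2 (.l 0) (.l 0)) (.n 0 (.l 0) (.l 0))) (.n 2 (.n 0 (.l 0) (.l 0)) (.l 0))))
    [(131713204224, 5726797824), (206158430208, 68719476736), (1030792151040, 343597383680)] rfl (by decide +kernel)
end

mutual
theorem A1_c1_t47 : CovD 1 gA1 [(120259608576, 5726797824), (68719476736, 68719476736), (2061584302080, 687194767360)] :=
  covD_E kA1_eq (.n 2 (.n 1 (.n 2 (.n 2 (.l 0) (.l 0)) (.n 2 (.l 0) (.l 0))) (.n 2 (.n 2 (.l 0) (.l 0)) (.n 2 (.l 0) (.l 0)))) (.n 2 (.n 2 (.l 0) (.l 0)) (.n 0 (.l 0) (.l 0))))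
    [(120259608576, 5726797824), (68719476736, 68719476736), (2061584302080, 687194767360)] rfl (by decide +kernel)
theorem A1_c1_t48 : CovD 1 gA1 [(120259608576, 5726797824), (206158430208, 68719476736), (2061584302080, 687194767360)] :=
  covD_E kA1_eq (.n 2 (.n 1 (.n 2 (.n 2 (.l 0) (.l 0)) (.n 2 (.l 0) (.l 0))) (.n 2 (.n 2 (.l 0) (.l 0)) (.n 2 (.l 0) (.l 0)))) (.n 2 (.n 2 (.n 0 (.l 0) (.l 0)) (.l 0)) (.n 1 (.l 0) (.l 0))))
    [(120259608576, 5726797824), (206158430208, 68719476736), (2061584302080, 687194767360)] rfl (by decide +kernel)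
end

mutual
theorem A1_c1_t50 : CovD 1 gA1 [(131713204224, 5726797824), (68719476736, 68719476736), (2061584302080, 687194767360)] :=
  covD_E kA1_eq (.n 2 (.n 2 (.n 1 (.n 2 (.l 0) (.l 0)) (.n 2 (.l 0) (.l 0))) (.n 2 (.n 0 (.l 0) (.l 0)) (.l 0))) (.n 1 (.n 2 (.l 0) (.l 0)) (.n 2 (.l 0) (.l 0))))
    [(131713204224, 5726797824), (68719476736, 68719476736), (2061584302080, 687194767360)] rfl (by decide +kernel)
theorem A1_c1_t51 : CovD 1 gA1 [(131713204224, 5726797824), (206158430208, 68719476736), (2061584302080, 687194767360)] :=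
  covD_E kA1_eq (.n 1 (.n 2 (.n 2 (.n 2 (.l 0) (.l 0)) (.n 2 (.l 0) (.l 0))) (.n 2 (.l 0) (.l 0))) (.n 2 (.n 2 (.n 2 (.l 0) (.l 0)) (.n 2 (.l 0) (.l 0))) (.n 2 (.l 0) (.l 0))))
    [(131713204224, 5726797824), (206158430208, 68719476736), (2061584302080, 687194767360)] rfl (by decide +kernel)
end

mutual
theorem A1_c1_t54 : CovD 1 gA1 [(120259608576, 5726797824), (137438953472, 137438953472), (3435973836800, 687194767360)] :=
  covD_E kA1_eq (.n 1 (.n 2 (.n 2 (.l 0) (.l 0)) (.n 2 (.l 0) (.n 1 (.n 2 (.l 0) (.n 0 (.l 1) (.l 0))) (.n 2 (.l 0) (.l 1))))) (.n 2 (.n 2 (.n 0 (.l 0) (.l 0)) (.l 0)) (.n 2 (.l 0) (.n 0 (.n 2 (.l 0) (.l 1)) (.n 2 (.l 0) (.l 1))))))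
    [(120259608576, 5726797824), (137438953472, 137438953472), (3435973836800, 687194767360)] rfl (by decide +kernel)
theorem A1_c1_t55 : CovD 1 gA1 [(120259608576, 5726797824), (137438953472, 137438953472), (4810363371520, 687194767360)] :=
  covD_E kA1_eq (.n 2 (.n 1 (.l 1) (.l 1)) (.l 1))
    [(120259608576, 5726797824), (137438953472, 137438953472), (4810363371520, 687194767360)] rfl (by decide +kernel)
end

mutual
theorem A1_c1_t57 : CovD 1 gA1 [(131713204224, 5726797824), (137438953472, 137438953472), (3435973836800, 687194767360)] :=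
  covD_E kA1_eq (.n 1 (.n 2 (.n 2 (.l 0) (.l 0)) (.n 2 (.l 0) (.n 0 (.n 1 (.l 0) (.l 0)) (.l 0)))) (.n 2 (.n 2 (.n 0 (.l 0) (.l 0)) (.l 0)) (.n 2 (.l 0) (.n 2 (.l 0) (.n 0 (.l 1) (.l 0))))))
    [(131713204224, 5726797824), (137438953472, 137438953472), (3435973836800, 687194767360)] rfl (by decide +kernel)
theorem A1_c1_t58 : CovD 1 gA1 [(131713204224, 5726797824), (137438953472, 137438953472), (4810363371520, 687194767360)] :=
  covD_E kA1_eq (.n 2 (.n 1 (.n 0 (.l 1) (.l 1)) (.l 1)) (.l 1))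
    [(131713204224, 5726797824), (137438953472, 137438953472), (4810363371520, 687194767360)] rfl (by decide +kernel)
end

mutual
theorem A1_c2_t2 : CovD 1 gA1 [(97352417280, 5726797824), (137438953472, 137438953472), (8246337208320, 2748779069440)] :=
  covD_E kA1_eq (.n 1 (.n 2 (.n 2 (.n 0 (.l 1) (.l 1)) (.l 1)) (.n 2 (.l 1) (.l 1))) (.n 2 (.n 2 (.n 0 (.l 1) (.l 1)) (.l 1)) (.n 2 (.l 1) (.l 1))))
    [(97352417280, 5726797824), (137438953472, 137438953472), (8246337208320, 2748779069440)] rfl (by decide +kernel)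
theorem A1_c2_t3 : CovD 1 gA1 [(108806012928, 5726797824), (137438953472, 137438953472), (8246337208320, 2748779069440)] :=
  covD_E kA1_eq (.n 1 (.n 2 (.n 2 (.n 0 (.l 1) (.l 1)) (.l 1)) (.n 2 (.l 1) (.l 1))) (.n 2 (.n 2 (.l 1) (.l 1)) (.n 2 (.l 1) (.l 1))))
    [(108806012928, 5726797824), (137438953472, 137438953472), (8246337208320, 2748779069440)] rfl (by decide +kernel)
end

mutual
theorem A1_c2_t4 : CovD 1 gA1 [(125986406400, 11453595648), (137438953472, 137438953472), (8246337208320, 2748779069440)] :=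
  covD_E kA1_eq (.n 0 (.n 1 (.n 2 (.n 2 (.l 1) (.l 1)) (.n 2 (.l 1) (.l 1))) (.n 2 (.n 2 (.l 1) (.l 1)) (.n 2 (.l 1) (.l 1)))) (.n 1 (.n 2 (.n 2 (.l 1) (.l 1)) (.n 2 (.l 1) (.l 1))) (.n 2 (.n 2 (.l 1) (.l 1)) (.n 2 (.l 1) (.l 1)))))
    [(125986406400, 11453595648), (137438953472, 137438953472), (8246337208320, 2748779069440)] rfl (by decide +kernel)
theorem B1_c0_t5 : CovD 1 gB1 [(97352417280, 5726797824), (34359738368, 34359738368), (27487895552, 27487895552)] :=
  covD_E kB1_eq (.n 2 (.n 2 (.n 2 (.n 2 (.l 1) (.l 1)) (.n 2 (.l 1) (.l 1))) (.n 1 (.n 2 (.l 1) (.l 1)) (.n 2 (.l 1) (.l 1)))) (.n 2 (.n 2 (.l 1) (.l 1)) (.n 2 (.l 1) (.l 1))))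
    [(97352417280, 5726797824), (34359738368, 34359738368), (27487895552, 27487895552)] rfl (by decide +kernel)
end

mutual
theorem B1_c0_t6 : CovD 1 gB1 [(97352417280, 5726797824), (103079215104, 34359738368), (27487895552, 27487895552)] :=
  covD_E kB1_eq (.n 2 (.n 2 (.n 2 (.n 2 (.l 1) (.l 1)) (.n 2 (.l 1) (.l 1))) (.n 2 (.n 2 (.l 1) (.l 1)) (.n 1 (.l 1) (.l 1)))) (.n 2 (.n 2 (.n 0 (.l 1) (.l 1)) (.l 1)) (.n 2 (.l 1) (.l 1))))
    [(97352417280, 5726797824), (103079215104, 34359738368), (27487895552, 27487895552)] rfl (by decide +kernel)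
theorem B1_c0_t7 : CovD 1 gB1 [(97352417280, 5726797824), (68719476736, 68719476736), (82463686656, 27487895552)] :=
  covD_E kB1_eq (.n 2 (.n 2 (.n 2 (.n 0 (.l 1) (.l 1)) (.l 1)) (.n 0 (.l 1) (.l 1))) (.n 2 (.n 0 (.l 1) (.l 1)) (.l 1)))
    [(97352417280, 5726797824), (68719476736, 68719476736), (82463686656, 27487895552)] rfl (by decide +kernel)
end

mutual
theorem B1_c0_t11 : CovD 1 gB1 [(97352417280, 5726797824), (171798691840, 34359738368), (13743947776, 13743947776)] :=
  covD_E kB1_eq (.n 2 (.n 2 (.n 0 (.n 2 (.l 1) (.l 1)) (.n 2 (.l 1) (.l 1))) (.n 2 (.l 1) (.l 1))) (.n 2 (.n 2 (.l 1) (.l 1)) (.n 0 (.l 1) (.l 1))))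
    [(97352417280, 5726797824), (171798691840, 34359738368), (13743947776, 13743947776)] rfl (by decide +kernel)
theorem B1_c0_t12 : CovD 1 gB1 [(97352417280, 5726797824), (240518168576, 34359738368), (13743947776, 13743947776)] :=
  covD_E kB1_eq (.n 2 (.n 2 (.n 2 (.l 1) (.l 1)) (.n 2 (.l 1) (.l 1))) (.n 2 (.n 2 (.l 1) (.l 1)) (.n 0 (.l 1) (.l 1))))
    [(97352417280, 5726797824), (240518168576, 34359738368), (13743947776, 13743947776)] rfl (by decide +kernel)
end

mutual
theorem B1_c0_t13 : CovD 1 gB1 [(97352417280, 5726797824), (206158430208, 68719476736), (41231843328, 13743947776)] :=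
  covD_E kB1_eq (.n 2 (.n 1 (.n 2 (.n 0 (.l 1) (.l 1)) (.l 1)) (.n 2 (.l 1) (.l 1))) (.n 2 (.n 0 (.l 1) (.l 1)) (.l 1)))
    [(97352417280, 5726797824), (206158430208, 68719476736), (41231843328, 13743947776)] rfl (by decide +kernel)
theorem B1_c0_t14 : CovD 1 gB1 [(97352417280, 5726797824), (206158430208, 68719476736), (82463686656, 27487895552)] :=
  covD_E kB1_eq (.n 2 (.n 2 (.n 2 (.l 1) (.l 1)) (.n 0 (.l 1) (.l 1))) (.n 2 (.l 1) (.l 1)))
    [(97352417280, 5726797824), (206158430208, 68719476736), (82463686656, 27487895552)] rfl (by decide +kernel)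
end

mutual
theorem B1_c0_t18 : CovD 1 gB1 [(108806012928, 5726797824), (34359738368, 34359738368), (27487895552, 27487895552)] :=
  covD_E kB1_eq (.n 2 (.n 2 (.n 0 (.n 2 (.l 1) (.l 1)) (.n 2 (.l 1) (.l 1))) (.n 2 (.l 1) (.l 1))) (.n 2 (.n 2 (.l 1) (.l 1)) (.n 2 (.l 1) (.l 1))))
    [(108806012928, 5726797824), (34359738368, 34359738368), (27487895552, 27487895552)] rfl (by decide +kernel)
theorem B1_c0_t19 : CovD 1 gB1 [(108806012928, 5726797824), (103079215104, 34359738368), (27487895552, 27487895552)] :=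
  covD_E kB1_eq (.n 2 (.n 2 (.n 2 (.n 2 (.l 1) (.l 1)) (.n 1 (.l 1) (.l 1))) (.n 0 (.n 2 (.l 1) (.l 1)) (.n 2 (.l 1) (.l 1)))) (.n 2 (.n 2 (.l 1) (.l 1)) (.n 2 (.l 1) (.l 1))))
    [(108806012928, 5726797824), (103079215104, 34359738368), (27487895552, 27487895552)] rfl (by decide +kernel)
end

mutual
theorem B1_c0_t20 : CovD 1 gB1 [(108806012928, 5726797824), (68719476736, 68719476736), (82463686656, 27487895552)] :=
  covD_E kB1_eq (.n 2 (.n 2 (.n 2 (.l 1) (.l 1)) (.n 0 (.l 1) (.l 1))) (.n 2 (.l 1) (.l 1)))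
    [(108806012928, 5726797824), (68719476736, 68719476736), (82463686656, 27487895552)] rfl (by decide +kernel)
theorem B1_c0_t23 : CovD 1 gB1 [(108806012928, 5726797824), (206158430208, 68719476736), (13743947776, 13743947776)] :=
  covD_E kB1_eq (.n 1 (.n 2 (.n 2 (.n 2 (.l 1) (.l 1)) (.n 2 (.l 1) (.l 1))) (.n 1 (.n 2 (.l 1) (.l 1)) (.n 2 (.l 1) (.l 1)))) (.n 2 (.n 2 (.n 2 (.l 1) (.l 1)) (.n 2 (.l 1) (.l 1))) (.n 2 (.n 0 (.l 1) (.l 1)) (.l 1))))
    [(108806012928, 5726797824), (206158430208, 68719476736), (13743947776, 13743947776)] rfl (by decide +kernel)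
end

mutual
theorem B1_c0_t24 : CovD 1 gB1 [(108806012928, 5726797824), (206158430208, 68719476736), (41231843328, 13743947776)] :=
  covD_E kB1_eq (.n 2 (.n 1 (.n 2 (.l 1) (.l 1)) (.n 2 (.l 1) (.l 1))) (.n 2 (.n 0 (.l 1) (.l 1)) (.l 1)))
    [(108806012928, 5726797824), (206158430208, 68719476736), (41231843328, 13743947776)] rfl (by decide +kernel)
theorem B1_c0_t25 : CovD 1 gB1 [(108806012928, 5726797824), (206158430208, 68719476736), (82463686656, 27487895552)] :=
  covD_E kB1_eq (.n 2 (.n 2 (.n 2 (.l 1) (.l 1)) (.n 0 (.l 1) (.l 1))) (.n 2 (.l 1) (.l 1)))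
    [(108806012928, 5726797824), (206158430208, 68719476736), (82463686656, 27487895552)] rfl (by decide +kernel)
end

mutual
theorem B1_c0_t29 : CovD 1 gB1 [(125986406400, 11453595648), (34359738368, 34359738368), (27487895552, 27487895552)] :=
  covD_E kB1_eq (.n 2 (.n 0 (.n 2 (.n 2 (.l 1) (.l 1)) (.n 2 (.l 1) (.l 1))) (.n 2 (.n 2 (.l 1) (.l 1)) (.n 2 (.l 1) (.l 1)))) (.n 2 (.n 0 (.n 2 (.l 1) (.l 1)) (.n 2 (.l 1) (.l 1))) (.n 2 (.l 1) (.l 1))))
    [(125986406400, 11453595648), (34359738368, 34359738368), (27487895552, 27487895552)] rfl (by decide +kernel)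
theorem B1_c0_t30 : CovD 1 gB1 [(125986406400, 11453595648), (103079215104, 34359738368), (27487895552, 27487895552)] :=
  covD_E kB1_eq (.n 2 (.n 2 (.n 2 (.n 2 (.l 1) (.l 1)) (.n 2 (.l 1) (.l 1))) (.n 0 (.n 2 (.l 1) (.l 1)) (.n 2 (.l 1) (.l 1)))) (.n 0 (.n 2 (.n 2 (.l 1) (.l 1)) (.n 2 (.l 1) (.l 1))) (.n 2 (.n 2 (.l 1) (.l 1)) (.l 1))))
    [(125986406400, 11453595648), (103079215104, 34359738368), (27487895552, 27487895552)] rfl (by decide +kernel)
end

mutual
theorem B1_c0_t31 : CovD 1 gB1 [(125986406400, 11453595648), (68719476736, 68719476736), (82463686656, 27487895552)] :=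
  covD_E kB1_eq (.n 0 (.n 2 (.n 2 (.n 2 (.l 1) (.l 1)) (.n 0 (.l 1) (.l 1))) (.n 2 (.l 1) (.l 1))) (.n 2 (.n 1 (.n 2 (.l 1) (.l 1)) (.n 2 (.l 1) (.l 1))) (.n 2 (.l 1) (.l 1))))
    [(125986406400, 11453595648), (68719476736, 68719476736), (82463686656, 27487895552)] rfl (by decide +kernel)
theorem B1_c0_t35 : CovD 1 gB1 [(125986406400, 11453595648), (171798691840, 34359738368), (13743947776, 13743947776)] :=
  covD_E kB1_eq (.n 2 (.n 0 (.n 1 (.n 2 (.l 1) (.l 1)) (.n 2 (.l 1) (.l 1))) (.n 2 (.l 1) (.l 1))) (.n 2 (.n 2 (.l 1) (.l 1)) (.n 0 (.l 1) (.l 1))))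
    [(125986406400, 11453595648), (171798691840, 34359738368), (13743947776, 13743947776)] rfl (by decide +kernel)
end

mutual
theorem B1_c0_t36 : CovD 1 gB1 [(125986406400, 11453595648), (240518168576, 34359738368), (13743947776, 13743947776)] :=
  covD_E kB1_eq (.n 2 (.n 2 (.n 2 (.l 1) (.l 1)) (.n 0 (.l 1) (.l 1))) (.n 0 (.n 2 (.l 1) (.l 1)) (.n 2 (.l 1) (.l 1))))
    [(125986406400, 11453595648), (240518168576, 34359738368), (13743947776, 13743947776)] rfl (by decide +kernel)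
theorem B1_c0_t37 : CovD 1 gB1 [(125986406400, 11453595648), (206158430208, 68719476736), (41231843328, 13743947776)] :=
  covD_E kB1_eq (.n 2 (.n 1 (.n 0 (.n 2 (.l 1) (.l 1)) (.n 2 (.l 1) (.l 1))) (.n 2 (.n 0 (.l 1) (.l 1)) (.l 1))) (.n 0 (.n 2 (.n 0 (.l 1) (.l 1)) (.l 1)) (.n 2 (.l 1) (.l 1))))
    [(125986406400, 11453595648), (206158430208, 68719476736), (41231843328, 13743947776)] rfl (by decide +kernel)
end

theorem B1_c0_t38 : CovD 1 gB1 [(125986406400, 11453595648), (206158430208, 68719476736), (82463686656, 27487895552)] :=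
  covD_E kB1_eq (.n 0 (.n 2 (.n 1 (.n 2 (.l 1) (.l 1)) (.n 2 (.l 1) (.l 1))) (.n 2 (.l 1) (.l 1))) (.n 2 (.n 2 (.n 1 (.l 1) (.l 1)) (.l 1)) (.n 2 (.l 1) (.l 1))))
    [(125986406400, 11453595648), (206158430208, 68719476736), (82463686656, 27487895552)] rfl (by decide +kernel)

theorem A1_c1_t10 : CovD 1 gA1 [(125986406400, 11453595648), (68719476736, 68719476736), (150323855360, 21474836480)] :=
  covD_split 2 (by decide +kernel) A1_c1_t11 A1_c1_t12

theorem A1_c1_t8 : CovD 1 gA1 [(125986406400, 11453595648), (68719476736, 68719476736), (128849018880, 42949672960)] :=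
  covD_split 2 (by decide +kernel) A1_c1_t9 A1_c1_t10

theorem A1_c1_t7 : CovD 1 gA1 [(125986406400, 11453595648), (137438953472, 137438953472), (128849018880, 42949672960)] :=
  covD_split 1 (by decide +kernel) A1_c1_t8 A1_c1_t13

theorem A1_c1_t5 : CovD 1 gA1 [(125986406400, 11453595648), (137438953472, 137438953472), (85899345920, 85899345920)] :=
  covD_split 2 (by decide +kernel) A1_c1_t6 A1_c1_t7

theorem A1_c1_t18 : CovD 1 gA1 [(125986406400, 11453595648), (8589934592, 8589934592), (257698037760, 85899345920)] :=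
  covD_split 0 (by decide +kernel) A1_c1_t19 A1_c1_t20

theorem A1_c1_t17 : CovD 1 gA1 [(125986406400, 11453595648), (17179869184, 17179869184), (257698037760, 85899345920)] :=
  covD_split 1 (by decide +kernel) A1_c1_t18 A1_c1_t21

theorem A1_c1_t22 : CovD 1 gA1 [(125986406400, 11453595648), (51539607552, 17179869184), (257698037760, 85899345920)] :=
  covD_split 1 (by decide +kernel) A1_c1_t23 A1_c1_t24

theorem A1_c1_t16 : CovD 1 gA1 [(125986406400, 11453595648), (34359738368, 34359738368), (257698037760, 85899345920)] :=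
  covD_split 1 (by decide +kernel) A1_c1_t17 A1_c1_t22

theorem A1_c1_t15 : CovD 1 gA1 [(125986406400, 11453595648), (68719476736, 68719476736), (257698037760, 85899345920)] :=
  covD_split 1 (by decide +kernel) A1_c1_t16 A1_c1_t25

theorem A1_c1_t14 : CovD 1 gA1 [(125986406400, 11453595648), (137438953472, 137438953472), (257698037760, 85899345920)] :=
  covD_split 1 (by decide +kernel) A1_c1_t15 A1_c1_t26

theorem A1_c1_t4 : CovD 1 gA1 [(125986406400, 11453595648), (137438953472, 137438953472), (171798691840, 171798691840)] :=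
  covD_split 2 (by decide +kernel) A1_c1_t5 A1_c1_t14

theorem A1_c1_t30 : CovD 1 gA1 [(125986406400, 11453595648), (34359738368, 34359738368), (429496729600, 85899345920)] :=
  covD_split 1 (by decide +kernel) A1_c1_t31 A1_c1_t32

theorem A1_c1_t29 : CovD 1 gA1 [(125986406400, 11453595648), (68719476736, 68719476736), (429496729600, 85899345920)] :=
  covD_split 1 (by decide +kernel) A1_c1_t30 A1_c1_t33

theorem A1_c1_t28 : CovD 1 gA1 [(125986406400, 11453595648), (137438953472, 137438953472), (429496729600, 85899345920)] :=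
  covD_split 1 (by decide +kernel) A1_c1_t29 A1_c1_t34

theorem A1_c1_t35 : CovD 1 gA1 [(125986406400, 11453595648), (137438953472, 137438953472), (601295421440, 85899345920)] :=
  covD_split 2 (by decide +kernel) A1_c1_t36 A1_c1_t37

theorem A1_c1_t27 : CovD 1 gA1 [(125986406400, 11453595648), (137438953472, 137438953472), (515396075520, 171798691840)] :=
  covD_split 2 (by decide +kernel) A1_c1_t28 A1_c1_t35

theorem A1_c1_t3 : CovD 1 gA1 [(125986406400, 11453595648), (137438953472, 137438953472), (343597383680, 343597383680)] :=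
  covD_split 2 (by decide +kernel) A1_c1_t4 A1_c1_t27

theorem A1_c1_t39 : CovD 1 gA1 [(120259608576, 5726797824), (137438953472, 137438953472), (1030792151040, 343597383680)] :=
  covD_split 1 (by decide +kernel) A1_c1_t40 A1_c1_t41

theorem A1_c1_t42 : CovD 1 gA1 [(131713204224, 5726797824), (137438953472, 137438953472), (1030792151040, 343597383680)] :=
  covD_split 1 (by decide +kernel) A1_c1_t43 A1_c1_t44

theorem A1_c1_t38 : CovD 1 gA1 [(125986406400, 11453595648), (137438953472, 137438953472), (1030792151040, 343597383680)] :=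
  covD_split 0 (by decide +kernel) A1_c1_t39 A1_c1_t42

theorem A1_c1_t2 : CovD 1 gA1 [(125986406400, 11453595648), (137438953472, 137438953472), (687194767360, 687194767360)] :=
  covD_split 2 (by decide +kernel) A1_c1_t3 A1_c1_t38

theorem A1_c1_t46 : CovD 1 gA1 [(120259608576, 5726797824), (137438953472, 137438953472), (2061584302080, 687194767360)] :=
  covD_split 1 (by decide +kernel) A1_c1_t47 A1_c1_t48

theorem A1_c1_t49 : CovD 1 gA1 [(131713204224, 5726797824), (137438953472, 137438953472), (2061584302080, 687194767360)] :=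
  covD_split 1 (by decide +kernel) A1_c1_t50 A1_c1_t51

theorem A1_c1_t45 : CovD 1 gA1 [(125986406400, 11453595648), (137438953472, 137438953472), (2061584302080, 687194767360)] :=
  covD_split 0 (by decide +kernel) A1_c1_t46 A1_c1_t49

theorem A1_c1_t1 : CovD 1 gA1 [(125986406400, 11453595648), (137438953472, 137438953472), (1374389534720, 1374389534720)] :=
  covD_split 2 (by decide +kernel) A1_c1_t2 A1_c1_t45

theorem A1_c1_t53 : CovD 1 gA1 [(120259608576, 5726797824), (137438953472, 137438953472), (4123168604160, 1374389534720)] :=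
  covD_split 2 (by decide +kernel) A1_c1_t54 A1_c1_t55

theorem A1_c1_t56 : CovD 1 gA1 [(131713204224, 5726797824), (137438953472, 137438953472), (4123168604160, 1374389534720)] :=
  covD_split 2 (by decide +kernel) A1_c1_t57 A1_c1_t58

theorem A1_c1_t52 : CovD 1 gA1 [(125986406400, 11453595648), (137438953472, 137438953472), (4123168604160, 1374389534720)] :=
  covD_split 0 (by decide +kernel) A1_c1_t53 A1_c1_t56

theorem A1_c1 : CovD 1 gA1 [(125986406400, 11453595648), (137438953472, 137438953472), (2748779069440, 2748779069440)] :=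
  covD_split 2 (by decide +kernel) A1_c1_t1 A1_c1_t52

theorem A1_c2_t1 : CovD 1 gA1 [(103079215104, 11453595648), (137438953472, 137438953472), (8246337208320, 2748779069440)] :=
  covD_split 0 (by decide +kernel) A1_c2_t2 A1_c2_t3

theorem A1_c2 : CovD 1 gA1 [(114532810752, 22907191296), (137438953472, 137438953472), (8246337208320, 2748779069440)] :=
  covD_split 0 (by decide +kernel) A1_c2_t1 A1_c2_t4

theorem B1_c0_t4 : CovD 1 gB1 [(97352417280, 5726797824), (68719476736, 68719476736), (27487895552, 27487895552)] :=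
  covD_split 1 (by decide +kernel) B1_c0_t5 B1_c0_t6

theorem B1_c0_t3 : CovD 1 gB1 [(97352417280, 5726797824), (68719476736, 68719476736), (54975791104, 54975791104)] :=
  covD_split 2 (by decide +kernel) B1_c0_t4 B1_c0_t7

theorem B1_c0_t10 : CovD 1 gB1 [(97352417280, 5726797824), (206158430208, 68719476736), (13743947776, 13743947776)] :=
  covD_split 1 (by decide +kernel) B1_c0_t11 B1_c0_t12

theorem B1_c0_t9 : CovD 1 gB1 [(97352417280, 5726797824), (206158430208, 68719476736), (27487895552, 27487895552)] :=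
  covD_split 2 (by decide +kernel) B1_c0_t10 B1_c0_t13

theorem B1_c0_t8 : CovD 1 gB1 [(97352417280, 5726797824), (206158430208, 68719476736), (54975791104, 54975791104)] :=
  covD_split 2 (by decide +kernel) B1_c0_t9 B1_c0_t14

theorem B1_c0_t2 : CovD 1 gB1 [(97352417280, 5726797824), (137438953472, 137438953472), (54975791104, 54975791104)] :=
  covD_split 1 (by decide +kernel) B1_c0_t3 B1_c0_t8

theorem B1_c0_t17 : CovD 1 gB1 [(108806012928, 5726797824), (68719476736, 68719476736), (27487895552, 27487895552)] :=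
  covD_split 1 (by decide +kernel) B1_c0_t18 B1_c0_t19

theorem B1_c0_t16 : CovD 1 gB1 [(108806012928, 5726797824), (68719476736, 68719476736), (54975791104, 54975791104)] :=
  covD_split 2 (by decide +kernel) B1_c0_t17 B1_c0_t20

theorem B1_c0_t22 : CovD 1 gB1 [(108806012928, 5726797824), (206158430208, 68719476736), (27487895552, 27487895552)] :=
  covD_split 2 (by decide +kernel) B1_c0_t23 B1_c0_t24

theorem B1_c0_t21 : CovD 1 gB1 [(108806012928, 5726797824), (206158430208, 68719476736), (54975791104, 54975791104)] :=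
  covD_split 2 (by decide +kernel) B1_c0_t22 B1_c0_t25

theorem B1_c0_t15 : CovD 1 gB1 [(108806012928, 5726797824), (137438953472, 137438953472), (54975791104, 54975791104)] :=
  covD_split 1 (by decide +kernel) B1_c0_t16 B1_c0_t21

theorem B1_c0_t1 : CovD 1 gB1 [(103079215104, 11453595648), (137438953472, 137438953472), (54975791104, 54975791104)] :=
  covD_split 0 (by decide +kernel) B1_c0_t2 B1_c0_t15

theorem B1_c0_t28 : CovD 1 gB1 [(125986406400, 11453595648), (68719476736, 68719476736), (27487895552, 27487895552)] :=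
  covD_split 1 (by decide +kernel) B1_c0_t29 B1_c0_t30

theorem B1_c0_t27 : CovD 1 gB1 [(125986406400, 11453595648), (68719476736, 68719476736), (54975791104, 54975791104)] :=
  covD_split 2 (by decide +kernel) B1_c0_t28 B1_c0_t31

theorem B1_c0_t34 : CovD 1 gB1 [(125986406400, 11453595648), (206158430208, 68719476736), (13743947776, 13743947776)] :=
  covD_split 1 (by decide +kernel) B1_c0_t35 B1_c0_t36

theorem B1_c0_t33 : CovD 1 gB1 [(125986406400, 11453595648), (206158430208, 68719476736), (27487895552, 27487895552)] :=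
  covD_split 2 (by decide +kernel) B1_c0_t34 B1_c0_t37

theorem B1_c0_t32 : CovD 1 gB1 [(125986406400, 11453595648), (206158430208, 68719476736), (54975791104, 54975791104)] :=
  covD_split 2 (by decide +kernel) B1_c0_t33 B1_c0_t38

theorem B1_c0_t26 : CovD 1 gB1 [(125986406400, 11453595648), (137438953472, 137438953472), (54975791104, 54975791104)] :=
  covD_split 1 (by decide +kernel) B1_c0_t27 B1_c0_t32

theorem B1_c0 : CovD 1 gB1 [(114532810752, 22907191296), (137438953472, 137438953472), (54975791104, 54975791104)] :=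
  covD_split 0 (by decide +kernel) B1_c0_t1 B1_c0_t26

end Pool.Agent.helper14.NR.E8a
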