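import Pool.Agent.helper14.NR.E8a.PN1

/-!
Generated: certificates.
-/

namespace Pool.Agent.helper14.NR.E8a

open Pool.Agent.helper31.IA (Z)
open Pool.Agent.helper31.IX (Op XOps runX Cov CovD cov_split covD_split)
open Pool.Agent.helper31.IC (TD)
open Pool.Agent.helper63.RG (reloc)
open Pool.Agent.helper63.NF hiding TD
open Pool.Agent.helper14.CF (xE covD_E)
open Pool.Agent.helper14.NR (share)

mutual
theorem C1_c0_t4 : CovD 1 gC1 [(103079215104, 11453595648), (34359738368, 34359738368), (274877906944, 274877906944)] :=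
  covD_E kC1_eq (.n 1 (.n 1 (.n 0 (.n 2 (.n 2 (.l 0) (.l 0)) (.n 2 (.l 0) (.l 0))) (.n 2 (.n 2 (.l 0) (.l 0)) (.n 2 (.l 0) (.l 0)))) (.n 2 (.n 2 (.l 0) (.l 0)) (.n 2 (.l 0) (.l 0)))) (.n 2 (.n 0 (.l 0) (.l 0)) (.n 2 (.l 0) (.l 0))))
    [(103079215104, 11453595648), (34359738368, 34359738368), (274877906944, 274877906944)] rfl (by decide +kernel)
theorem C1_c0_t5 : CovD 1 gC1 [(103079215104, 11453595648), (103079215104, 34359738368), (274877906944, 274877906944)] :=
  covD_E kC1_eq (.n 0 (.n 2 (.l 0) (.l 0)) (.n 2 (.l 0) (.l 0)))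
    [(103079215104, 11453595648), (103079215104, 34359738368), (274877906944, 274877906944)] rfl (by decide +kernel)
end

mutual
theorem C1_c0_t6 : CovD 1 gC1 [(103079215104, 11453595648), (206158430208, 68719476736), (274877906944, 274877906944)] :=
  covD_E kC1_eq (.n 0 (.n 2 (.l 0) (.l 0)) (.n 2 (.l 0) (.l 0)))
    [(103079215104, 11453595648), (206158430208, 68719476736), (274877906944, 274877906944)] rfl (by decide +kernel)
theorem C1_c0_t9 : CovD 1 gC1 [(125986406400, 11453595648), (34359738368, 34359738368), (274877906944, 274877906944)] :=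
  covD_E kC1_eq (.n 1 (.n 1 (.n 0 (.n 2 (.n 2 (.l 0) (.l 0)) (.n 2 (.l 0) (.l 0))) (.n 2 (.n 2 (.l 0) (.l 0)) (.n 2 (.l 0) (.l 0)))) (.n 2 (.n 2 (.l 0) (.l 0)) (.n 2 (.l 0) (.l 0)))) (.n 2 (.n 0 (.l 0) (.l 0)) (.n 2 (.l 0) (.l 0))))
    [(125986406400, 11453595648), (34359738368, 34359738368), (274877906944, 274877906944)] rfl (by decide +kernel)
end

mutual
theorem C1_c0_t10 : CovD 1 gC1 [(125986406400, 11453595648), (103079215104, 34359738368), (274877906944, 274877906944)] :=
  covD_E kC1_eq (.n 0 (.n 2 (.l 0) (.l 0)) (.n 2 (.l 0) (.l 0)))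
    [(125986406400, 11453595648), (103079215104, 34359738368), (274877906944, 274877906944)] rfl (by decide +kernel)
theorem C1_c0_t11 : CovD 1 gC1 [(125986406400, 11453595648), (206158430208, 68719476736), (274877906944, 274877906944)] :=
  covD_E kC1_eq (.n 0 (.n 2 (.l 0) (.l 0)) (.n 2 (.l 0) (.l 0)))
    [(125986406400, 11453595648), (206158430208, 68719476736), (274877906944, 274877906944)] rfl (by decide +kernel)
end

mutual
theorem C1_c0_t14 : CovD 1 gC1 [(103079215104, 11453595648), (137438953472, 137438953472), (687194767360, 137438953472)] :=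
  covD_E kC1_eq (.n 1 (.n 1 (.n 1 (.n 1 (.n 0 (.n 2 (.l 0) (.l 0)) (.n 2 (.l 0) (.l 0))) (.n 2 (.l 0) (.n 0 (.l 0) (.l 0)))) (.n 1 (.n 0 (.l 0) (.l 0)) (.l 0))) (.n 1 (.n 0 (.l 0) (.l 0)) (.l 0))) (.n 0 (.l 0) (.l 0)))
    [(103079215104, 11453595648), (137438953472, 137438953472), (687194767360, 137438953472)] rfl (by decide +kernel)
theorem C1_c0_t20 : CovD 1 gC1 [(97352417280, 5726797824), (17179869184, 17179869184), (893353197568, 68719476736)] :=
  covD_E kC1_eq (.n 1 (.n 0 (.l 0) (.l 0)) (.l 0))
    [(97352417280, 5726797824), (17179869184, 17179869184), (893353197568, 68719476736)] rfl (by decide +kernel)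
end

mutual
theorem C1_c0_t27 : CovD 1 gC1 [(97352417280, 5726797824), (536870912, 536870912), (996432412672, 34359738368)] :=
  covD_E kC1_eq (.l 0)
    [(97352417280, 5726797824), (536870912, 536870912), (996432412672, 34359738368)] rfl (by decide +kernel)
theorem C1_c0_t33 : CovD 1 gC1 [(97352417280, 5726797824), (33554432, 33554432), (1047972020224, 17179869184)] :=
  covD_E kC1_eq (.l 0)
    [(97352417280, 5726797824), (33554432, 33554432), (1047972020224, 17179869184)] rfl (by decide +kernel)
end

mutual
theorem C1_c0_t35 : CovD 1 gC1 [(97352417280, 5726797824), (33554432, 33554432), (1073741824000, 8589934592)] :=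
  covD_E kC1_eq (.l 0)
    [(97352417280, 5726797824), (33554432, 33554432), (1073741824000, 8589934592)] rfl (by decide +kernel)
theorem C1_c0_t37 : CovD 1 gC1 [(97352417280, 5726797824), (33554432, 33554432), (1086626725888, 4294967296)] :=
  covD_E kC1_eq (.l 0)
    [(97352417280, 5726797824), (33554432, 33554432), (1086626725888, 4294967296)] rfl (by decide +kernel)
end

mutual
theorem C1_c0_t39 : CovD 1 gC1 [(97352417280, 5726797824), (33554432, 33554432), (1093069176832, 2147483648)] :=
  covD_E kC1_eq (.l 0)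
    [(97352417280, 5726797824), (33554432, 33554432), (1093069176832, 2147483648)] rfl (by decide +kernel)
theorem C1_c0_t41 : CovD 1 gC1 [(97352417280, 5726797824), (33554432, 33554432), (1096290402304, 1073741824)] :=
  covD_E kC1_eq (.l 0)
    [(97352417280, 5726797824), (33554432, 33554432), (1096290402304, 1073741824)] rfl (by decide +kernel)
end

mutual
theorem C1_c0_t43 : CovD 1 gC1 [(97352417280, 5726797824), (33554432, 33554432), (1097901015040, 536870912)] :=
  covD_E kC1_eq (.l 0)
    [(97352417280, 5726797824), (33554432, 33554432), (1097901015040, 536870912)] rfl (by decide +kernel)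
theorem C1_c0_t45 : CovD 1 gC1 [(97352417280, 5726797824), (33554432, 33554432), (1098706321408, 268435456)] :=
  covD_E kC1_eq (.l 0)
    [(97352417280, 5726797824), (33554432, 33554432), (1098706321408, 268435456)] rfl (by decide +kernel)
end

mutual
theorem C1_c0_t47 : CovD 1 gC1 [(94489018368, 2863398912), (33554432, 33554432), (1099243192320, 268435456)] :=
  covD_E kC1_eq (.n 0 (.n 0 (.n 0 (.n 0 (.l 1) (.l 1)) (.n 0 (.l 1) (.l 1))) (.n 0 (.n 0 (.l 1) (.l 1)) (.n 0 (.l 1) (.l 1)))) (.n 0 (.n 0 (.n 0 (.l 1) (.l 1)) (.n 0 (.l 1) (.l 1))) (.n 0 (.n 0 (.l 1) (.l 1)) (.n 0 (.l 1) (.l 1)))))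
    [(94489018368, 2863398912), (33554432, 33554432), (1099243192320, 268435456)] rfl (by decide +kernel)
theorem C1_c0_t48 : CovD 1 gC1 [(100215816192, 2863398912), (33554432, 33554432), (1099243192320, 268435456)] :=
  covD_E kC1_eq (.n 0 (.n 0 (.n 0 (.n 0 (.l 1) (.l 1)) (.n 0 (.l 1) (.l 1))) (.n 0 (.n 0 (.l 1) (.l 1)) (.n 0 (.l 1) (.l 1)))) (.n 0 (.n 0 (.n 0 (.l 1) (.l 1)) (.n 0 (.l 1) (.l 1))) (.n 0 (.n 0 (.l 1) (.l 1)) (.n 0 (.l 1) (.l 1)))))
    [(100215816192, 2863398912), (33554432, 33554432), (1099243192320, 268435456)] rfl (by decide +kernel)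
end

mutual
theorem C1_c0_t49 : CovD 1 gC1 [(97352417280, 5726797824), (100663296, 33554432), (1065151889408, 34359738368)] :=
  covD_E kC1_eq (.n 2 (.l 0) (.n 2 (.l 0) (.n 0 (.l 0) (.l 0))))
    [(97352417280, 5726797824), (100663296, 33554432), (1065151889408, 34359738368)] rfl (by decide +kernel)
theorem C1_c0_t50 : CovD 1 gC1 [(97352417280, 5726797824), (201326592, 67108864), (1065151889408, 34359738368)] :=
  covD_E kC1_eq (.n 2 (.l 0) (.n 0 (.l 0) (.l 0)))
    [(97352417280, 5726797824), (201326592, 67108864), (1065151889408, 34359738368)] rfl (by decide +kernel)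
end

mutual
theorem C1_c0_t51 : CovD 1 gC1 [(97352417280, 5726797824), (402653184, 134217728), (1065151889408, 34359738368)] :=
  covD_E kC1_eq (.n 0 (.l 0) (.l 0))
    [(97352417280, 5726797824), (402653184, 134217728), (1065151889408, 34359738368)] rfl (by decide +kernel)
theorem C1_c0_t52 : CovD 1 gC1 [(97352417280, 5726797824), (805306368, 268435456), (1065151889408, 34359738368)] :=
  covD_E kC1_eq (.l 0)
    [(97352417280, 5726797824), (805306368, 268435456), (1065151889408, 34359738368)] rfl (by decide +kernel)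
end

mutual
theorem C1_c0_t53 : CovD 1 gC1 [(97352417280, 5726797824), (1610612736, 536870912), (1030792151040, 68719476736)] :=
  covD_E kC1_eq (.l 0)
    [(97352417280, 5726797824), (1610612736, 536870912), (1030792151040, 68719476736)] rfl (by decide +kernel)
theorem C1_c0_t54 : CovD 1 gC1 [(97352417280, 5726797824), (3221225472, 1073741824), (1030792151040, 68719476736)] :=
  covD_E kC1_eq (.l 0)
    [(97352417280, 5726797824), (3221225472, 1073741824), (1030792151040, 68719476736)] rfl (by decide +kernel)
end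

mutual
theorem C1_c0_t55 : CovD 1 gC1 [(97352417280, 5726797824), (6442450944, 2147483648), (1030792151040, 68719476736)] :=
  covD_E kC1_eq (.l 0)
    [(97352417280, 5726797824), (6442450944, 2147483648), (1030792151040, 68719476736)] rfl (by decide +kernel)
theorem C1_c0_t56 : CovD 1 gC1 [(97352417280, 5726797824), (12884901888, 4294967296), (1030792151040, 68719476736)] :=
  covD_E kC1_eq (.l 0)
    [(97352417280, 5726797824), (12884901888, 4294967296), (1030792151040, 68719476736)] rfl (by decide +kernel)
end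

mutual
theorem C1_c0_t57 : CovD 1 gC1 [(97352417280, 5726797824), (25769803776, 8589934592), (1030792151040, 68719476736)] :=
  covD_E kC1_eq (.l 0)
    [(97352417280, 5726797824), (25769803776, 8589934592), (1030792151040, 68719476736)] rfl (by decide +kernel)
theorem C1_c0_t58 : CovD 1 gC1 [(97352417280, 5726797824), (51539607552, 17179869184), (962072674304, 137438953472)] :=
  covD_E kC1_eq (.n 1 (.n 0 (.l 0) (.l 0)) (.l 0))
    [(97352417280, 5726797824), (51539607552, 17179869184), (962072674304, 137438953472)] rfl (by decide +kernel)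
end

mutual
theorem C1_c0_t59 : CovD 1 gC1 [(97352417280, 5726797824), (103079215104, 34359738368), (962072674304, 137438953472)] :=
  covD_E kC1_eq (.n 1 (.l 0) (.l 0))
    [(97352417280, 5726797824), (103079215104, 34359738368), (962072674304, 137438953472)] rfl (by decide +kernel)
theorem C1_c0_t60 : CovD 1 gC1 [(97352417280, 5726797824), (206158430208, 68719476736), (962072674304, 137438953472)] :=
  covD_E kC1_eq (.l 0)
    [(97352417280, 5726797824), (206158430208, 68719476736), (962072674304, 137438953472)] rfl (by decide +kernel)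
end

mutual
theorem C1_c0_t67 : CovD 1 gC1 [(108806012928, 5726797824), (4294967296, 4294967296), (893353197568, 68719476736)] :=
  covD_E kC1_eq (.l 0)
    [(108806012928, 5726797824), (4294967296, 4294967296), (893353197568, 68719476736)] rfl (by decide +kernel)
theorem C1_c0_t74 : CovD 1 gC1 [(108806012928, 5726797824), (134217728, 134217728), (996432412672, 34359738368)] :=
  covD_E kC1_eq (.l 0)
    [(108806012928, 5726797824), (134217728, 134217728), (996432412672, 34359738368)] rfl (by decide +kernel)
end

mutual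
theorem C1_c0_t76 : CovD 1 gC1 [(108806012928, 5726797824), (134217728, 134217728), (1047972020224, 17179869184)] :=
  covD_E kC1_eq (.l 0)
    [(108806012928, 5726797824), (134217728, 134217728), (1047972020224, 17179869184)] rfl (by decide +kernel)
theorem C1_c0_t80 : CovD 1 gC1 [(108806012928, 5726797824), (33554432, 33554432), (1073741824000, 8589934592)] :=
  covD_E kC1_eq (.l 0)
    [(108806012928, 5726797824), (33554432, 33554432), (1073741824000, 8589934592)] rfl (by decide +kernel)
end

mutual
theorem C1_c0_t82 : CovD 1 gC1 [(108806012928, 5726797824), (33554432, 33554432), (1086626725888, 4294967296)] :=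
  covD_E kC1_eq (.l 0)
    [(108806012928, 5726797824), (33554432, 33554432), (1086626725888, 4294967296)] rfl (by decide +kernel)
theorem C1_c0_t84 : CovD 1 gC1 [(108806012928, 5726797824), (33554432, 33554432), (1093069176832, 2147483648)] :=
  covD_E kC1_eq (.l 0)
    [(108806012928, 5726797824), (33554432, 33554432), (1093069176832, 2147483648)] rfl (by decide +kernel)
end

mutual
theorem C1_c0_t86 : CovD 1 gC1 [(108806012928, 5726797824), (33554432, 33554432), (1096290402304, 1073741824)] :=
  covD_E kC1_eq (.l 0)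
    [(108806012928, 5726797824), (33554432, 33554432), (1096290402304, 1073741824)] rfl (by decide +kernel)
theorem C1_c0_t88 : CovD 1 gC1 [(108806012928, 5726797824), (33554432, 33554432), (1097901015040, 536870912)] :=
  covD_E kC1_eq (.l 0)
    [(108806012928, 5726797824), (33554432, 33554432), (1097901015040, 536870912)] rfl (by decide +kernel)
end

mutual
theorem C1_c0_t90 : CovD 1 gC1 [(105942614016, 2863398912), (33554432, 33554432), (1098974756864, 536870912)] :=
  covD_E kC1_eq (.n 0 (.n 0 (.n 0 (.n 0 (.l 1) (.l 1)) (.n 0 (.l 1) (.l 1))) (.n 0 (.n 0 (.l 1) (.l 1)) (.n 0 (.l 1) (.l 1)))) (.n 0 (.n 0 (.n 0 (.l 1) (.l 1)) (.n 0 (.l 1) (.l 1))) (.n 0 (.n 0 (.l 1) (.l 1)) (.n 0 (.l 1) (.l 1)))))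
    [(105942614016, 2863398912), (33554432, 33554432), (1098974756864, 536870912)] rfl (by decide +kernel)
theorem C1_c0_t91 : CovD 1 gC1 [(111669411840, 2863398912), (33554432, 33554432), (1098974756864, 536870912)] :=
  covD_E kC1_eq (.n 0 (.n 0 (.n 0 (.n 0 (.l 1) (.l 1)) (.n 0 (.l 1) (.l 1))) (.n 0 (.n 0 (.l 1) (.l 1)) (.n 0 (.l 1) (.l 1)))) (.n 0 (.n 0 (.n 0 (.l 1) (.l 1)) (.n 0 (.l 1) (.l 1))) (.n 0 (.n 0 (.l 1) (.l 1)) (.n 0 (.l 1) (.l 1)))))
    [(111669411840, 2863398912), (33554432, 33554432), (1098974756864, 536870912)] rfl (by decide +kernel)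
end

mutual
theorem C1_c0_t92 : CovD 1 gC1 [(108806012928, 5726797824), (100663296, 33554432), (1082331758592, 17179869184)] :=
  covD_E kC1_eq (.n 2 (.l 0) (.n 0 (.l 0) (.l 0)))
    [(108806012928, 5726797824), (100663296, 33554432), (1082331758592, 17179869184)] rfl (by decide +kernel)
theorem C1_c0_t93 : CovD 1 gC1 [(108806012928, 5726797824), (201326592, 67108864), (1082331758592, 17179869184)] :=
  covD_E kC1_eq (.n 0 (.l 0) (.l 0))
    [(108806012928, 5726797824), (201326592, 67108864), (1082331758592, 17179869184)] rfl (by decide +kernel)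
end

mutual
theorem C1_c0_t94 : CovD 1 gC1 [(108806012928, 5726797824), (402653184, 134217728), (1030792151040, 68719476736)] :=
  covD_E kC1_eq (.n 2 (.l 0) (.n 0 (.l 0) (.l 0)))
    [(108806012928, 5726797824), (402653184, 134217728), (1030792151040, 68719476736)] rfl (by decide +kernel)
theorem C1_c0_t95 : CovD 1 gC1 [(108806012928, 5726797824), (805306368, 268435456), (1030792151040, 68719476736)] :=
  covD_E kC1_eq (.n 2 (.l 0) (.l 0))
    [(108806012928, 5726797824), (805306368, 268435456), (1030792151040, 68719476736)] rfl (by decide +kernel)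
end

mutual
theorem C1_c0_t96 : CovD 1 gC1 [(108806012928, 5726797824), (1610612736, 536870912), (1030792151040, 68719476736)] :=
  covD_E kC1_eq (.l 0)
    [(108806012928, 5726797824), (1610612736, 536870912), (1030792151040, 68719476736)] rfl (by decide +kernel)
theorem C1_c0_t97 : CovD 1 gC1 [(108806012928, 5726797824), (3221225472, 1073741824), (1030792151040, 68719476736)] :=
  covD_E kC1_eq (.l 0)
    [(108806012928, 5726797824), (3221225472, 1073741824), (1030792151040, 68719476736)] rfl (by decide +kernel)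
end

mutual
theorem C1_c0_t98 : CovD 1 gC1 [(108806012928, 5726797824), (6442450944, 2147483648), (1030792151040, 68719476736)] :=
  covD_E kC1_eq (.l 0)
    [(108806012928, 5726797824), (6442450944, 2147483648), (1030792151040, 68719476736)] rfl (by decide +kernel)
theorem C1_c0_t99 : CovD 1 gC1 [(108806012928, 5726797824), (12884901888, 4294967296), (962072674304, 137438953472)] :=
  covD_E kC1_eq (.n 0 (.l 0) (.l 0))
    [(108806012928, 5726797824), (12884901888, 4294967296), (962072674304, 137438953472)] rfl (by decide +kernel)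
end

mutual
theorem C1_c0_t100 : CovD 1 gC1 [(108806012928, 5726797824), (25769803776, 8589934592), (962072674304, 137438953472)] :=
  covD_E kC1_eq (.n 2 (.l 0) (.n 0 (.l 0) (.l 0)))
    [(108806012928, 5726797824), (25769803776, 8589934592), (962072674304, 137438953472)] rfl (by decide +kernel)
theorem C1_c0_t101 : CovD 1 gC1 [(108806012928, 5726797824), (51539607552, 17179869184), (962072674304, 137438953472)] :=
  covD_E kC1_eq (.n 1 (.n 0 (.l 0) (.l 0)) (.l 0))
    [(108806012928, 5726797824), (51539607552, 17179869184), (962072674304, 137438953472)] rfl (by decide +kernel)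
end

mutual
theorem C1_c0_t102 : CovD 1 gC1 [(108806012928, 5726797824), (103079215104, 34359738368), (962072674304, 137438953472)] :=
  covD_E kC1_eq (.n 1 (.l 0) (.l 0))
    [(108806012928, 5726797824), (103079215104, 34359738368), (962072674304, 137438953472)] rfl (by decide +kernel)
theorem C1_c0_t103 : CovD 1 gC1 [(108806012928, 5726797824), (206158430208, 68719476736), (962072674304, 137438953472)] :=
  covD_E kC1_eq (.l 0)
    [(108806012928, 5726797824), (206158430208, 68719476736), (962072674304, 137438953472)] rfl (by decide +kernel)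
end

mutual
theorem C1_c0_t111 : CovD 1 gC1 [(125986406400, 11453595648), (2147483648, 2147483648), (687194767360, 137438953472)] :=
  covD_E kC1_eq (.n 2 (.l 0) (.l 0))
    [(125986406400, 11453595648), (2147483648, 2147483648), (687194767360, 137438953472)] rfl (by decide +kernel)
theorem C1_c0_t113 : CovD 1 gC1 [(125986406400, 11453595648), (2147483648, 2147483648), (893353197568, 68719476736)] :=
  covD_E kC1_eq (.l 0)
    [(125986406400, 11453595648), (2147483648, 2147483648), (893353197568, 68719476736)] rfl (by decide +kernel)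
end

mutual
theorem C1_c0_t116 : CovD 1 gC1 [(125986406400, 11453595648), (1073741824, 1073741824), (996432412672, 34359738368)] :=
  covD_E kC1_eq (.l 0)
    [(125986406400, 11453595648), (1073741824, 1073741824), (996432412672, 34359738368)] rfl (by decide +kernel)
theorem C1_c0_t122 : CovD 1 gC1 [(125986406400, 11453595648), (67108864, 67108864), (1047972020224, 17179869184)] :=
  covD_E kC1_eq (.l 0)
    [(125986406400, 11453595648), (67108864, 67108864), (1047972020224, 17179869184)] rfl (by decide +kernel)
end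

mutual
theorem C1_c0_t124 : CovD 1 gC1 [(125986406400, 11453595648), (67108864, 67108864), (1073741824000, 8589934592)] :=
  covD_E kC1_eq (.l 0)
    [(125986406400, 11453595648), (67108864, 67108864), (1073741824000, 8589934592)] rfl (by decide +kernel)
theorem C1_c0_t126 : CovD 1 gC1 [(125986406400, 11453595648), (67108864, 67108864), (1086626725888, 4294967296)] :=
  covD_E kC1_eq (.l 0)
    [(125986406400, 11453595648), (67108864, 67108864), (1086626725888, 4294967296)] rfl (by decide +kernel)
end

mutual
theorem C1_c0_t128 : CovD 1 gC1 [(125986406400, 11453595648), (67108864, 67108864), (1093069176832, 2147483648)] :=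
  covD_E kC1_eq (.l 0)
    [(125986406400, 11453595648), (67108864, 67108864), (1093069176832, 2147483648)] rfl (by decide +kernel)
theorem C1_c0_t130 : CovD 1 gC1 [(125986406400, 11453595648), (67108864, 67108864), (1096290402304, 1073741824)] :=
  covD_E kC1_eq (.l 0)
    [(125986406400, 11453595648), (67108864, 67108864), (1096290402304, 1073741824)] rfl (by decide +kernel)
end

mutual
theorem C1_c0_t132 : CovD 1 gC1 [(125986406400, 11453595648), (67108864, 67108864), (1097901015040, 536870912)] :=
  covD_E kC1_eq (.l 0)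
    [(125986406400, 11453595648), (67108864, 67108864), (1097901015040, 536870912)] rfl (by decide +kernel)
theorem C1_c0_t134 : CovD 1 gC1 [(125986406400, 11453595648), (67108864, 67108864), (1098706321408, 268435456)] :=
  covD_E kC1_eq (.l 0)
    [(125986406400, 11453595648), (67108864, 67108864), (1098706321408, 268435456)] rfl (by decide +kernel)
end

mutual
theorem C1_c0_t137 : CovD 1 gC1 [(117396209664, 2863398912), (67108864, 67108864), (1099243192320, 268435456)] :=
  covD_E kC1_eq (.n 0 (.n 0 (.n 2 (.l 0) (.n 0 (.l 1) (.l 1))) (.n 0 (.l 1) (.l 1))) (.n 0 (.n 0 (.l 1) (.l 1)) (.n 0 (.l 1) (.l 1))))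
    [(117396209664, 2863398912), (67108864, 67108864), (1099243192320, 268435456)] rfl (by decide +kernel)
theorem C1_c0_t138 : CovD 1 gC1 [(123123007488, 2863398912), (67108864, 67108864), (1099243192320, 268435456)] :=
  covD_E kC1_eq (.n 0 (.n 0 (.n 0 (.l 1) (.l 1)) (.n 0 (.l 1) (.l 1))) (.n 0 (.n 0 (.l 1) (.l 1)) (.n 0 (.l 1) (.l 1))))
    [(123123007488, 2863398912), (67108864, 67108864), (1099243192320, 268435456)] rfl (by decide +kernel)
end

mutual
theorem C1_c0_t139 : CovD 1 gC1 [(131713204224, 5726797824), (67108864, 67108864), (1099243192320, 268435456)] :=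
  covD_E kC1_eq (.n 0 (.n 0 (.n 0 (.n 0 (.l 1) (.l 1)) (.n 0 (.l 1) (.l 1))) (.n 0 (.n 0 (.l 1) (.l 1)) (.n 0 (.l 1) (.l 1)))) (.n 0 (.n 0 (.n 0 (.l 1) (.l 1)) (.n 0 (.l 1) (.l 1))) (.n 0 (.n 0 (.l 1) (.l 1)) (.n 0 (.l 1) (.l 1)))))
    [(131713204224, 5726797824), (67108864, 67108864), (1099243192320, 268435456)] rfl (by decide +kernel)
theorem C1_c0_t140 : CovD 1 gC1 [(125986406400, 11453595648), (201326592, 67108864), (1065151889408, 34359738368)] :=
  covD_E kC1_eq (.n 2 (.l 0) (.n 0 (.l 0) (.l 0)))
    [(125986406400, 11453595648), (201326592, 67108864), (1065151889408, 34359738368)] rfl (by decide +kernel)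
end

mutual
theorem C1_c0_t141 : CovD 1 gC1 [(125986406400, 11453595648), (402653184, 134217728), (1065151889408, 34359738368)] :=
  covD_E kC1_eq (.n 2 (.l 0) (.l 0))
    [(125986406400, 11453595648), (402653184, 134217728), (1065151889408, 34359738368)] rfl (by decide +kernel)
theorem C1_c0_t142 : CovD 1 gC1 [(125986406400, 11453595648), (805306368, 268435456), (1065151889408, 34359738368)] :=
  covD_E kC1_eq (.n 0 (.l 0) (.l 0))
    [(125986406400, 11453595648), (805306368, 268435456), (1065151889408, 34359738368)] rfl (by decide +kernel)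
end

mutual
theorem C1_c0_t143 : CovD 1 gC1 [(125986406400, 11453595648), (1610612736, 536870912), (1065151889408, 34359738368)] :=
  covD_E kC1_eq (.l 0)
    [(125986406400, 11453595648), (1610612736, 536870912), (1065151889408, 34359738368)] rfl (by decide +kernel)
theorem C1_c0_t144 : CovD 1 gC1 [(125986406400, 11453595648), (3221225472, 1073741824), (1030792151040, 68719476736)] :=
  covD_E kC1_eq (.l 0)
    [(125986406400, 11453595648), (3221225472, 1073741824), (1030792151040, 68719476736)] rfl (by decide +kernel)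
end

mutual
theorem C1_c0_t145 : CovD 1 gC1 [(125986406400, 11453595648), (6442450944, 2147483648), (824633720832, 274877906944)] :=
  covD_E kC1_eq (.n 2 (.n 2 (.l 0) (.l 0)) (.n 2 (.l 0) (.l 0)))
    [(125986406400, 11453595648), (6442450944, 2147483648), (824633720832, 274877906944)] rfl (by decide +kernel)
theorem C1_c0_t146 : CovD 1 gC1 [(125986406400, 11453595648), (12884901888, 4294967296), (824633720832, 274877906944)] :=
  covD_E kC1_eq (.n 2 (.n 2 (.l 0) (.l 0)) (.n 2 (.l 0) (.n 0 (.l 0) (.l 0))))
    [(125986406400, 11453595648), (12884901888, 4294967296), (824633720832, 274877906944)] rfl (by decide +kernel)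
end

mutual
theorem C1_c0_t147 : CovD 1 gC1 [(125986406400, 11453595648), (25769803776, 8589934592), (824633720832, 274877906944)] :=
  covD_E kC1_eq (.n 1 (.n 2 (.n 0 (.l 0) (.l 0)) (.n 2 (.l 0) (.n 0 (.l 0) (.l 0)))) (.n 2 (.n 0 (.l 0) (.l 0)) (.n 2 (.l 0) (.l 0))))
    [(125986406400, 11453595648), (25769803776, 8589934592), (824633720832, 274877906944)] rfl (by decide +kernel)
theorem C1_c0_t148 : CovD 1 gC1 [(125986406400, 11453595648), (51539607552, 17179869184), (824633720832, 274877906944)] :=
  covD_E kC1_eq (.n 1 (.n 2 (.n 0 (.l 0) (.l 0)) (.n 2 (.l 0) (.n 0 (.l 0) (.l 0)))) (.n 2 (.l 0) (.n 0 (.l 0) (.l 0))))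
    [(125986406400, 11453595648), (51539607552, 17179869184), (824633720832, 274877906944)] rfl (by decide +kernel)
end

mutual
theorem C1_c0_t149 : CovD 1 gC1 [(125986406400, 11453595648), (103079215104, 34359738368), (824633720832, 274877906944)] :=
  covD_E kC1_eq (.n 1 (.n 2 (.l 0) (.n 0 (.l 0) (.l 0))) (.n 2 (.l 0) (.l 0)))
    [(125986406400, 11453595648), (103079215104, 34359738368), (824633720832, 274877906944)] rfl (by decide +kernel)
theorem C1_c0_t150 : CovD 1 gC1 [(125986406400, 11453595648), (206158430208, 68719476736), (824633720832, 274877906944)] :=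
  covD_E kC1_eq (.n 0 (.n 2 (.l 0) (.l 0)) (.n 2 (.l 0) (.l 0)))
    [(125986406400, 11453595648), (206158430208, 68719476736), (824633720832, 274877906944)] rfl (by decide +kernel)
end

mutual
theorem D1_c0_t1 : CovD 1 gD1 [(103079215104, 11453595648), (137438953472, 137438953472), (863554764800, 863554764800)] :=
  covD_E kD1_eq (.n 2 (.n 2 (.n 1 (.l 0) (.l 0)) (.n 2 (.l 0) (.l 0))) (.n 0 (.n 1 (.n 2 (.l 0) (.l 0)) (.n 2 (.l 0) (.l 0))) (.n 1 (.n 2 (.l 0) (.l 0)) (.n 2 (.l 0) (.l 0)))))
    [(103079215104, 11453595648), (137438953472, 137438953472), (863554764800, 863554764800)] rfl (by decide +kernel)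
theorem D1_c0_t2 : CovD 1 gD1 [(125986406400, 11453595648), (137438953472, 137438953472), (863554764800, 863554764800)] :=
  covD_E kD1_eq (.n 2 (.n 2 (.n 1 (.l 0) (.l 0)) (.n 2 (.l 0) (.l 0))) (.n 2 (.n 2 (.l 0) (.l 0)) (.n 0 (.n 1 (.l 0) (.l 0)) (.n 1 (.l 0) (.l 0)))))
    [(125986406400, 11453595648), (137438953472, 137438953472), (863554764800, 863554764800)] rfl (by decide +kernel)
end

mutual
theorem E1_c0_t7 : CovD 1 gE1 [(97352417280, 5726797824), (137438953472, 137438953472), (26986086400, 26986086400)] :=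
  covD_E kE1_eq (.n 2 (.n 0 (.n 1 (.n 1 (.n 1 (.l 1) (.l 1)) (.n 0 (.l 0) (.l 0))) (.n 0 (.l 0) (.l 0))) (.n 0 (.n 1 (.n 1 (.l 1) (.l 0)) (.l 0)) (.n 1 (.n 1 (.l 1) (.l 0)) (.l 0)))) (.n 0 (.n 0 (.l 0) (.l 0)) (.n 0 (.l 0) (.l 0))))
    [(97352417280, 5726797824), (137438953472, 137438953472), (26986086400, 26986086400)] rfl (by decide +kernel)
theorem E1_c0_t8 : CovD 1 gE1 [(97352417280, 5726797824), (137438953472, 137438953472), (80958259200, 26986086400)] :=
  covD_E kE1_eq (.n 0 (.n 0 (.l 0) (.l 0)) (.n 0 (.l 0) (.l 0)))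
    [(97352417280, 5726797824), (137438953472, 137438953472), (80958259200, 26986086400)] rfl (by decide +kernel)
end

mutual
theorem E1_c0_t9 : CovD 1 gE1 [(97352417280, 5726797824), (137438953472, 137438953472), (161916518400, 53972172800)] :=
  covD_E kE1_eq (.n 2 (.n 0 (.l 0) (.l 0)) (.l 0))
    [(97352417280, 5726797824), (137438953472, 137438953472), (161916518400, 53972172800)] rfl (by decide +kernel)
theorem E1_c0_t10 : CovD 1 gE1 [(97352417280, 5726797824), (137438953472, 137438953472), (323833036800, 107944345600)] :=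
  covD_E kE1_eq (.n 2 (.n 0 (.l 0) (.l 0)) (.l 0))
    [(97352417280, 5726797824), (137438953472, 137438953472), (323833036800, 107944345600)] rfl (by decide +kernel)
end

mutual
theorem E1_c0_t11 : CovD 1 gE1 [(97352417280, 5726797824), (137438953472, 137438953472), (647666073600, 215888691200)] :=
  covD_E kE1_eq (.n 2 (.l 0) (.l 0))
    [(97352417280, 5726797824), (137438953472, 137438953472), (647666073600, 215888691200)] rfl (by decide +kernel)
theorem E1_c0_t13 : CovD 1 gE1 [(105942614016, 2863398912), (137438953472, 137438953472), (431777382400, 431777382400)] :=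
  covD_E kE1_eq (.n 2 (.n 0 (.n 2 (.n 2 (.n 2 (.n 2 (.n 1 (.n 1 (.l 1) (.l 0)) (.l 0)) (.l 0)) (.l 0)) (.l 0)) (.l 0)) (.n 2 (.n 2 (.n 2 (.n 2 (.n 1 (.n 1 (.l 1) (.l 0)) (.l 0)) (.l 0)) (.l 0)) (.l 0)) (.l 0))) (.n 2 (.l 0) (.l 0)))
    [(105942614016, 2863398912), (137438953472, 137438953472), (431777382400, 431777382400)] rfl (by decide +kernel)
end

mutual
theorem E1_c0_t14 : CovD 1 gE1 [(111669411840, 2863398912), (137438953472, 137438953472), (431777382400, 431777382400)] :=
  covD_E kE1_eq (.n 2 (.n 2 (.n 2 (.n 1 (.n 2 (.n 1 (.l 1) (.n 1 (.l 1) (.l 1))) (.l 0)) (.n 2 (.n 2 (.n 0 (.l 0) (.l 0)) (.l 0)) (.l 0))) (.l 0)) (.l 0)) (.n 2 (.l 0) (.l 0)))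
    [(111669411840, 2863398912), (137438953472, 137438953472), (431777382400, 431777382400)] rfl (by decide +kernel)
theorem E1_c0_t17 : CovD 1 gE1 [(117396209664, 2863398912), (137438953472, 137438953472), (431777382400, 431777382400)] :=
  covD_E kE1_eq (.n 2 (.n 2 (.n 2 (.n 2 (.n 1 (.n 1 (.l 1) (.n 0 (.l 0) (.l 0))) (.n 2 (.n 0 (.l 0) (.l 0)) (.l 0))) (.l 0)) (.l 0)) (.l 0)) (.n 2 (.l 0) (.l 0)))
    [(117396209664, 2863398912), (137438953472, 137438953472), (431777382400, 431777382400)] rfl (by decide +kernel)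
end

mutual
theorem E1_c0_t18 : CovD 1 gE1 [(123123007488, 2863398912), (137438953472, 137438953472), (431777382400, 431777382400)] :=
  covD_E kE1_eq (.n 2 (.n 2 (.n 2 (.n 2 (.n 1 (.n 1 (.l 1) (.l 1)) (.n 0 (.l 0) (.l 0))) (.l 0)) (.l 0)) (.l 0)) (.n 2 (.l 0) (.l 0)))
    [(123123007488, 2863398912), (137438953472, 137438953472), (431777382400, 431777382400)] rfl (by decide +kernel)
theorem E1_c0_t19 : CovD 1 gE1 [(131713204224, 5726797824), (137438953472, 137438953472), (431777382400, 431777382400)] :=
  covD_E kE1_eq (.n 2 (.n 0 (.n 2 (.n 2 (.n 2 (.n 1 (.n 1 (.l 1) (.l 1)) (.n 0 (.l 0) (.l 0))) (.l 0)) (.l 0)) (.l 0)) (.n 2 (.n 2 (.n 1 (.n 1 (.l 1) (.l 1)) (.n 2 (.l 0) (.l 0))) (.l 0)) (.l 0))) (.n 2 (.l 0) (.l 0)))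
    [(131713204224, 5726797824), (137438953472, 137438953472), (431777382400, 431777382400)] rfl (by decide +kernel)
end

theorem E1_c0_t20 : CovD 1 gE1 [(114532810752, 22907191296), (137438953472, 137438953472), (1295332147200, 431777382400)] :=
  covD_E kE1_eq (.n 0 (.n 0 (.n 2 (.n 2 (.l 0) (.l 0)) (.n 2 (.l 0) (.l 0))) (.n 2 (.n 2 (.l 0) (.l 0)) (.n 2 (.l 0) (.l 0)))) (.n 0 (.n 2 (.n 2 (.l 0) (.l 0)) (.n 2 (.l 0) (.l 0))) (.n 2 (.n 2 (.l 0) (.l 0)) (.n 2 (.l 0) (.l 0)))))
    [(114532810752, 22907191296), (137438953472, 137438953472), (1295332147200, 431777382400)] rfl (by decide +kernel)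

theorem C1_c0_t3 : CovD 1 gC1 [(103079215104, 11453595648), (68719476736, 68719476736), (274877906944, 274877906944)] :=
  covD_split 1 (by decide +kernel) C1_c0_t4 C1_c0_t5

theorem C1_c0_t2 : CovD 1 gC1 [(103079215104, 11453595648), (137438953472, 137438953472), (274877906944, 274877906944)] :=
  covD_split 1 (by decide +kernel) C1_c0_t3 C1_c0_t6

theorem C1_c0_t8 : CovD 1 gC1 [(125986406400, 11453595648), (68719476736, 68719476736), (274877906944, 274877906944)] :=
  covD_split 1 (by decide +kernel) C1_c0_t9 C1_c0_t10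

theorem C1_c0_t7 : CovD 1 gC1 [(125986406400, 11453595648), (137438953472, 137438953472), (274877906944, 274877906944)] :=
  covD_split 1 (by decide +kernel) C1_c0_t8 C1_c0_t11

theorem C1_c0_t1 : CovD 1 gC1 [(114532810752, 22907191296), (137438953472, 137438953472), (274877906944, 274877906944)] :=
  covD_split 0 (by decide +kernel) C1_c0_t2 C1_c0_t7

theorem C1_c0_t46 : CovD 1 gC1 [(97352417280, 5726797824), (33554432, 33554432), (1099243192320, 268435456)] :=
  covD_split 0 (by decide +kernel) C1_c0_t47 C1_c0_t48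

theorem C1_c0_t44 : CovD 1 gC1 [(97352417280, 5726797824), (33554432, 33554432), (1098974756864, 536870912)] :=
  covD_split 2 (by decide +kernel) C1_c0_t45 C1_c0_t46

theorem C1_c0_t42 : CovD 1 gC1 [(97352417280, 5726797824), (33554432, 33554432), (1098437885952, 1073741824)] :=
  covD_split 2 (by decide +kernel) C1_c0_t43 C1_c0_t44

theorem C1_c0_t40 : CovD 1 gC1 [(97352417280, 5726797824), (33554432, 33554432), (1097364144128, 2147483648)] :=
  covD_split 2 (by decide +kernel) C1_c0_t41 C1_c0_t42

theorem C1_c0_t38 : CovD 1 gC1 [(97352417280, 5726797824), (33554432, 33554432), (1095216660480, 4294967296)] :=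
  covD_split 2 (by decide +kernel) C1_c0_t39 C1_c0_t40

theorem C1_c0_t36 : CovD 1 gC1 [(97352417280, 5726797824), (33554432, 33554432), (1090921693184, 8589934592)] :=
  covD_split 2 (by decide +kernel) C1_c0_t37 C1_c0_t38

theorem C1_c0_t34 : CovD 1 gC1 [(97352417280, 5726797824), (33554432, 33554432), (1082331758592, 17179869184)] :=
  covD_split 2 (by decide +kernel) C1_c0_t35 C1_c0_t36

theorem C1_c0_t32 : CovD 1 gC1 [(97352417280, 5726797824), (33554432, 33554432), (1065151889408, 34359738368)] :=
  covD_split 2 (by decide +kernel) C1_c0_t33 C1_c0_t34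

theorem C1_c0_t31 : CovD 1 gC1 [(97352417280, 5726797824), (67108864, 67108864), (1065151889408, 34359738368)] :=
  covD_split 1 (by decide +kernel) C1_c0_t32 C1_c0_t49

theorem C1_c0_t30 : CovD 1 gC1 [(97352417280, 5726797824), (134217728, 134217728), (1065151889408, 34359738368)] :=
  covD_split 1 (by decide +kernel) C1_c0_t31 C1_c0_t50

theorem C1_c0_t29 : CovD 1 gC1 [(97352417280, 5726797824), (268435456, 268435456), (1065151889408, 34359738368)] :=
  covD_split 1 (by decide +kernel) C1_c0_t30 C1_c0_t51

theorem C1_c0_t28 : CovD 1 gC1 [(97352417280, 5726797824), (536870912, 536870912), (1065151889408, 34359738368)] :=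
  covD_split 1 (by decide +kernel) C1_c0_t29 C1_c0_t52

theorem C1_c0_t26 : CovD 1 gC1 [(97352417280, 5726797824), (536870912, 536870912), (1030792151040, 68719476736)] :=
  covD_split 2 (by decide +kernel) C1_c0_t27 C1_c0_t28

theorem C1_c0_t25 : CovD 1 gC1 [(97352417280, 5726797824), (1073741824, 1073741824), (1030792151040, 68719476736)] :=
  covD_split 1 (by decide +kernel) C1_c0_t26 C1_c0_t53

theorem C1_c0_t24 : CovD 1 gC1 [(97352417280, 5726797824), (2147483648, 2147483648), (1030792151040, 68719476736)] :=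
  covD_split 1 (by decide +kernel) C1_c0_t25 C1_c0_t54

theorem C1_c0_t23 : CovD 1 gC1 [(97352417280, 5726797824), (4294967296, 4294967296), (1030792151040, 68719476736)] :=
  covD_split 1 (by decide +kernel) C1_c0_t24 C1_c0_t55

theorem C1_c0_t22 : CovD 1 gC1 [(97352417280, 5726797824), (8589934592, 8589934592), (1030792151040, 68719476736)] :=
  covD_split 1 (by decide +kernel) C1_c0_t23 C1_c0_t56

theorem C1_c0_t21 : CovD 1 gC1 [(97352417280, 5726797824), (17179869184, 17179869184), (1030792151040, 68719476736)] :=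
  covD_split 1 (by decide +kernel) C1_c0_t22 C1_c0_t57

theorem C1_c0_t19 : CovD 1 gC1 [(97352417280, 5726797824), (17179869184, 17179869184), (962072674304, 137438953472)] :=
  covD_split 2 (by decide +kernel) C1_c0_t20 C1_c0_t21

theorem C1_c0_t18 : CovD 1 gC1 [(97352417280, 5726797824), (34359738368, 34359738368), (962072674304, 137438953472)] :=
  covD_split 1 (by decide +kernel) C1_c0_t19 C1_c0_t58

theorem C1_c0_t17 : CovD 1 gC1 [(97352417280, 5726797824), (68719476736, 68719476736), (962072674304, 137438953472)] :=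
  covD_split 1 (by decide +kernel) C1_c0_t18 C1_c0_t59

theorem C1_c0_t16 : CovD 1 gC1 [(97352417280, 5726797824), (137438953472, 137438953472), (962072674304, 137438953472)] :=
  covD_split 1 (by decide +kernel) C1_c0_t17 C1_c0_t60

theorem C1_c0_t89 : CovD 1 gC1 [(108806012928, 5726797824), (33554432, 33554432), (1098974756864, 536870912)] :=
  covD_split 0 (by decide +kernel) C1_c0_t90 C1_c0_t91

theorem C1_c0_t87 : CovD 1 gC1 [(108806012928, 5726797824), (33554432, 33554432), (1098437885952, 1073741824)] :=
  covD_split 2 (by decide +kernel) C1_c0_t88 C1_c0_t89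

theorem C1_c0_t85 : CovD 1 gC1 [(108806012928, 5726797824), (33554432, 33554432), (1097364144128, 2147483648)] :=
  covD_split 2 (by decide +kernel) C1_c0_t86 C1_c0_t87

theorem C1_c0_t83 : CovD 1 gC1 [(108806012928, 5726797824), (33554432, 33554432), (1095216660480, 4294967296)] :=
  covD_split 2 (by decide +kernel) C1_c0_t84 C1_c0_t85

theorem C1_c0_t81 : CovD 1 gC1 [(108806012928, 5726797824), (33554432, 33554432), (1090921693184, 8589934592)] :=
  covD_split 2 (by decide +kernel) C1_c0_t82 C1_c0_t83

theorem C1_c0_t79 : CovD 1 gC1 [(108806012928, 5726797824), (33554432, 33554432), (1082331758592, 17179869184)] :=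
  covD_split 2 (by decide +kernel) C1_c0_t80 C1_c0_t81

theorem C1_c0_t78 : CovD 1 gC1 [(108806012928, 5726797824), (67108864, 67108864), (1082331758592, 17179869184)] :=
  covD_split 1 (by decide +kernel) C1_c0_t79 C1_c0_t92

theorem C1_c0_t77 : CovD 1 gC1 [(108806012928, 5726797824), (134217728, 134217728), (1082331758592, 17179869184)] :=
  covD_split 1 (by decide +kernel) C1_c0_t78 C1_c0_t93

theorem C1_c0_t75 : CovD 1 gC1 [(108806012928, 5726797824), (134217728, 134217728), (1065151889408, 34359738368)] :=
  covD_split 2 (by decide +kernel) C1_c0_t76 C1_c0_t77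

theorem C1_c0_t73 : CovD 1 gC1 [(108806012928, 5726797824), (134217728, 134217728), (1030792151040, 68719476736)] :=
  covD_split 2 (by decide +kernel) C1_c0_t74 C1_c0_t75

theorem C1_c0_t72 : CovD 1 gC1 [(108806012928, 5726797824), (268435456, 268435456), (1030792151040, 68719476736)] :=
  covD_split 1 (by decide +kernel) C1_c0_t73 C1_c0_t94

theorem C1_c0_t71 : CovD 1 gC1 [(108806012928, 5726797824), (536870912, 536870912), (1030792151040, 68719476736)] :=
  covD_split 1 (by decide +kernel) C1_c0_t72 C1_c0_t95

theorem C1_c0_t70 : CovD 1 gC1 [(108806012928, 5726797824), (1073741824, 1073741824), (1030792151040, 68719476736)] :=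
  covD_split 1 (by decide +kernel) C1_c0_t71 C1_c0_t96

theorem C1_c0_t69 : CovD 1 gC1 [(108806012928, 5726797824), (2147483648, 2147483648), (1030792151040, 68719476736)] :=
  covD_split 1 (by decide +kernel) C1_c0_t70 C1_c0_t97

theorem C1_c0_t68 : CovD 1 gC1 [(108806012928, 5726797824), (4294967296, 4294967296), (1030792151040, 68719476736)] :=
  covD_split 1 (by decide +kernel) C1_c0_t69 C1_c0_t98

theorem C1_c0_t66 : CovD 1 gC1 [(108806012928, 5726797824), (4294967296, 4294967296), (962072674304, 137438953472)] :=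
  covD_split 2 (by decide +kernel) C1_c0_t67 C1_c0_t68

theorem C1_c0_t65 : CovD 1 gC1 [(108806012928, 5726797824), (8589934592, 8589934592), (962072674304, 137438953472)] :=
  covD_split 1 (by decide +kernel) C1_c0_t66 C1_c0_t99

theorem C1_c0_t64 : CovD 1 gC1 [(108806012928, 5726797824), (17179869184, 17179869184), (962072674304, 137438953472)] :=
  covD_split 1 (by decide +kernel) C1_c0_t65 C1_c0_t100

theorem C1_c0_t63 : CovD 1 gC1 [(108806012928, 5726797824), (34359738368, 34359738368), (962072674304, 137438953472)] :=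
  covD_split 1 (by decide +kernel) C1_c0_t64 C1_c0_t101

theorem C1_c0_t62 : CovD 1 gC1 [(108806012928, 5726797824), (68719476736, 68719476736), (962072674304, 137438953472)] :=
  covD_split 1 (by decide +kernel) C1_c0_t63 C1_c0_t102

theorem C1_c0_t61 : CovD 1 gC1 [(108806012928, 5726797824), (137438953472, 137438953472), (962072674304, 137438953472)] :=
  covD_split 1 (by decide +kernel) C1_c0_t62 C1_c0_t103

theorem C1_c0_t15 : CovD 1 gC1 [(103079215104, 11453595648), (137438953472, 137438953472), (962072674304, 137438953472)] :=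
  covD_split 0 (by decide +kernel) C1_c0_t16 C1_c0_t61

theorem C1_c0_t13 : CovD 1 gC1 [(103079215104, 11453595648), (137438953472, 137438953472), (824633720832, 274877906944)] :=
  covD_split 2 (by decide +kernel) C1_c0_t14 C1_c0_t15

theorem C1_c0_t136 : CovD 1 gC1 [(120259608576, 5726797824), (67108864, 67108864), (1099243192320, 268435456)] :=
  covD_split 0 (by decide +kernel) C1_c0_t137 C1_c0_t138

theorem C1_c0_t135 : CovD 1 gC1 [(125986406400, 11453595648), (67108864, 67108864), (1099243192320, 268435456)] :=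
  covD_split 0 (by decide +kernel) C1_c0_t136 C1_c0_t139

theorem C1_c0_t133 : CovD 1 gC1 [(125986406400, 11453595648), (67108864, 67108864), (1098974756864, 536870912)] :=
  covD_split 2 (by decide +kernel) C1_c0_t134 C1_c0_t135

theorem C1_c0_t131 : CovD 1 gC1 [(125986406400, 11453595648), (67108864, 67108864), (1098437885952, 1073741824)] :=
  covD_split 2 (by decide +kernel) C1_c0_t132 C1_c0_t133

theorem C1_c0_t129 : CovD 1 gC1 [(125986406400, 11453595648), (67108864, 67108864), (1097364144128, 2147483648)] :=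
  covD_split 2 (by decide +kernel) C1_c0_t130 C1_c0_t131

theorem C1_c0_t127 : CovD 1 gC1 [(125986406400, 11453595648), (67108864, 67108864), (1095216660480, 4294967296)] :=
  covD_split 2 (by decide +kernel) C1_c0_t128 C1_c0_t129

theorem C1_c0_t125 : CovD 1 gC1 [(125986406400, 11453595648), (67108864, 67108864), (1090921693184, 8589934592)] :=
  covD_split 2 (by decide +kernel) C1_c0_t126 C1_c0_t127

theorem C1_c0_t123 : CovD 1 gC1 [(125986406400, 11453595648), (67108864, 67108864), (1082331758592, 17179869184)] :=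
  covD_split 2 (by decide +kernel) C1_c0_t124 C1_c0_t125

theorem C1_c0_t121 : CovD 1 gC1 [(125986406400, 11453595648), (67108864, 67108864), (1065151889408, 34359738368)] :=
  covD_split 2 (by decide +kernel) C1_c0_t122 C1_c0_t123

theorem C1_c0_t120 : CovD 1 gC1 [(125986406400, 11453595648), (134217728, 134217728), (1065151889408, 34359738368)] :=
  covD_split 1 (by decide +kernel) C1_c0_t121 C1_c0_t140

theorem C1_c0_t119 : CovD 1 gC1 [(125986406400, 11453595648), (268435456, 268435456), (1065151889408, 34359738368)] :=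
  covD_split 1 (by decide +kernel) C1_c0_t120 C1_c0_t141

theorem C1_c0_t118 : CovD 1 gC1 [(125986406400, 11453595648), (536870912, 536870912), (1065151889408, 34359738368)] :=
  covD_split 1 (by decide +kernel) C1_c0_t119 C1_c0_t142

theorem C1_c0_t117 : CovD 1 gC1 [(125986406400, 11453595648), (1073741824, 1073741824), (1065151889408, 34359738368)] :=
  covD_split 1 (by decide +kernel) C1_c0_t118 C1_c0_t143

theorem C1_c0_t115 : CovD 1 gC1 [(125986406400, 11453595648), (1073741824, 1073741824), (1030792151040, 68719476736)] :=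
  covD_split 2 (by decide +kernel) C1_c0_t116 C1_c0_t117

theorem C1_c0_t114 : CovD 1 gC1 [(125986406400, 11453595648), (2147483648, 2147483648), (1030792151040, 68719476736)] :=
  covD_split 1 (by decide +kernel) C1_c0_t115 C1_c0_t144

theorem C1_c0_t112 : CovD 1 gC1 [(125986406400, 11453595648), (2147483648, 2147483648), (962072674304, 137438953472)] :=
  covD_split 2 (by decide +kernel) C1_c0_t113 C1_c0_t114

theorem C1_c0_t110 : CovD 1 gC1 [(125986406400, 11453595648), (2147483648, 2147483648), (824633720832, 274877906944)] :=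
  covD_split 2 (by decide +kernel) C1_c0_t111 C1_c0_t112

theorem C1_c0_t109 : CovD 1 gC1 [(125986406400, 11453595648), (4294967296, 4294967296), (824633720832, 274877906944)] :=
  covD_split 1 (by decide +kernel) C1_c0_t110 C1_c0_t145

theorem C1_c0_t108 : CovD 1 gC1 [(125986406400, 11453595648), (8589934592, 8589934592), (824633720832, 274877906944)] :=
  covD_split 1 (by decide +kernel) C1_c0_t109 C1_c0_t146

theorem C1_c0_t107 : CovD 1 gC1 [(125986406400, 11453595648), (17179869184, 17179869184), (824633720832, 274877906944)] :=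
  covD_split 1 (by decide +kernel) C1_c0_t108 C1_c0_t147

theorem C1_c0_t106 : CovD 1 gC1 [(125986406400, 11453595648), (34359738368, 34359738368), (824633720832, 274877906944)] :=
  covD_split 1 (by decide +kernel) C1_c0_t107 C1_c0_t148

theorem C1_c0_t105 : CovD 1 gC1 [(125986406400, 11453595648), (68719476736, 68719476736), (824633720832, 274877906944)] :=
  covD_split 1 (by decide +kernel) C1_c0_t106 C1_c0_t149

theorem C1_c0_t104 : CovD 1 gC1 [(125986406400, 11453595648), (137438953472, 137438953472), (824633720832, 274877906944)] :=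
  covD_split 1 (by decide +kernel) C1_c0_t105 C1_c0_t150

theorem C1_c0_t12 : CovD 1 gC1 [(114532810752, 22907191296), (137438953472, 137438953472), (824633720832, 274877906944)] :=
  covD_split 0 (by decide +kernel) C1_c0_t13 C1_c0_t104

theorem C1_c0 : CovD 1 gC1 [(114532810752, 22907191296), (137438953472, 137438953472), (549755813888, 549755813888)] :=
  covD_split 2 (by decide +kernel) C1_c0_t1 C1_c0_t12

theorem D1_c0 : CovD 1 gD1 [(114532810752, 22907191296), (137438953472, 137438953472), (863554764800, 863554764800)] :=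
  covD_split 0 (by decide +kernel) D1_c0_t1 D1_c0_t2

theorem E1_c0_t6 : CovD 1 gE1 [(97352417280, 5726797824), (137438953472, 137438953472), (53972172800, 53972172800)] :=
  covD_split 2 (by decide +kernel) E1_c0_t7 E1_c0_t8

theorem E1_c0_t5 : CovD 1 gE1 [(97352417280, 5726797824), (137438953472, 137438953472), (107944345600, 107944345600)] :=
  covD_split 2 (by decide +kernel) E1_c0_t6 E1_c0_t9

theorem E1_c0_t4 : CovD 1 gE1 [(97352417280, 5726797824), (137438953472, 137438953472), (215888691200, 215888691200)] :=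
  covD_split 2 (by decide +kernel) E1_c0_t5 E1_c0_t10

theorem E1_c0_t3 : CovD 1 gE1 [(97352417280, 5726797824), (137438953472, 137438953472), (431777382400, 431777382400)] :=
  covD_split 2 (by decide +kernel) E1_c0_t4 E1_c0_t11

theorem E1_c0_t12 : CovD 1 gE1 [(108806012928, 5726797824), (137438953472, 137438953472), (431777382400, 431777382400)] :=
  covD_split 0 (by decide +kernel) E1_c0_t13 E1_c0_t14

theorem E1_c0_t2 : CovD 1 gE1 [(103079215104, 11453595648), (137438953472, 137438953472), (431777382400, 431777382400)] :=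
  covD_split 0 (by decide +kernel) E1_c0_t3 E1_c0_t12

theorem E1_c0_t16 : CovD 1 gE1 [(120259608576, 5726797824), (137438953472, 137438953472), (431777382400, 431777382400)] :=
  covD_split 0 (by decide +kernel) E1_c0_t17 E1_c0_t18

theorem E1_c0_t15 : CovD 1 gE1 [(125986406400, 11453595648), (137438953472, 137438953472), (431777382400, 431777382400)] :=
  covD_split 0 (by decide +kernel) E1_c0_t16 E1_c0_t19

theorem E1_c0_t1 : CovD 1 gE1 [(114532810752, 22907191296), (137438953472, 137438953472), (431777382400, 431777382400)] :=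
  covD_split 0 (by decide +kernel) E1_c0_t2 E1_c0_t15

theorem E1_c0 : CovD 1 gE1 [(114532810752, 22907191296), (137438953472, 137438953472), (863554764800, 863554764800)] :=
  covD_split 2 (by decide +kernel) E1_c0_t1 E1_c0_t20

end Pool.Agent.helper14.NR.E8a
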