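import Pool.Agent.helper14.NR.E8a.PN2

/-!
Generated: certificates.
-/

namespace Pool.Agent.helper14.NR.E8a

open Pool.Agent.helper31.IA (Z)
open Pool.Agent.helper31.IX (Op XOps runX Cov CovD cov_split covD_split)
open Pool.Agent.helper31.IC (TD)
open Pool.Agent.helper63.RG (reloc)
open Pool.Agent.helper63.NF hiding TD
open Pool.Agent.helper14.CF (xE covD_E)
open Pool.Agent.helper14.NR (share)

mutual
theorem B2_c0_t1 : CovD 1 gB2 [(103079215104, 11453595648), (137438953472, 137438953472), (54975791104, 54975791104)] :=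
  covD_E kB2_eq (.n 0 (.n 2 (.n 2 (.n 2 (.l 1) (.l 1)) (.n 2 (.l 1) (.l 1))) (.n 2 (.n 2 (.l 1) (.l 1)) (.n 0 (.l 1) (.l 1)))) (.n 2 (.n 2 (.n 2 (.l 1) (.l 1)) (.n 2 (.l 1) (.l 1))) (.n 2 (.n 2 (.l 1) (.l 1)) (.n 0 (.l 1) (.l 1)))))
    [(103079215104, 11453595648), (137438953472, 137438953472), (54975791104, 54975791104)] rfl (by decide +kernel)
theorem B2_c0_t2 : CovD 1 gB2 [(125986406400, 11453595648), (137438953472, 137438953472), (54975791104, 54975791104)] :=
  covD_E kB2_eq (.n 2 (.n 2 (.n 2 (.l 1) (.n 0 (.l 1) (.l 1))) (.n 0 (.n 1 (.l 1) (.l 1)) (.n 1 (.l 1) (.l 1)))) (.n 2 (.n 0 (.n 1 (.l 1) (.l 1)) (.n 1 (.l 1) (.l 1))) (.n 2 (.n 0 (.l 1) (.l 1)) (.l 1))))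
    [(125986406400, 11453595648), (137438953472, 137438953472), (54975791104, 54975791104)] rfl (by decide +kernel)
end

mutual
theorem C2_c0_t4 : CovD 1 gC2 [(103079215104, 11453595648), (34359738368, 34359738368), (274877906944, 274877906944)] :=
  covD_E kC2_eq (.n 1 (.n 1 (.n 0 (.n 2 (.n 2 (.l 0) (.l 0)) (.n 2 (.l 0) (.l 0))) (.n 2 (.n 2 (.l 0) (.l 0)) (.n 2 (.l 0) (.l 0)))) (.n 2 (.n 2 (.l 0) (.l 0)) (.n 2 (.l 0) (.l 0)))) (.n 2 (.n 0 (.l 0) (.l 0)) (.n 2 (.l 0) (.l 0))))
    [(103079215104, 11453595648), (34359738368, 34359738368), (274877906944, 274877906944)] rfl (by decide +kernel)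
theorem C2_c0_t5 : CovD 1 gC2 [(103079215104, 11453595648), (103079215104, 34359738368), (274877906944, 274877906944)] :=
  covD_E kC2_eq (.n 0 (.n 2 (.l 0) (.l 0)) (.n 2 (.l 0) (.l 0)))
    [(103079215104, 11453595648), (103079215104, 34359738368), (274877906944, 274877906944)] rfl (by decide +kernel)
end

mutual
theorem C2_c0_t6 : CovD 1 gC2 [(103079215104, 11453595648), (206158430208, 68719476736), (274877906944, 274877906944)] :=
  covD_E kC2_eq (.n 0 (.n 2 (.l 0) (.l 0)) (.n 2 (.l 0) (.l 0)))
    [(103079215104, 11453595648), (206158430208, 68719476736), (274877906944, 274877906944)] rfl (by decide +kernel)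
theorem C2_c0_t9 : CovD 1 gC2 [(125986406400, 11453595648), (34359738368, 34359738368), (274877906944, 274877906944)] :=
  covD_E kC2_eq (.n 1 (.n 1 (.n 0 (.n 2 (.n 2 (.l 0) (.l 0)) (.n 2 (.l 0) (.l 0))) (.n 2 (.n 2 (.l 0) (.l 0)) (.n 2 (.l 0) (.l 0)))) (.n 2 (.n 2 (.l 0) (.l 0)) (.n 2 (.l 0) (.l 0)))) (.n 2 (.n 0 (.l 0) (.l 0)) (.n 2 (.l 0) (.l 0))))
    [(125986406400, 11453595648), (34359738368, 34359738368), (274877906944, 274877906944)] rfl (by decide +kernel)
end

mutual
theorem C2_c0_t10 : CovD 1 gC2 [(125986406400, 11453595648), (103079215104, 34359738368), (274877906944, 274877906944)] :=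
  covD_E kC2_eq (.n 0 (.n 2 (.l 0) (.l 0)) (.n 2 (.l 0) (.l 0)))
    [(125986406400, 11453595648), (103079215104, 34359738368), (274877906944, 274877906944)] rfl (by decide +kernel)
theorem C2_c0_t11 : CovD 1 gC2 [(125986406400, 11453595648), (206158430208, 68719476736), (274877906944, 274877906944)] :=
  covD_E kC2_eq (.n 0 (.n 2 (.l 0) (.l 0)) (.n 2 (.l 0) (.l 0)))
    [(125986406400, 11453595648), (206158430208, 68719476736), (274877906944, 274877906944)] rfl (by decide +kernel)
end

mutual
theorem C2_c0_t15 : CovD 1 gC2 [(97352417280, 5726797824), (137438953472, 137438953472), (687194767360, 137438953472)] :=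
  covD_E kC2_eq (.n 1 (.n 1 (.n 1 (.n 1 (.n 2 (.l 0) (.l 0)) (.n 1 (.l 0) (.l 0))) (.n 1 (.l 0) (.l 0))) (.n 0 (.l 0) (.l 0))) (.l 0))
    [(97352417280, 5726797824), (137438953472, 137438953472), (687194767360, 137438953472)] rfl (by decide +kernel)
theorem C2_c0_t16 : CovD 1 gC2 [(108806012928, 5726797824), (137438953472, 137438953472), (687194767360, 137438953472)] :=
  covD_E kC2_eq (.n 1 (.n 1 (.n 1 (.n 1 (.n 2 (.l 0) (.n 0 (.l 0) (.l 0))) (.n 2 (.l 0) (.l 0))) (.n 1 (.l 0) (.l 0))) (.n 0 (.l 0) (.l 0))) (.l 0))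
    [(108806012928, 5726797824), (137438953472, 137438953472), (687194767360, 137438953472)] rfl (by decide +kernel)
end

mutual
theorem C2_c0_t17 : CovD 1 gC2 [(125986406400, 11453595648), (137438953472, 137438953472), (687194767360, 137438953472)] :=
  covD_E kC2_eq (.n 1 (.n 1 (.n 1 (.n 1 (.n 2 (.n 0 (.l 0) (.l 0)) (.n 1 (.n 0 (.l 0) (.l 0)) (.l 0))) (.n 2 (.l 0) (.n 0 (.l 0) (.l 0)))) (.n 1 (.n 0 (.l 0) (.l 0)) (.l 0))) (.n 1 (.l 0) (.l 0))) (.n 0 (.l 0) (.l 0)))
    [(125986406400, 11453595648), (137438953472, 137438953472), (687194767360, 137438953472)] rfl (by decide +kernel)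
theorem C2_c0_t26 : CovD 1 gC2 [(97352417280, 5726797824), (4294967296, 4294967296), (893353197568, 68719476736)] :=
  covD_E kC2_eq (.l 0)
    [(97352417280, 5726797824), (4294967296, 4294967296), (893353197568, 68719476736)] rfl (by decide +kernel)
end

mutual
theorem C2_c0_t31 : CovD 1 gC2 [(97352417280, 5726797824), (536870912, 536870912), (996432412672, 34359738368)] :=
  covD_E kC2_eq (.l 0)
    [(97352417280, 5726797824), (536870912, 536870912), (996432412672, 34359738368)] rfl (by decide +kernel)
theorem C2_c0_t34 : CovD 1 gC2 [(97352417280, 5726797824), (134217728, 134217728), (1065151889408, 34359738368)] :=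
  covD_E kC2_eq (.n 2 (.l 0) (.n 2 (.l 0) (.n 1 (.n 2 (.l 0) (.n 2 (.l 0) (.n 2 (.l 0) (.n 0 (.n 2 (.l 0) (.n 0 (.n 0 (.l 1) (.l 1)) (.n 0 (.l 1) (.l 1)))) (.n 0 (.n 0 (.l 1) (.l 1)) (.n 0 (.l 1) (.l 1))))))) (.l 0))))
    [(97352417280, 5726797824), (134217728, 134217728), (1065151889408, 34359738368)] rfl (by decide +kernel)
end

mutual
theorem C2_c0_t35 : CovD 1 gC2 [(97352417280, 5726797824), (402653184, 134217728), (1065151889408, 34359738368)] :=
  covD_E kC2_eq (.n 0 (.l 0) (.l 0))
    [(97352417280, 5726797824), (402653184, 134217728), (1065151889408, 34359738368)] rfl (by decide +kernel)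
theorem C2_c0_t36 : CovD 1 gC2 [(97352417280, 5726797824), (805306368, 268435456), (1065151889408, 34359738368)] :=
  covD_E kC2_eq (.l 0)
    [(97352417280, 5726797824), (805306368, 268435456), (1065151889408, 34359738368)] rfl (by decide +kernel)
end

mutual
theorem C2_c0_t37 : CovD 1 gC2 [(97352417280, 5726797824), (1610612736, 536870912), (1030792151040, 68719476736)] :=
  covD_E kC2_eq (.l 0)
    [(97352417280, 5726797824), (1610612736, 536870912), (1030792151040, 68719476736)] rfl (by decide +kernel)
theorem C2_c0_t38 : CovD 1 gC2 [(97352417280, 5726797824), (3221225472, 1073741824), (1030792151040, 68719476736)] :=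
  covD_E kC2_eq (.l 0)
    [(97352417280, 5726797824), (3221225472, 1073741824), (1030792151040, 68719476736)] rfl (by decide +kernel)
end

mutual
theorem C2_c0_t39 : CovD 1 gC2 [(97352417280, 5726797824), (6442450944, 2147483648), (1030792151040, 68719476736)] :=
  covD_E kC2_eq (.l 0)
    [(97352417280, 5726797824), (6442450944, 2147483648), (1030792151040, 68719476736)] rfl (by decide +kernel)
theorem C2_c0_t40 : CovD 1 gC2 [(97352417280, 5726797824), (12884901888, 4294967296), (962072674304, 137438953472)] :=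
  covD_E kC2_eq (.n 0 (.l 0) (.l 0))
    [(97352417280, 5726797824), (12884901888, 4294967296), (962072674304, 137438953472)] rfl (by decide +kernel)
end

mutual
theorem C2_c0_t41 : CovD 1 gC2 [(97352417280, 5726797824), (25769803776, 8589934592), (962072674304, 137438953472)] :=
  covD_E kC2_eq (.n 2 (.l 0) (.n 0 (.l 0) (.l 0)))
    [(97352417280, 5726797824), (25769803776, 8589934592), (962072674304, 137438953472)] rfl (by decide +kernel)
theorem C2_c0_t42 : CovD 1 gC2 [(97352417280, 5726797824), (51539607552, 17179869184), (962072674304, 137438953472)] :=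
  covD_E kC2_eq (.n 1 (.n 0 (.l 0) (.l 0)) (.l 0))
    [(97352417280, 5726797824), (51539607552, 17179869184), (962072674304, 137438953472)] rfl (by decide +kernel)
end

mutual
theorem C2_c0_t43 : CovD 1 gC2 [(97352417280, 5726797824), (103079215104, 34359738368), (962072674304, 137438953472)] :=
  covD_E kC2_eq (.n 1 (.l 0) (.l 0))
    [(97352417280, 5726797824), (103079215104, 34359738368), (962072674304, 137438953472)] rfl (by decide +kernel)
theorem C2_c0_t44 : CovD 1 gC2 [(97352417280, 5726797824), (206158430208, 68719476736), (962072674304, 137438953472)] :=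
  covD_E kC2_eq (.l 0)
    [(97352417280, 5726797824), (206158430208, 68719476736), (962072674304, 137438953472)] rfl (by decide +kernel)
end

mutual
theorem C2_c0_t51 : CovD 1 gC2 [(108806012928, 5726797824), (4294967296, 4294967296), (893353197568, 68719476736)] :=
  covD_E kC2_eq (.l 0)
    [(108806012928, 5726797824), (4294967296, 4294967296), (893353197568, 68719476736)] rfl (by decide +kernel)
theorem C2_c0_t56 : CovD 1 gC2 [(108806012928, 5726797824), (536870912, 536870912), (996432412672, 34359738368)] :=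
  covD_E kC2_eq (.l 0)
    [(108806012928, 5726797824), (536870912, 536870912), (996432412672, 34359738368)] rfl (by decide +kernel)
end

mutual
theorem C2_c0_t57 : CovD 1 gC2 [(108806012928, 5726797824), (536870912, 536870912), (1065151889408, 34359738368)] :=
  covD_E kC2_eq (.n 1 (.n 1 (.n 2 (.l 0) (.n 2 (.l 0) (.n 2 (.l 0) (.n 2 (.l 0) (.n 2 (.l 0) (.n 0 (.n 0 (.n 0 (.l 1) (.l 1)) (.n 0 (.l 1) (.l 1))) (.n 0 (.n 0 (.l 1) (.l 1)) (.n 0 (.l 1) (.l 1))))))))) (.n 0 (.l 0) (.l 0))) (.l 0))
    [(108806012928, 5726797824), (536870912, 536870912), (1065151889408, 34359738368)] rfl (by decide +kernel)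
theorem C2_c0_t58 : CovD 1 gC2 [(108806012928, 5726797824), (1610612736, 536870912), (1030792151040, 68719476736)] :=
  covD_E kC2_eq (.l 0)
    [(108806012928, 5726797824), (1610612736, 536870912), (1030792151040, 68719476736)] rfl (by decide +kernel)
end

mutual
theorem C2_c0_t59 : CovD 1 gC2 [(108806012928, 5726797824), (3221225472, 1073741824), (1030792151040, 68719476736)] :=
  covD_E kC2_eq (.l 0)
    [(108806012928, 5726797824), (3221225472, 1073741824), (1030792151040, 68719476736)] rfl (by decide +kernel)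
theorem C2_c0_t60 : CovD 1 gC2 [(108806012928, 5726797824), (6442450944, 2147483648), (1030792151040, 68719476736)] :=
  covD_E kC2_eq (.l 0)
    [(108806012928, 5726797824), (6442450944, 2147483648), (1030792151040, 68719476736)] rfl (by decide +kernel)
end

mutual
theorem C2_c0_t61 : CovD 1 gC2 [(108806012928, 5726797824), (12884901888, 4294967296), (962072674304, 137438953472)] :=
  covD_E kC2_eq (.n 2 (.l 0) (.l 0))
    [(108806012928, 5726797824), (12884901888, 4294967296), (962072674304, 137438953472)] rfl (by decide +kernel)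
theorem C2_c0_t62 : CovD 1 gC2 [(108806012928, 5726797824), (25769803776, 8589934592), (962072674304, 137438953472)] :=
  covD_E kC2_eq (.n 2 (.l 0) (.n 0 (.l 0) (.l 0)))
    [(108806012928, 5726797824), (25769803776, 8589934592), (962072674304, 137438953472)] rfl (by decide +kernel)
end

mutual
theorem C2_c0_t63 : CovD 1 gC2 [(108806012928, 5726797824), (51539607552, 17179869184), (962072674304, 137438953472)] :=
  covD_E kC2_eq (.n 1 (.n 0 (.l 0) (.l 0)) (.l 0))
    [(108806012928, 5726797824), (51539607552, 17179869184), (962072674304, 137438953472)] rfl (by decide +kernel)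
theorem C2_c0_t64 : CovD 1 gC2 [(108806012928, 5726797824), (103079215104, 34359738368), (962072674304, 137438953472)] :=
  covD_E kC2_eq (.n 1 (.l 0) (.l 0))
    [(108806012928, 5726797824), (103079215104, 34359738368), (962072674304, 137438953472)] rfl (by decide +kernel)
end

mutual
theorem C2_c0_t65 : CovD 1 gC2 [(108806012928, 5726797824), (206158430208, 68719476736), (962072674304, 137438953472)] :=
  covD_E kC2_eq (.l 0)
    [(108806012928, 5726797824), (206158430208, 68719476736), (962072674304, 137438953472)] rfl (by decide +kernel)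
theorem C2_c0_t72 : CovD 1 gC2 [(120259608576, 5726797824), (4294967296, 4294967296), (962072674304, 137438953472)] :=
  covD_E kC2_eq (.n 2 (.l 0) (.n 1 (.n 1 (.n 2 (.l 0) (.n 2 (.l 0) (.n 2 (.l 0) (.n 2 (.l 0) (.n 2 (.l 0) (.n 0 (.n 0 (.n 0 (.l 1) (.l 1)) (.n 0 (.l 1) (.l 1))) (.n 0 (.n 0 (.l 1) (.l 1)) (.n 0 (.l 1) (.l 1))))))))) (.l 0)) (.l 0)))
    [(120259608576, 5726797824), (4294967296, 4294967296), (962072674304, 137438953472)] rfl (by decide +kernel)
end

mutual
theorem C2_c0_t73 : CovD 1 gC2 [(120259608576, 5726797824), (12884901888, 4294967296), (962072674304, 137438953472)] :=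
  covD_E kC2_eq (.n 2 (.l 0) (.l 0))
    [(120259608576, 5726797824), (12884901888, 4294967296), (962072674304, 137438953472)] rfl (by decide +kernel)
theorem C2_c0_t76 : CovD 1 gC2 [(131713204224, 5726797824), (4294967296, 4294967296), (893353197568, 68719476736)] :=
  covD_E kC2_eq (.l 0)
    [(131713204224, 5726797824), (4294967296, 4294967296), (893353197568, 68719476736)] rfl (by decide +kernel)
end

mutual
theorem C2_c0_t77 : CovD 1 gC2 [(131713204224, 5726797824), (4294967296, 4294967296), (1030792151040, 68719476736)] :=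
  covD_E kC2_eq (.n 1 (.n 1 (.n 1 (.n 2 (.l 0) (.n 1 (.n 2 (.l 0) (.n 2 (.l 0) (.n 2 (.l 0) (.n 2 (.l 0) (.n 0 (.n 0 (.n 0 (.l 1) (.l 1)) (.n 0 (.l 1) (.l 1))) (.n 2 (.l 0) (.n 0 (.l 1) (.l 1)))))))) (.l 0))) (.l 0)) (.l 0)) (.l 0))
    [(131713204224, 5726797824), (4294967296, 4294967296), (1030792151040, 68719476736)] rfl (by decide +kernel)
theorem C2_c0_t78 : CovD 1 gC2 [(131713204224, 5726797824), (12884901888, 4294967296), (962072674304, 137438953472)] :=
  covD_E kC2_eq (.n 2 (.l 0) (.l 0))
    [(131713204224, 5726797824), (12884901888, 4294967296), (962072674304, 137438953472)] rfl (by decide +kernel)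
end

mutual
theorem C2_c0_t79 : CovD 1 gC2 [(125986406400, 11453595648), (25769803776, 8589934592), (962072674304, 137438953472)] :=
  covD_E kC2_eq (.n 1 (.n 2 (.l 0) (.n 0 (.l 0) (.l 0))) (.n 2 (.l 0) (.l 0)))
    [(125986406400, 11453595648), (25769803776, 8589934592), (962072674304, 137438953472)] rfl (by decide +kernel)
theorem C2_c0_t80 : CovD 1 gC2 [(125986406400, 11453595648), (51539607552, 17179869184), (962072674304, 137438953472)] :=
  covD_E kC2_eq (.n 1 (.n 2 (.l 0) (.n 0 (.l 0) (.l 0))) (.n 0 (.l 0) (.l 0)))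
    [(125986406400, 11453595648), (51539607552, 17179869184), (962072674304, 137438953472)] rfl (by decide +kernel)
end

mutual
theorem C2_c0_t81 : CovD 1 gC2 [(125986406400, 11453595648), (103079215104, 34359738368), (962072674304, 137438953472)] :=
  covD_E kC2_eq (.n 1 (.n 0 (.l 0) (.l 0)) (.l 0))
    [(125986406400, 11453595648), (103079215104, 34359738368), (962072674304, 137438953472)] rfl (by decide +kernel)
theorem C2_c0_t82 : CovD 1 gC2 [(125986406400, 11453595648), (206158430208, 68719476736), (962072674304, 137438953472)] :=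
  covD_E kC2_eq (.n 1 (.l 0) (.l 0))
    [(125986406400, 11453595648), (206158430208, 68719476736), (962072674304, 137438953472)] rfl (by decide +kernel)
end

mutual
theorem D2_c0_t1 : CovD 1 gD2 [(103079215104, 11453595648), (137438953472, 137438953472), (863554764800, 863554764800)] :=
  covD_E kD2_eq (.n 2 (.n 2 (.n 1 (.l 0) (.l 0)) (.n 2 (.l 0) (.l 0))) (.n 2 (.n 2 (.l 0) (.n 0 (.l 0) (.l 0))) (.n 0 (.n 1 (.l 0) (.l 0)) (.n 1 (.l 0) (.l 0)))))
    [(103079215104, 11453595648), (137438953472, 137438953472), (863554764800, 863554764800)] rfl (by decide +kernel)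
theorem D2_c0_t2 : CovD 1 gD2 [(125986406400, 11453595648), (137438953472, 137438953472), (863554764800, 863554764800)] :=
  covD_E kD2_eq (.n 2 (.n 2 (.n 1 (.l 0) (.l 0)) (.n 2 (.l 0) (.l 0))) (.n 2 (.n 2 (.l 0) (.l 0)) (.n 2 (.l 0) (.l 0))))
    [(125986406400, 11453595648), (137438953472, 137438953472), (863554764800, 863554764800)] rfl (by decide +kernel)
end

mutual
theorem E2_c0_t4 : CovD 1 gE2 [(97352417280, 5726797824), (68719476736, 68719476736), (431777382400, 431777382400)] :=
  covD_E kE2_eq (.n 0 (.n 0 (.n 2 (.l 1) (.n 2 (.n 2 (.n 1 (.l 1) (.l 1)) (.l 0)) (.l 0))) (.n 2 (.l 1) (.n 2 (.n 2 (.l 1) (.l 0)) (.l 0)))) (.n 2 (.l 1) (.n 2 (.n 2 (.n 0 (.l 1) (.l 1)) (.l 0)) (.l 0))))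
    [(97352417280, 5726797824), (68719476736, 68719476736), (431777382400, 431777382400)] rfl (by decide +kernel)
theorem E2_c0_t5 : CovD 1 gE2 [(108806012928, 5726797824), (68719476736, 68719476736), (431777382400, 431777382400)] :=
  covD_E kE2_eq (.n 2 (.l 1) (.n 2 (.n 2 (.n 0 (.l 1) (.l 1)) (.l 0)) (.l 0)))
    [(108806012928, 5726797824), (68719476736, 68719476736), (431777382400, 431777382400)] rfl (by decide +kernel)
end

mutual
theorem E2_c0_t6 : CovD 1 gE2 [(125986406400, 11453595648), (68719476736, 68719476736), (431777382400, 431777382400)] :=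
  covD_E kE2_eq (.n 2 (.l 1) (.n 2 (.n 0 (.n 0 (.l 1) (.l 1)) (.l 1)) (.l 0)))
    [(125986406400, 11453595648), (68719476736, 68719476736), (431777382400, 431777382400)] rfl (by decide +kernel)
theorem E2_c0_t9 : CovD 1 gE2 [(97352417280, 5726797824), (206158430208, 68719476736), (431777382400, 431777382400)] :=
  covD_E kE2_eq (.n 0 (.n 2 (.l 1) (.n 0 (.n 2 (.n 2 (.n 0 (.l 1) (.l 1)) (.l 0)) (.l 0)) (.n 2 (.n 2 (.l 1) (.l 0)) (.l 0)))) (.n 2 (.l 1) (.n 2 (.n 2 (.l 1) (.l 0)) (.l 0))))
    [(97352417280, 5726797824), (206158430208, 68719476736), (431777382400, 431777382400)] rfl (by decide +kernel)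
end

mutual
theorem E2_c0_t10 : CovD 1 gE2 [(108806012928, 5726797824), (206158430208, 68719476736), (431777382400, 431777382400)] :=
  covD_E kE2_eq (.n 2 (.l 1) (.n 2 (.n 2 (.n 0 (.l 1) (.l 1)) (.l 0)) (.l 0)))
    [(108806012928, 5726797824), (206158430208, 68719476736), (431777382400, 431777382400)] rfl (by decide +kernel)
theorem E2_c0_t11 : CovD 1 gE2 [(125986406400, 11453595648), (206158430208, 68719476736), (431777382400, 431777382400)] :=
  covD_E kE2_eq (.n 2 (.l 1) (.n 2 (.n 2 (.l 1) (.l 0)) (.n 0 (.l 0) (.l 0))))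
    [(125986406400, 11453595648), (206158430208, 68719476736), (431777382400, 431777382400)] rfl (by decide +kernel)
end

theorem E2_c0_t12 : CovD 1 gE2 [(114532810752, 22907191296), (137438953472, 137438953472), (1295332147200, 431777382400)] :=
  covD_E kE2_eq (.n 0 (.n 0 (.n 2 (.n 2 (.l 0) (.l 0)) (.n 2 (.l 0) (.l 0))) (.n 2 (.n 2 (.l 0) (.l 0)) (.n 2 (.l 0) (.l 0)))) (.n 1 (.n 2 (.n 2 (.l 0) (.l 0)) (.n 0 (.l 0) (.l 0))) (.n 2 (.n 2 (.l 0) (.l 0)) (.n 2 (.l 0) (.l 0)))))
    [(114532810752, 22907191296), (137438953472, 137438953472), (1295332147200, 431777382400)] rfl (by decide +kernel)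

theorem B2_c0 : CovD 1 gB2 [(114532810752, 22907191296), (137438953472, 137438953472), (54975791104, 54975791104)] :=
  covD_split 0 (by decide +kernel) B2_c0_t1 B2_c0_t2

theorem C2_c0_t3 : CovD 1 gC2 [(103079215104, 11453595648), (68719476736, 68719476736), (274877906944, 274877906944)] :=
  covD_split 1 (by decide +kernel) C2_c0_t4 C2_c0_t5

theorem C2_c0_t2 : CovD 1 gC2 [(103079215104, 11453595648), (137438953472, 137438953472), (274877906944, 274877906944)] :=
  covD_split 1 (by decide +kernel) C2_c0_t3 C2_c0_t6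

theorem C2_c0_t8 : CovD 1 gC2 [(125986406400, 11453595648), (68719476736, 68719476736), (274877906944, 274877906944)] :=
  covD_split 1 (by decide +kernel) C2_c0_t9 C2_c0_t10

theorem C2_c0_t7 : CovD 1 gC2 [(125986406400, 11453595648), (137438953472, 137438953472), (274877906944, 274877906944)] :=
  covD_split 1 (by decide +kernel) C2_c0_t8 C2_c0_t11

theorem C2_c0_t1 : CovD 1 gC2 [(114532810752, 22907191296), (137438953472, 137438953472), (274877906944, 274877906944)] :=
  covD_split 0 (by decide +kernel) C2_c0_t2 C2_c0_t7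

theorem C2_c0_t14 : CovD 1 gC2 [(103079215104, 11453595648), (137438953472, 137438953472), (687194767360, 137438953472)] :=
  covD_split 0 (by decide +kernel) C2_c0_t15 C2_c0_t16

theorem C2_c0_t13 : CovD 1 gC2 [(114532810752, 22907191296), (137438953472, 137438953472), (687194767360, 137438953472)] :=
  covD_split 0 (by decide +kernel) C2_c0_t14 C2_c0_t17

theorem C2_c0_t33 : CovD 1 gC2 [(97352417280, 5726797824), (268435456, 268435456), (1065151889408, 34359738368)] :=
  covD_split 1 (by decide +kernel) C2_c0_t34 C2_c0_t35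

theorem C2_c0_t32 : CovD 1 gC2 [(97352417280, 5726797824), (536870912, 536870912), (1065151889408, 34359738368)] :=
  covD_split 1 (by decide +kernel) C2_c0_t33 C2_c0_t36

theorem C2_c0_t30 : CovD 1 gC2 [(97352417280, 5726797824), (536870912, 536870912), (1030792151040, 68719476736)] :=
  covD_split 2 (by decide +kernel) C2_c0_t31 C2_c0_t32

theorem C2_c0_t29 : CovD 1 gC2 [(97352417280, 5726797824), (1073741824, 1073741824), (1030792151040, 68719476736)] :=
  covD_split 1 (by decide +kernel) C2_c0_t30 C2_c0_t37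

theorem C2_c0_t28 : CovD 1 gC2 [(97352417280, 5726797824), (2147483648, 2147483648), (1030792151040, 68719476736)] :=
  covD_split 1 (by decide +kernel) C2_c0_t29 C2_c0_t38

theorem C2_c0_t27 : CovD 1 gC2 [(97352417280, 5726797824), (4294967296, 4294967296), (1030792151040, 68719476736)] :=
  covD_split 1 (by decide +kernel) C2_c0_t28 C2_c0_t39

theorem C2_c0_t25 : CovD 1 gC2 [(97352417280, 5726797824), (4294967296, 4294967296), (962072674304, 137438953472)] :=
  covD_split 2 (by decide +kernel) C2_c0_t26 C2_c0_t27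

theorem C2_c0_t24 : CovD 1 gC2 [(97352417280, 5726797824), (8589934592, 8589934592), (962072674304, 137438953472)] :=
  covD_split 1 (by decide +kernel) C2_c0_t25 C2_c0_t40

theorem C2_c0_t23 : CovD 1 gC2 [(97352417280, 5726797824), (17179869184, 17179869184), (962072674304, 137438953472)] :=
  covD_split 1 (by decide +kernel) C2_c0_t24 C2_c0_t41

theorem C2_c0_t22 : CovD 1 gC2 [(97352417280, 5726797824), (34359738368, 34359738368), (962072674304, 137438953472)] :=
  covD_split 1 (by decide +kernel) C2_c0_t23 C2_c0_t42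

theorem C2_c0_t21 : CovD 1 gC2 [(97352417280, 5726797824), (68719476736, 68719476736), (962072674304, 137438953472)] :=
  covD_split 1 (by decide +kernel) C2_c0_t22 C2_c0_t43

theorem C2_c0_t20 : CovD 1 gC2 [(97352417280, 5726797824), (137438953472, 137438953472), (962072674304, 137438953472)] :=
  covD_split 1 (by decide +kernel) C2_c0_t21 C2_c0_t44

theorem C2_c0_t55 : CovD 1 gC2 [(108806012928, 5726797824), (536870912, 536870912), (1030792151040, 68719476736)] :=
  covD_split 2 (by decide +kernel) C2_c0_t56 C2_c0_t57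

theorem C2_c0_t54 : CovD 1 gC2 [(108806012928, 5726797824), (1073741824, 1073741824), (1030792151040, 68719476736)] :=
  covD_split 1 (by decide +kernel) C2_c0_t55 C2_c0_t58

theorem C2_c0_t53 : CovD 1 gC2 [(108806012928, 5726797824), (2147483648, 2147483648), (1030792151040, 68719476736)] :=
  covD_split 1 (by decide +kernel) C2_c0_t54 C2_c0_t59

theorem C2_c0_t52 : CovD 1 gC2 [(108806012928, 5726797824), (4294967296, 4294967296), (1030792151040, 68719476736)] :=
  covD_split 1 (by decide +kernel) C2_c0_t53 C2_c0_t60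

theorem C2_c0_t50 : CovD 1 gC2 [(108806012928, 5726797824), (4294967296, 4294967296), (962072674304, 137438953472)] :=
  covD_split 2 (by decide +kernel) C2_c0_t51 C2_c0_t52

theorem C2_c0_t49 : CovD 1 gC2 [(108806012928, 5726797824), (8589934592, 8589934592), (962072674304, 137438953472)] :=
  covD_split 1 (by decide +kernel) C2_c0_t50 C2_c0_t61

theorem C2_c0_t48 : CovD 1 gC2 [(108806012928, 5726797824), (17179869184, 17179869184), (962072674304, 137438953472)] :=
  covD_split 1 (by decide +kernel) C2_c0_t49 C2_c0_t62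

theorem C2_c0_t47 : CovD 1 gC2 [(108806012928, 5726797824), (34359738368, 34359738368), (962072674304, 137438953472)] :=
  covD_split 1 (by decide +kernel) C2_c0_t48 C2_c0_t63

theorem C2_c0_t46 : CovD 1 gC2 [(108806012928, 5726797824), (68719476736, 68719476736), (962072674304, 137438953472)] :=
  covD_split 1 (by decide +kernel) C2_c0_t47 C2_c0_t64

theorem C2_c0_t45 : CovD 1 gC2 [(108806012928, 5726797824), (137438953472, 137438953472), (962072674304, 137438953472)] :=
  covD_split 1 (by decide +kernel) C2_c0_t46 C2_c0_t65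

theorem C2_c0_t19 : CovD 1 gC2 [(103079215104, 11453595648), (137438953472, 137438953472), (962072674304, 137438953472)] :=
  covD_split 0 (by decide +kernel) C2_c0_t20 C2_c0_t45

theorem C2_c0_t71 : CovD 1 gC2 [(120259608576, 5726797824), (8589934592, 8589934592), (962072674304, 137438953472)] :=
  covD_split 1 (by decide +kernel) C2_c0_t72 C2_c0_t73

theorem C2_c0_t75 : CovD 1 gC2 [(131713204224, 5726797824), (4294967296, 4294967296), (962072674304, 137438953472)] :=
  covD_split 2 (by decide +kernel) C2_c0_t76 C2_c0_t77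

theorem C2_c0_t74 : CovD 1 gC2 [(131713204224, 5726797824), (8589934592, 8589934592), (962072674304, 137438953472)] :=
  covD_split 1 (by decide +kernel) C2_c0_t75 C2_c0_t78

theorem C2_c0_t70 : CovD 1 gC2 [(125986406400, 11453595648), (8589934592, 8589934592), (962072674304, 137438953472)] :=
  covD_split 0 (by decide +kernel) C2_c0_t71 C2_c0_t74

theorem C2_c0_t69 : CovD 1 gC2 [(125986406400, 11453595648), (17179869184, 17179869184), (962072674304, 137438953472)] :=
  covD_split 1 (by decide +kernel) C2_c0_t70 C2_c0_t79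

theorem C2_c0_t68 : CovD 1 gC2 [(125986406400, 11453595648), (34359738368, 34359738368), (962072674304, 137438953472)] :=
  covD_split 1 (by decide +kernel) C2_c0_t69 C2_c0_t80

theorem C2_c0_t67 : CovD 1 gC2 [(125986406400, 11453595648), (68719476736, 68719476736), (962072674304, 137438953472)] :=
  covD_split 1 (by decide +kernel) C2_c0_t68 C2_c0_t81

theorem C2_c0_t66 : CovD 1 gC2 [(125986406400, 11453595648), (137438953472, 137438953472), (962072674304, 137438953472)] :=
  covD_split 1 (by decide +kernel) C2_c0_t67 C2_c0_t82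

theorem C2_c0_t18 : CovD 1 gC2 [(114532810752, 22907191296), (137438953472, 137438953472), (962072674304, 137438953472)] :=
  covD_split 0 (by decide +kernel) C2_c0_t19 C2_c0_t66

theorem C2_c0_t12 : CovD 1 gC2 [(114532810752, 22907191296), (137438953472, 137438953472), (824633720832, 274877906944)] :=
  covD_split 2 (by decide +kernel) C2_c0_t13 C2_c0_t18

theorem C2_c0 : CovD 1 gC2 [(114532810752, 22907191296), (137438953472, 137438953472), (549755813888, 549755813888)] :=
  covD_split 2 (by decide +kernel) C2_c0_t1 C2_c0_t12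

theorem D2_c0 : CovD 1 gD2 [(114532810752, 22907191296), (137438953472, 137438953472), (863554764800, 863554764800)] :=
  covD_split 0 (by decide +kernel) D2_c0_t1 D2_c0_t2

theorem E2_c0_t3 : CovD 1 gE2 [(103079215104, 11453595648), (68719476736, 68719476736), (431777382400, 431777382400)] :=
  covD_split 0 (by decide +kernel) E2_c0_t4 E2_c0_t5

theorem E2_c0_t2 : CovD 1 gE2 [(114532810752, 22907191296), (68719476736, 68719476736), (431777382400, 431777382400)] :=
  covD_split 0 (by decide +kernel) E2_c0_t3 E2_c0_t6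

theorem E2_c0_t8 : CovD 1 gE2 [(103079215104, 11453595648), (206158430208, 68719476736), (431777382400, 431777382400)] :=
  covD_split 0 (by decide +kernel) E2_c0_t9 E2_c0_t10

theorem E2_c0_t7 : CovD 1 gE2 [(114532810752, 22907191296), (206158430208, 68719476736), (431777382400, 431777382400)] :=
  covD_split 0 (by decide +kernel) E2_c0_t8 E2_c0_t11

theorem E2_c0_t1 : CovD 1 gE2 [(114532810752, 22907191296), (137438953472, 137438953472), (431777382400, 431777382400)] :=
  covD_split 1 (by decide +kernel) E2_c0_t2 E2_c0_t7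

theorem E2_c0 : CovD 1 gE2 [(114532810752, 22907191296), (137438953472, 137438953472), (863554764800, 863554764800)] :=
  covD_split 2 (by decide +kernel) E2_c0_t1 E2_c0_t12

end Pool.Agent.helper14.NR.E8a
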