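import Pool.Agent.helper14.NR.E8a.PN3

/-!
Generated: certificates.
-/

namespace Pool.Agent.helper14.NR.E8a

open Pool.Agent.helper31.IA (Z)
open Pool.Agent.helper31.IX (Op XOps runX Cov CovD cov_split covD_split)
open Pool.Agent.helper31.IC (TD)
open Pool.Agent.helper63.RG (reloc)
open Pool.Agent.helper63.NF hiding TD
open Pool.Agent.helper14.CF (xE covD_E)
open Pool.Agent.helper14.NR (share)

mutual
theorem A3_c0_t11 : CovD 1 gA3 [(103079215104, 11453595648), (17179869184, 17179869184), (42949672960, 42949672960)] :=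
  covD_E kA3_eq (.l 2)
    [(103079215104, 11453595648), (17179869184, 17179869184), (42949672960, 42949672960)] rfl (by decide +kernel)
theorem A3_c0_t13 : CovD 1 gA3 [(103079215104, 11453595648), (17179869184, 17179869184), (107374182400, 21474836480)] :=
  covD_E kA3_eq (.l 2)
    [(103079215104, 11453595648), (17179869184, 17179869184), (107374182400, 21474836480)] rfl (by decide +kernel)
end

mutual
theorem A3_c0_t14 : CovD 1 gA3 [(103079215104, 11453595648), (17179869184, 17179869184), (150323855360, 21474836480)] :=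
  covD_E kA3_eq (.n 0 (.n 1 (.n 0 (.n 1 (.l 0) (.l 0)) (.n 1 (.l 0) (.l 0))) (.n 1 (.n 2 (.l 0) (.l 0)) (.n 0 (.l 0) (.l 0)))) (.n 1 (.n 1 (.n 1 (.l 0) (.l 0)) (.n 1 (.l 0) (.l 0))) (.n 1 (.n 2 (.l 0) (.l 0)) (.n 2 (.l 0) (.l 0)))))
    [(103079215104, 11453595648), (17179869184, 17179869184), (150323855360, 21474836480)] rfl (by decide +kernel)
theorem A3_c0_t16 : CovD 1 gA3 [(97352417280, 5726797824), (17179869184, 17179869184), (257698037760, 85899345920)] :=
  covD_E kA3_eq (.n 1 (.n 2 (.n 1 (.n 2 (.l 0) (.l 0)) (.n 2 (.l 0) (.l 0))) (.n 2 (.l 0) (.l 0))) (.n 2 (.n 2 (.n 1 (.l 0) (.l 0)) (.l 0)) (.n 2 (.l 0) (.l 0))))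
    [(97352417280, 5726797824), (17179869184, 17179869184), (257698037760, 85899345920)] rfl (by decide +kernel)
end

mutual
theorem A3_c0_t17 : CovD 1 gA3 [(108806012928, 5726797824), (17179869184, 17179869184), (257698037760, 85899345920)] :=
  covD_E kA3_eq (.n 1 (.n 2 (.n 1 (.n 2 (.l 0) (.l 0)) (.n 2 (.l 0) (.l 0))) (.n 2 (.l 0) (.l 0))) (.n 2 (.n 2 (.n 1 (.l 0) (.l 0)) (.l 0)) (.n 2 (.l 0) (.l 0))))
    [(108806012928, 5726797824), (17179869184, 17179869184), (257698037760, 85899345920)] rfl (by decide +kernel)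
theorem A3_c0_t18 : CovD 1 gA3 [(103079215104, 11453595648), (17179869184, 17179869184), (515396075520, 171798691840)] :=
  covD_E kA3_eq (.n 0 (.n 2 (.n 1 (.n 2 (.l 0) (.l 0)) (.n 2 (.n 0 (.l 0) (.l 0)) (.l 0))) (.n 2 (.l 0) (.l 0))) (.n 2 (.n 2 (.n 2 (.n 0 (.l 0) (.l 0)) (.l 0)) (.n 0 (.l 0) (.l 0))) (.n 2 (.l 0) (.l 0))))
    [(103079215104, 11453595648), (17179869184, 17179869184), (515396075520, 171798691840)] rfl (by decide +kernel)
end

mutual
theorem A3_c0_t21 : CovD 1 gA3 [(103079215104, 11453595648), (51539607552, 17179869184), (85899345920, 85899345920)] :=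
  covD_E kA3_eq (.n 2 (.l 2) (.n 2 (.l 2) (.n 0 (.n 1 (.n 2 (.l 0) (.l 0)) (.l 0)) (.n 1 (.n 2 (.l 0) (.l 0)) (.l 0)))))
    [(103079215104, 11453595648), (51539607552, 17179869184), (85899345920, 85899345920)] rfl (by decide +kernel)
theorem A3_c0_t22 : CovD 1 gA3 [(103079215104, 11453595648), (51539607552, 17179869184), (257698037760, 85899345920)] :=
  covD_E kA3_eq (.n 0 (.n 2 (.n 1 (.n 2 (.n 0 (.l 0) (.l 0)) (.l 0)) (.n 2 (.l 0) (.l 0))) (.n 2 (.n 0 (.l 0) (.l 0)) (.l 0))) (.n 2 (.n 1 (.n 2 (.n 1 (.l 0) (.l 0)) (.l 0)) (.n 2 (.l 0) (.l 0))) (.n 2 (.n 1 (.l 0) (.l 0)) (.l 0))))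
    [(103079215104, 11453595648), (51539607552, 17179869184), (257698037760, 85899345920)] rfl (by decide +kernel)
end

mutual
theorem A3_c0_t23 : CovD 1 gA3 [(103079215104, 11453595648), (51539607552, 17179869184), (515396075520, 171798691840)] :=
  covD_E kA3_eq (.n 0 (.n 2 (.n 2 (.n 2 (.l 0) (.l 0)) (.n 0 (.l 0) (.l 0))) (.n 2 (.l 0) (.l 0))) (.n 2 (.n 2 (.n 2 (.l 0) (.l 0)) (.n 0 (.l 0) (.l 0))) (.n 2 (.l 0) (.l 0))))
    [(103079215104, 11453595648), (51539607552, 17179869184), (515396075520, 171798691840)] rfl (by decide +kernel)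
theorem A3_c0_t24 : CovD 1 gA3 [(103079215104, 11453595648), (34359738368, 34359738368), (1030792151040, 343597383680)] :=
  covD_E kA3_eq (.n 0 (.n 2 (.n 2 (.n 2 (.l 0) (.l 0)) (.l 0)) (.n 2 (.l 0) (.l 0))) (.n 2 (.n 2 (.n 2 (.n 0 (.l 0) (.l 0)) (.l 0)) (.n 0 (.l 0) (.l 0))) (.n 2 (.l 0) (.l 0))))
    [(103079215104, 11453595648), (34359738368, 34359738368), (1030792151040, 343597383680)] rfl (by decide +kernel)
end

mutual
theorem A3_c0_t28 : CovD 1 gA3 [(97352417280, 5726797824), (103079215104, 34359738368), (171798691840, 171798691840)] :=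
  covD_E kA3_eq (.n 2 (.n 2 (.l 2) (.n 2 (.l 2) (.n 1 (.l 0) (.l 0)))) (.n 1 (.n 2 (.n 2 (.l 0) (.l 0)) (.n 2 (.l 0) (.l 0))) (.n 0 (.n 2 (.l 0) (.l 0)) (.n 2 (.l 0) (.l 0)))))
    [(97352417280, 5726797824), (103079215104, 34359738368), (171798691840, 171798691840)] rfl (by decide +kernel)
theorem A3_c0_t29 : CovD 1 gA3 [(97352417280, 5726797824), (103079215104, 34359738368), (515396075520, 171798691840)] :=
  covD_E kA3_eq (.n 1 (.n 2 (.n 2 (.n 0 (.l 0) (.l 0)) (.l 0)) (.n 2 (.l 0) (.l 0))) (.n 2 (.n 2 (.l 0) (.l 0)) (.n 2 (.l 0) (.l 0))))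
    [(97352417280, 5726797824), (103079215104, 34359738368), (515396075520, 171798691840)] rfl (by decide +kernel)
end

mutual
theorem A3_c0_t30 : CovD 1 gA3 [(97352417280, 5726797824), (103079215104, 34359738368), (1030792151040, 343597383680)] :=
  covD_E kA3_eq (.n 2 (.n 2 (.n 2 (.n 0 (.l 0) (.l 0)) (.l 0)) (.n 0 (.l 0) (.l 0))) (.n 2 (.l 0) (.l 0)))
    [(97352417280, 5726797824), (103079215104, 34359738368), (1030792151040, 343597383680)] rfl (by decide +kernel)
theorem A3_c0_t33 : CovD 1 gA3 [(108806012928, 5726797824), (103079215104, 34359738368), (171798691840, 171798691840)] :=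
  covD_E kA3_eq (.n 2 (.n 2 (.l 2) (.n 2 (.l 2) (.n 1 (.l 0) (.l 0)))) (.n 1 (.n 2 (.n 2 (.l 0) (.n 0 (.l 0) (.l 0))) (.n 2 (.l 0) (.l 0))) (.n 0 (.n 2 (.l 0) (.l 0)) (.n 2 (.l 0) (.l 0)))))
    [(108806012928, 5726797824), (103079215104, 34359738368), (171798691840, 171798691840)] rfl (by decide +kernel)
end

mutual
theorem A3_c0_t34 : CovD 1 gA3 [(108806012928, 5726797824), (103079215104, 34359738368), (515396075520, 171798691840)] :=
  covD_E kA3_eq (.n 1 (.n 2 (.n 0 (.n 2 (.l 0) (.l 0)) (.n 2 (.l 0) (.l 0))) (.n 2 (.l 0) (.l 0))) (.n 2 (.n 2 (.l 0) (.l 0)) (.n 2 (.l 0) (.l 0))))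
    [(108806012928, 5726797824), (103079215104, 34359738368), (515396075520, 171798691840)] rfl (by decide +kernel)
theorem A3_c0_t35 : CovD 1 gA3 [(108806012928, 5726797824), (103079215104, 34359738368), (1030792151040, 343597383680)] :=
  covD_E kA3_eq (.n 2 (.n 2 (.n 2 (.n 0 (.l 0) (.l 0)) (.l 0)) (.n 0 (.l 0) (.l 0))) (.n 2 (.l 0) (.l 0)))
    [(108806012928, 5726797824), (103079215104, 34359738368), (1030792151040, 343597383680)] rfl (by decide +kernel)
end

mutual
theorem A3_c0_t36 : CovD 1 gA3 [(103079215104, 11453595648), (68719476736, 68719476736), (2061584302080, 687194767360)] :=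
  covD_E kA3_eq (.n 0 (.n 2 (.n 2 (.n 2 (.n 0 (.l 0) (.l 0)) (.l 0)) (.n 0 (.l 0) (.l 0))) (.n 2 (.n 0 (.l 0) (.l 0)) (.l 0))) (.n 2 (.n 2 (.n 2 (.l 0) (.l 0)) (.n 0 (.l 0) (.l 0))) (.n 2 (.l 0) (.l 0))))
    [(103079215104, 11453595648), (68719476736, 68719476736), (2061584302080, 687194767360)] rfl (by decide +kernel)
theorem A3_c0_t41 : CovD 1 gA3 [(97352417280, 5726797824), (206158430208, 68719476736), (171798691840, 171798691840)] :=
  covD_E kA3_eq (.n 2 (.n 2 (.l 2) (.n 0 (.n 1 (.l 0) (.l 0)) (.n 1 (.l 0) (.l 0)))) (.n 1 (.n 0 (.n 2 (.l 0) (.l 0)) (.n 2 (.l 0) (.l 0))) (.n 2 (.l 0) (.l 0))))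
    [(97352417280, 5726797824), (206158430208, 68719476736), (171798691840, 171798691840)] rfl (by decide +kernel)
end

mutual
theorem A3_c0_t42 : CovD 1 gA3 [(97352417280, 5726797824), (206158430208, 68719476736), (515396075520, 171798691840)] :=
  covD_E kA3_eq (.n 1 (.n 2 (.n 0 (.n 2 (.l 0) (.l 0)) (.n 2 (.l 0) (.l 0))) (.n 2 (.l 0) (.l 0))) (.n 2 (.n 2 (.l 0) (.l 0)) (.n 2 (.l 0) (.l 0))))
    [(97352417280, 5726797824), (206158430208, 68719476736), (515396075520, 171798691840)] rfl (by decide +kernel)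
theorem A3_c0_t43 : CovD 1 gA3 [(97352417280, 5726797824), (206158430208, 68719476736), (1030792151040, 343597383680)] :=
  covD_E kA3_eq (.n 1 (.n 2 (.n 2 (.n 2 (.l 0) (.l 0)) (.n 0 (.l 0) (.l 0))) (.n 2 (.l 0) (.l 0))) (.n 2 (.n 2 (.n 0 (.l 0) (.l 0)) (.l 0)) (.n 2 (.l 0) (.l 0))))
    [(97352417280, 5726797824), (206158430208, 68719476736), (1030792151040, 343597383680)] rfl (by decide +kernel)
end

mutual
theorem A3_c0_t44 : CovD 1 gA3 [(97352417280, 5726797824), (206158430208, 68719476736), (2061584302080, 687194767360)] :=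
  covD_E kA3_eq (.n 2 (.n 2 (.n 2 (.l 0) (.l 0)) (.n 0 (.l 0) (.l 0))) (.n 2 (.l 0) (.l 0)))
    [(97352417280, 5726797824), (206158430208, 68719476736), (2061584302080, 687194767360)] rfl (by decide +kernel)
theorem A3_c0_t48 : CovD 1 gA3 [(108806012928, 5726797824), (206158430208, 68719476736), (171798691840, 171798691840)] :=
  covD_E kA3_eq (.n 2 (.n 2 (.l 2) (.n 1 (.n 0 (.l 0) (.l 0)) (.l 0))) (.n 1 (.n 0 (.n 2 (.l 0) (.l 0)) (.n 2 (.l 0) (.l 0))) (.n 2 (.l 0) (.l 0))))
    [(108806012928, 5726797824), (206158430208, 68719476736), (171798691840, 171798691840)] rfl (by decide +kernel)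
end

mutual
theorem A3_c0_t49 : CovD 1 gA3 [(108806012928, 5726797824), (206158430208, 68719476736), (515396075520, 171798691840)] :=
  covD_E kA3_eq (.n 1 (.n 2 (.n 0 (.n 2 (.l 0) (.l 0)) (.n 2 (.l 0) (.l 0))) (.n 2 (.l 0) (.l 0))) (.n 2 (.n 2 (.l 0) (.l 0)) (.n 2 (.l 0) (.l 0))))
    [(108806012928, 5726797824), (206158430208, 68719476736), (515396075520, 171798691840)] rfl (by decide +kernel)
theorem A3_c0_t50 : CovD 1 gA3 [(108806012928, 5726797824), (206158430208, 68719476736), (1030792151040, 343597383680)] :=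
  covD_E kA3_eq (.n 1 (.n 2 (.n 2 (.n 2 (.l 0) (.l 0)) (.n 0 (.l 0) (.l 0))) (.n 2 (.l 0) (.l 0))) (.n 2 (.n 2 (.l 0) (.l 0)) (.n 2 (.l 0) (.l 0))))
    [(108806012928, 5726797824), (206158430208, 68719476736), (1030792151040, 343597383680)] rfl (by decide +kernel)
end

mutual
theorem A3_c0_t51 : CovD 1 gA3 [(108806012928, 5726797824), (206158430208, 68719476736), (2061584302080, 687194767360)] :=
  covD_E kA3_eq (.n 2 (.n 2 (.n 2 (.l 0) (.l 0)) (.n 0 (.l 0) (.l 0))) (.n 2 (.l 0) (.l 0)))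
    [(108806012928, 5726797824), (206158430208, 68719476736), (2061584302080, 687194767360)] rfl (by decide +kernel)
theorem A3_c0_t57 : CovD 1 gA3 [(125986406400, 11453595648), (137438953472, 137438953472), (42949672960, 42949672960)] :=
  covD_E kA3_eq (.l 2)
    [(125986406400, 11453595648), (137438953472, 137438953472), (42949672960, 42949672960)] rfl (by decide +kernel)
end

mutual
theorem A3_c0_t61 : CovD 1 gA3 [(125986406400, 11453595648), (34359738368, 34359738368), (107374182400, 21474836480)] :=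
  covD_E kA3_eq (.l 2)
    [(125986406400, 11453595648), (34359738368, 34359738368), (107374182400, 21474836480)] rfl (by decide +kernel)
theorem A3_c0_t63 : CovD 1 gA3 [(125986406400, 11453595648), (34359738368, 34359738368), (139586437120, 10737418240)] :=
  covD_E kA3_eq (.n 1 (.n 0 (.n 1 (.n 1 (.l 0) (.l 0)) (.n 1 (.l 0) (.l 0))) (.n 1 (.n 1 (.l 0) (.l 0)) (.n 1 (.l 0) (.l 0)))) (.n 1 (.n 0 (.l 0) (.n 0 (.l 0) (.l 0))) (.l 0)))
    [(125986406400, 11453595648), (34359738368, 34359738368), (139586437120, 10737418240)] rfl (by decide +kernel)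
end

mutual
theorem A3_c0_t64 : CovD 1 gA3 [(125986406400, 11453595648), (34359738368, 34359738368), (161061273600, 10737418240)] :=
  covD_E kA3_eq (.n 1 (.n 0 (.n 1 (.n 1 (.l 0) (.l 0)) (.n 1 (.l 0) (.l 0))) (.n 1 (.n 1 (.l 0) (.l 0)) (.n 1 (.l 0) (.l 0)))) (.n 1 (.n 0 (.l 0) (.l 0)) (.l 0)))
    [(125986406400, 11453595648), (34359738368, 34359738368), (161061273600, 10737418240)] rfl (by decide +kernel)
theorem A3_c0_t65 : CovD 1 gA3 [(125986406400, 11453595648), (103079215104, 34359738368), (128849018880, 42949672960)] :=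
  covD_E kA3_eq (.n 2 (.l 2) (.n 1 (.n 0 (.l 0) (.l 0)) (.l 0)))
    [(125986406400, 11453595648), (103079215104, 34359738368), (128849018880, 42949672960)] rfl (by decide +kernel)
end

mutual
theorem A3_c0_t66 : CovD 1 gA3 [(125986406400, 11453595648), (206158430208, 68719476736), (128849018880, 42949672960)] :=
  covD_E kA3_eq (.n 0 (.n 1 (.n 0 (.l 0) (.l 0)) (.l 0)) (.n 1 (.n 0 (.l 0) (.l 0)) (.l 0)))
    [(125986406400, 11453595648), (206158430208, 68719476736), (128849018880, 42949672960)] rfl (by decide +kernel)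
theorem A3_c0_t71 : CovD 1 gA3 [(125986406400, 11453595648), (8589934592, 8589934592), (257698037760, 85899345920)] :=
  covD_E kA3_eq (.n 0 (.n 2 (.n 1 (.n 2 (.n 0 (.l 0) (.l 0)) (.l 0)) (.n 2 (.l 0) (.l 0))) (.n 2 (.l 0) (.l 0))) (.n 2 (.n 1 (.n 2 (.n 0 (.l 0) (.l 0)) (.l 0)) (.n 2 (.n 0 (.l 0) (.l 0)) (.l 0))) (.n 2 (.n 0 (.l 0) (.l 0)) (.l 0))))
    [(125986406400, 11453595648), (8589934592, 8589934592), (257698037760, 85899345920)] rfl (by decide +kernel)
end

mutual
theorem A3_c0_t72 : CovD 1 gA3 [(125986406400, 11453595648), (25769803776, 8589934592), (257698037760, 85899345920)] :=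
  covD_E kA3_eq (.n 0 (.n 2 (.n 2 (.n 1 (.l 0) (.l 0)) (.l 0)) (.n 2 (.l 0) (.l 0))) (.n 2 (.n 1 (.n 2 (.l 0) (.l 0)) (.n 2 (.n 0 (.l 0) (.l 0)) (.l 0))) (.n 2 (.l 0) (.l 0))))
    [(125986406400, 11453595648), (25769803776, 8589934592), (257698037760, 85899345920)] rfl (by decide +kernel)
theorem A3_c0_t74 : CovD 1 gA3 [(125986406400, 11453595648), (42949672960, 8589934592), (257698037760, 85899345920)] :=
  covD_E kA3_eq (.n 0 (.n 2 (.n 1 (.n 2 (.l 0) (.l 0)) (.n 2 (.l 0) (.l 0))) (.n 2 (.l 0) (.l 0))) (.n 2 (.n 2 (.n 2 (.l 0) (.l 0)) (.n 0 (.l 0) (.l 0))) (.n 2 (.l 0) (.l 0))))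
    [(125986406400, 11453595648), (42949672960, 8589934592), (257698037760, 85899345920)] rfl (by decide +kernel)
end

mutual
theorem A3_c0_t75 : CovD 1 gA3 [(125986406400, 11453595648), (60129542144, 8589934592), (257698037760, 85899345920)] :=
  covD_E kA3_eq (.n 2 (.n 2 (.n 2 (.l 0) (.l 0)) (.n 0 (.l 0) (.l 0))) (.n 2 (.n 0 (.l 0) (.l 0)) (.l 0)))
    [(125986406400, 11453595648), (60129542144, 8589934592), (257698037760, 85899345920)] rfl (by decide +kernel)
theorem A3_c0_t76 : CovD 1 gA3 [(125986406400, 11453595648), (103079215104, 34359738368), (257698037760, 85899345920)] :=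
  covD_E kA3_eq (.n 1 (.n 1 (.n 2 (.n 0 (.n 2 (.l 0) (.l 0)) (.n 2 (.l 0) (.l 0))) (.n 2 (.n 0 (.l 0) (.l 0)) (.l 0))) (.n 2 (.n 2 (.l 0) (.l 0)) (.n 2 (.l 0) (.l 0)))) (.n 2 (.n 2 (.l 0) (.l 0)) (.n 2 (.l 0) (.l 0))))
    [(125986406400, 11453595648), (103079215104, 34359738368), (257698037760, 85899345920)] rfl (by decide +kernel)
end

mutual
theorem A3_c0_t77 : CovD 1 gA3 [(125986406400, 11453595648), (206158430208, 68719476736), (257698037760, 85899345920)] :=
  covD_E kA3_eq (.n 0 (.n 1 (.n 0 (.n 2 (.l 0) (.l 0)) (.n 2 (.l 0) (.l 0))) (.n 2 (.l 0) (.l 0))) (.n 1 (.n 1 (.n 2 (.l 0) (.l 0)) (.n 2 (.l 0) (.l 0))) (.n 2 (.l 0) (.l 0))))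
    [(125986406400, 11453595648), (206158430208, 68719476736), (257698037760, 85899345920)] rfl (by decide +kernel)
theorem A3_c0_t82 : CovD 1 gA3 [(120259608576, 5726797824), (17179869184, 17179869184), (515396075520, 171798691840)] :=
  covD_E kA3_eq (.n 2 (.n 1 (.n 2 (.n 0 (.l 0) (.l 0)) (.l 0)) (.n 2 (.n 0 (.l 0) (.l 0)) (.l 0))) (.n 2 (.l 0) (.l 0)))
    [(120259608576, 5726797824), (17179869184, 17179869184), (515396075520, 171798691840)] rfl (by decide +kernel)
end

mutual
theorem A3_c0_t83 : CovD 1 gA3 [(131713204224, 5726797824), (17179869184, 17179869184), (515396075520, 171798691840)] :=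
  covD_E kA3_eq (.n 2 (.n 1 (.n 2 (.n 2 (.l 0) (.l 0)) (.l 0)) (.n 2 (.n 2 (.l 0) (.l 0)) (.l 0))) (.n 2 (.n 0 (.l 0) (.l 0)) (.l 0)))
    [(131713204224, 5726797824), (17179869184, 17179869184), (515396075520, 171798691840)] rfl (by decide +kernel)
theorem A3_c0_t84 : CovD 1 gA3 [(125986406400, 11453595648), (51539607552, 17179869184), (515396075520, 171798691840)] :=
  covD_E kA3_eq (.n 0 (.n 2 (.n 2 (.n 2 (.l 0) (.l 0)) (.n 1 (.l 0) (.l 0))) (.n 2 (.n 0 (.l 0) (.l 0)) (.l 0))) (.n 2 (.n 2 (.n 2 (.n 0 (.l 0) (.l 0)) (.l 0)) (.n 1 (.l 0) (.l 0))) (.n 2 (.n 0 (.l 0) (.l 0)) (.l 0))))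
    [(125986406400, 11453595648), (51539607552, 17179869184), (515396075520, 171798691840)] rfl (by decide +kernel)
end

mutual
theorem A3_c0_t86 : CovD 1 gA3 [(125986406400, 11453595648), (85899345920, 17179869184), (515396075520, 171798691840)] :=
  covD_E kA3_eq (.n 0 (.n 2 (.n 1 (.n 2 (.l 0) (.l 0)) (.n 2 (.l 0) (.l 0))) (.n 2 (.l 0) (.l 0))) (.n 2 (.n 1 (.n 2 (.l 0) (.l 0)) (.n 2 (.l 0) (.l 0))) (.n 2 (.l 0) (.l 0))))
    [(125986406400, 11453595648), (85899345920, 17179869184), (515396075520, 171798691840)] rfl (by decide +kernel)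
theorem A3_c0_t87 : CovD 1 gA3 [(125986406400, 11453595648), (120259084288, 17179869184), (515396075520, 171798691840)] :=
  covD_E kA3_eq (.n 2 (.n 2 (.n 2 (.l 0) (.l 0)) (.n 0 (.l 0) (.l 0))) (.n 0 (.n 2 (.l 0) (.l 0)) (.n 2 (.l 0) (.l 0))))
    [(125986406400, 11453595648), (120259084288, 17179869184), (515396075520, 171798691840)] rfl (by decide +kernel)
end

mutual
theorem A3_c0_t89 : CovD 1 gA3 [(125986406400, 11453595648), (171798691840, 34359738368), (515396075520, 171798691840)] :=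
  covD_E kA3_eq (.n 1 (.n 2 (.n 0 (.n 2 (.l 0) (.l 0)) (.n 2 (.l 0) (.l 0))) (.n 2 (.l 0) (.l 0))) (.n 2 (.n 2 (.n 0 (.l 0) (.l 0)) (.l 0)) (.n 2 (.l 0) (.l 0))))
    [(125986406400, 11453595648), (171798691840, 34359738368), (515396075520, 171798691840)] rfl (by decide +kernel)
theorem A3_c0_t90 : CovD 1 gA3 [(125986406400, 11453595648), (240518168576, 34359738368), (515396075520, 171798691840)] :=
  covD_E kA3_eq (.n 0 (.n 2 (.n 2 (.l 0) (.l 0)) (.n 2 (.l 0) (.l 0))) (.n 2 (.n 2 (.l 0) (.l 0)) (.n 2 (.l 0) (.l 0))))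
    [(125986406400, 11453595648), (240518168576, 34359738368), (515396075520, 171798691840)] rfl (by decide +kernel)
end

mutual
theorem A3_c0_t93 : CovD 1 gA3 [(125986406400, 11453595648), (34359738368, 34359738368), (1030792151040, 343597383680)] :=
  covD_E kA3_eq (.n 2 (.n 2 (.n 1 (.n 2 (.l 0) (.l 0)) (.n 2 (.n 0 (.l 0) (.l 0)) (.l 0))) (.n 2 (.n 0 (.l 0) (.l 0)) (.l 0))) (.n 0 (.n 2 (.l 0) (.l 0)) (.n 2 (.l 0) (.l 0))))
    [(125986406400, 11453595648), (34359738368, 34359738368), (1030792151040, 343597383680)] rfl (by decide +kernel)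
theorem A3_c0_t94 : CovD 1 gA3 [(125986406400, 11453595648), (103079215104, 34359738368), (1030792151040, 343597383680)] :=
  covD_E kA3_eq (.n 0 (.n 2 (.n 2 (.n 2 (.n 0 (.l 0) (.l 0)) (.l 0)) (.n 0 (.l 0) (.l 0))) (.n 2 (.l 0) (.l 0))) (.n 2 (.n 2 (.n 2 (.n 0 (.l 0) (.l 0)) (.l 0)) (.n 1 (.l 0) (.l 0))) (.n 2 (.l 0) (.l 0))))
    [(125986406400, 11453595648), (103079215104, 34359738368), (1030792151040, 343597383680)] rfl (by decide +kernel)
end

mutual
theorem A3_c0_t96 : CovD 1 gA3 [(125986406400, 11453595648), (171798691840, 34359738368), (1030792151040, 343597383680)] :=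
  covD_E kA3_eq (.n 0 (.n 2 (.n 2 (.n 2 (.l 0) (.l 0)) (.n 0 (.l 0) (.l 0))) (.n 2 (.l 0) (.l 0))) (.n 2 (.n 2 (.n 2 (.l 0) (.l 0)) (.n 0 (.l 0) (.l 0))) (.n 2 (.l 0) (.l 0))))
    [(125986406400, 11453595648), (171798691840, 34359738368), (1030792151040, 343597383680)] rfl (by decide +kernel)
theorem A3_c0_t97 : CovD 1 gA3 [(125986406400, 11453595648), (240518168576, 34359738368), (1030792151040, 343597383680)] :=
  covD_E kA3_eq (.n 2 (.n 2 (.n 2 (.l 0) (.l 0)) (.n 0 (.l 0) (.l 0))) (.n 0 (.n 2 (.l 0) (.l 0)) (.n 2 (.l 0) (.l 0))))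
    [(125986406400, 11453595648), (240518168576, 34359738368), (1030792151040, 343597383680)] rfl (by decide +kernel)
end

mutual
theorem A3_c0_t99 : CovD 1 gA3 [(125986406400, 11453595648), (68719476736, 68719476736), (2061584302080, 687194767360)] :=
  covD_E kA3_eq (.n 0 (.n 2 (.n 2 (.n 2 (.l 0) (.l 0)) (.n 0 (.l 0) (.l 0))) (.n 2 (.l 0) (.l 0))) (.n 2 (.n 2 (.n 2 (.n 0 (.l 0) (.l 0)) (.l 0)) (.n 0 (.l 0) (.l 0))) (.n 2 (.l 0) (.l 0))))
    [(125986406400, 11453595648), (68719476736, 68719476736), (2061584302080, 687194767360)] rfl (by decide +kernel)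
theorem A3_c0_t100 : CovD 1 gA3 [(125986406400, 11453595648), (206158430208, 68719476736), (2061584302080, 687194767360)] :=
  covD_E kA3_eq (.n 2 (.n 1 (.n 2 (.n 2 (.l 0) (.l 0)) (.n 0 (.l 0) (.l 0))) (.n 2 (.n 2 (.l 0) (.l 0)) (.n 0 (.l 0) (.l 0)))) (.n 0 (.n 2 (.l 0) (.l 0)) (.n 2 (.l 0) (.l 0))))
    [(125986406400, 11453595648), (206158430208, 68719476736), (2061584302080, 687194767360)] rfl (by decide +kernel)
end

mutual
theorem A3_c0_t104 : CovD 1 gA3 [(94489018368, 2863398912), (137438953472, 137438953472), (4123168604160, 1374389534720)] :=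
  covD_E kA3_eq (.n 2 (.n 1 (.n 2 (.l 0) (.l 0)) (.n 2 (.l 0) (.l 0))) (.n 2 (.n 1 (.n 2 (.n 2 (.l 0) (.n 0 (.n 2 (.l 0) (.l 1)) (.l 0))) (.l 1)) (.n 2 (.n 0 (.n 2 (.l 0) (.n 2 (.l 0) (.l 1))) (.l 0)) (.l 1))) (.l 1)))
    [(94489018368, 2863398912), (137438953472, 137438953472), (4123168604160, 1374389534720)] rfl (by decide +kernel)
theorem A3_c0_t105 : CovD 1 gA3 [(100215816192, 2863398912), (137438953472, 137438953472), (4123168604160, 1374389534720)] :=
  covD_E kA3_eq (.n 2 (.n 1 (.n 2 (.l 0) (.l 0)) (.n 2 (.l 0) (.l 0))) (.n 2 (.n 2 (.n 0 (.l 0) (.l 0)) (.n 2 (.n 0 (.n 1 (.l 0) (.l 0)) (.l 0)) (.l 1))) (.l 1)))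
    [(100215816192, 2863398912), (137438953472, 137438953472), (4123168604160, 1374389534720)] rfl (by decide +kernel)
end

mutual
theorem A3_c0_t106 : CovD 1 gA3 [(108806012928, 5726797824), (137438953472, 137438953472), (4123168604160, 1374389534720)] :=
  covD_E kA3_eq (.n 2 (.n 1 (.n 2 (.n 0 (.l 0) (.l 0)) (.l 0)) (.n 2 (.n 0 (.l 0) (.l 0)) (.l 0))) (.n 2 (.n 0 (.n 1 (.n 2 (.l 0) (.l 0)) (.n 2 (.l 0) (.l 0))) (.n 1 (.l 0) (.l 0))) (.n 2 (.n 0 (.l 1) (.n 0 (.l 0) (.l 0))) (.l 1))))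
    [(108806012928, 5726797824), (137438953472, 137438953472), (4123168604160, 1374389534720)] rfl (by decide +kernel)
theorem A3_c0_t108 : CovD 1 gA3 [(120259608576, 5726797824), (137438953472, 137438953472), (4123168604160, 1374389534720)] :=
  covD_E kA3_eq (.n 1 (.n 2 (.n 2 (.n 0 (.l 0) (.l 0)) (.l 0)) (.n 2 (.l 0) (.l 0))) (.n 2 (.n 2 (.n 0 (.l 0) (.l 0)) (.l 0)) (.n 2 (.l 0) (.l 0))))
    [(120259608576, 5726797824), (137438953472, 137438953472), (4123168604160, 1374389534720)] rfl (by decide +kernel)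
end

mutual
theorem A3_c0_t109 : CovD 1 gA3 [(131713204224, 5726797824), (137438953472, 137438953472), (4123168604160, 1374389534720)] :=
  covD_E kA3_eq (.n 1 (.n 2 (.n 0 (.n 2 (.l 0) (.l 0)) (.n 2 (.l 0) (.l 0))) (.n 2 (.l 0) (.l 0))) (.n 2 (.n 0 (.n 2 (.l 0) (.l 0)) (.n 2 (.l 0) (.l 0))) (.n 2 (.l 0) (.l 0))))
    [(131713204224, 5726797824), (137438953472, 137438953472), (4123168604160, 1374389534720)] rfl (by decide +kernel)
theorem A3_c0_t111 : CovD 1 gA3 [(103079215104, 11453595648), (137438953472, 137438953472), (8246337208320, 2748779069440)] :=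
  covD_E kA3_eq (.n 2 (.n 2 (.n 0 (.l 1) (.n 0 (.l 1) (.l 1))) (.l 1)) (.n 0 (.l 1) (.l 1)))
    [(103079215104, 11453595648), (137438953472, 137438953472), (8246337208320, 2748779069440)] rfl (by decide +kernel)
end

mutual
theorem A3_c0_t112 : CovD 1 gA3 [(125986406400, 11453595648), (137438953472, 137438953472), (8246337208320, 2748779069440)] :=
  covD_E kA3_eq (.n 0 (.n 2 (.n 2 (.n 0 (.l 1) (.n 1 (.l 1) (.l 1))) (.l 1)) (.l 1)) (.n 0 (.n 2 (.n 2 (.n 1 (.l 0) (.l 0)) (.l 1)) (.l 1)) (.n 2 (.n 2 (.n 1 (.l 0) (.l 0)) (.l 1)) (.l 1))))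
    [(125986406400, 11453595648), (137438953472, 137438953472), (8246337208320, 2748779069440)] rfl (by decide +kernel)
theorem B3_c0 : CovD 1 gB3 [(114532810752, 22907191296), (137438953472, 137438953472), (54975791104, 54975791104)] :=
  covD_E kB3_eq (.n 0 (.n 2 (.n 2 (.l 1) (.l 1)) (.n 2 (.l 1) (.l 1))) (.n 2 (.n 2 (.l 1) (.l 1)) (.n 2 (.l 1) (.l 1))))
    [(114532810752, 22907191296), (137438953472, 137438953472), (54975791104, 54975791104)] rfl (by decide +kernel)
end

theorem A3_c0_t12 : CovD 1 gA3 [(103079215104, 11453595648), (17179869184, 17179869184), (128849018880, 42949672960)] :=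
  covD_split 2 (by decide +kernel) A3_c0_t13 A3_c0_t14

theorem A3_c0_t10 : CovD 1 gA3 [(103079215104, 11453595648), (17179869184, 17179869184), (85899345920, 85899345920)] :=
  covD_split 2 (by decide +kernel) A3_c0_t11 A3_c0_t12

theorem A3_c0_t15 : CovD 1 gA3 [(103079215104, 11453595648), (17179869184, 17179869184), (257698037760, 85899345920)] :=
  covD_split 0 (by decide +kernel) A3_c0_t16 A3_c0_t17

theorem A3_c0_t9 : CovD 1 gA3 [(103079215104, 11453595648), (17179869184, 17179869184), (171798691840, 171798691840)] :=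
  covD_split 2 (by decide +kernel) A3_c0_t10 A3_c0_t15

theorem A3_c0_t8 : CovD 1 gA3 [(103079215104, 11453595648), (17179869184, 17179869184), (343597383680, 343597383680)] :=
  covD_split 2 (by decide +kernel) A3_c0_t9 A3_c0_t18

theorem A3_c0_t20 : CovD 1 gA3 [(103079215104, 11453595648), (51539607552, 17179869184), (171798691840, 171798691840)] :=
  covD_split 2 (by decide +kernel) A3_c0_t21 A3_c0_t22

theorem A3_c0_t19 : CovD 1 gA3 [(103079215104, 11453595648), (51539607552, 17179869184), (343597383680, 343597383680)] :=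
  covD_split 2 (by decide +kernel) A3_c0_t20 A3_c0_t23

theorem A3_c0_t7 : CovD 1 gA3 [(103079215104, 11453595648), (34359738368, 34359738368), (343597383680, 343597383680)] :=
  covD_split 1 (by decide +kernel) A3_c0_t8 A3_c0_t19

theorem A3_c0_t6 : CovD 1 gA3 [(103079215104, 11453595648), (34359738368, 34359738368), (687194767360, 687194767360)] :=
  covD_split 2 (by decide +kernel) A3_c0_t7 A3_c0_t24

theorem A3_c0_t27 : CovD 1 gA3 [(97352417280, 5726797824), (103079215104, 34359738368), (343597383680, 343597383680)] :=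
  covD_split 2 (by decide +kernel) A3_c0_t28 A3_c0_t29

theorem A3_c0_t26 : CovD 1 gA3 [(97352417280, 5726797824), (103079215104, 34359738368), (687194767360, 687194767360)] :=
  covD_split 2 (by decide +kernel) A3_c0_t27 A3_c0_t30

theorem A3_c0_t32 : CovD 1 gA3 [(108806012928, 5726797824), (103079215104, 34359738368), (343597383680, 343597383680)] :=
  covD_split 2 (by decide +kernel) A3_c0_t33 A3_c0_t34

theorem A3_c0_t31 : CovD 1 gA3 [(108806012928, 5726797824), (103079215104, 34359738368), (687194767360, 687194767360)] :=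
  covD_split 2 (by decide +kernel) A3_c0_t32 A3_c0_t35

theorem A3_c0_t25 : CovD 1 gA3 [(103079215104, 11453595648), (103079215104, 34359738368), (687194767360, 687194767360)] :=
  covD_split 0 (by decide +kernel) A3_c0_t26 A3_c0_t31

theorem A3_c0_t5 : CovD 1 gA3 [(103079215104, 11453595648), (68719476736, 68719476736), (687194767360, 687194767360)] :=
  covD_split 1 (by decide +kernel) A3_c0_t6 A3_c0_t25

theorem A3_c0_t4 : CovD 1 gA3 [(103079215104, 11453595648), (68719476736, 68719476736), (1374389534720, 1374389534720)] :=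
  covD_split 2 (by decide +kernel) A3_c0_t5 A3_c0_t36

theorem A3_c0_t40 : CovD 1 gA3 [(97352417280, 5726797824), (206158430208, 68719476736), (343597383680, 343597383680)] :=
  covD_split 2 (by decide +kernel) A3_c0_t41 A3_c0_t42

theorem A3_c0_t39 : CovD 1 gA3 [(97352417280, 5726797824), (206158430208, 68719476736), (687194767360, 687194767360)] :=
  covD_split 2 (by decide +kernel) A3_c0_t40 A3_c0_t43

theorem A3_c0_t38 : CovD 1 gA3 [(97352417280, 5726797824), (206158430208, 68719476736), (1374389534720, 1374389534720)] :=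
  covD_split 2 (by decide +kernel) A3_c0_t39 A3_c0_t44

theorem A3_c0_t47 : CovD 1 gA3 [(108806012928, 5726797824), (206158430208, 68719476736), (343597383680, 343597383680)] :=
  covD_split 2 (by decide +kernel) A3_c0_t48 A3_c0_t49

theorem A3_c0_t46 : CovD 1 gA3 [(108806012928, 5726797824), (206158430208, 68719476736), (687194767360, 687194767360)] :=
  covD_split 2 (by decide +kernel) A3_c0_t47 A3_c0_t50

theorem A3_c0_t45 : CovD 1 gA3 [(108806012928, 5726797824), (206158430208, 68719476736), (1374389534720, 1374389534720)] :=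
  covD_split 2 (by decide +kernel) A3_c0_t46 A3_c0_t51

theorem A3_c0_t37 : CovD 1 gA3 [(103079215104, 11453595648), (206158430208, 68719476736), (1374389534720, 1374389534720)] :=
  covD_split 0 (by decide +kernel) A3_c0_t38 A3_c0_t45

theorem A3_c0_t3 : CovD 1 gA3 [(103079215104, 11453595648), (137438953472, 137438953472), (1374389534720, 1374389534720)] :=
  covD_split 1 (by decide +kernel) A3_c0_t4 A3_c0_t37

theorem A3_c0_t62 : CovD 1 gA3 [(125986406400, 11453595648), (34359738368, 34359738368), (150323855360, 21474836480)] :=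
  covD_split 2 (by decide +kernel) A3_c0_t63 A3_c0_t64

theorem A3_c0_t60 : CovD 1 gA3 [(125986406400, 11453595648), (34359738368, 34359738368), (128849018880, 42949672960)] :=
  covD_split 2 (by decide +kernel) A3_c0_t61 A3_c0_t62

theorem A3_c0_t59 : CovD 1 gA3 [(125986406400, 11453595648), (68719476736, 68719476736), (128849018880, 42949672960)] :=
  covD_split 1 (by decide +kernel) A3_c0_t60 A3_c0_t65

theorem A3_c0_t58 : CovD 1 gA3 [(125986406400, 11453595648), (137438953472, 137438953472), (128849018880, 42949672960)] :=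
  covD_split 1 (by decide +kernel) A3_c0_t59 A3_c0_t66

theorem A3_c0_t56 : CovD 1 gA3 [(125986406400, 11453595648), (137438953472, 137438953472), (85899345920, 85899345920)] :=
  covD_split 2 (by decide +kernel) A3_c0_t57 A3_c0_t58

theorem A3_c0_t70 : CovD 1 gA3 [(125986406400, 11453595648), (17179869184, 17179869184), (257698037760, 85899345920)] :=
  covD_split 1 (by decide +kernel) A3_c0_t71 A3_c0_t72

theorem A3_c0_t73 : CovD 1 gA3 [(125986406400, 11453595648), (51539607552, 17179869184), (257698037760, 85899345920)] :=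
  covD_split 1 (by decide +kernel) A3_c0_t74 A3_c0_t75

theorem A3_c0_t69 : CovD 1 gA3 [(125986406400, 11453595648), (34359738368, 34359738368), (257698037760, 85899345920)] :=
  covD_split 1 (by decide +kernel) A3_c0_t70 A3_c0_t73

theorem A3_c0_t68 : CovD 1 gA3 [(125986406400, 11453595648), (68719476736, 68719476736), (257698037760, 85899345920)] :=
  covD_split 1 (by decide +kernel) A3_c0_t69 A3_c0_t76

theorem A3_c0_t67 : CovD 1 gA3 [(125986406400, 11453595648), (137438953472, 137438953472), (257698037760, 85899345920)] :=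
  covD_split 1 (by decide +kernel) A3_c0_t68 A3_c0_t77

theorem A3_c0_t55 : CovD 1 gA3 [(125986406400, 11453595648), (137438953472, 137438953472), (171798691840, 171798691840)] :=
  covD_split 2 (by decide +kernel) A3_c0_t56 A3_c0_t67

theorem A3_c0_t81 : CovD 1 gA3 [(125986406400, 11453595648), (17179869184, 17179869184), (515396075520, 171798691840)] :=
  covD_split 0 (by decide +kernel) A3_c0_t82 A3_c0_t83

theorem A3_c0_t80 : CovD 1 gA3 [(125986406400, 11453595648), (34359738368, 34359738368), (515396075520, 171798691840)] :=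
  covD_split 1 (by decide +kernel) A3_c0_t81 A3_c0_t84

theorem A3_c0_t85 : CovD 1 gA3 [(125986406400, 11453595648), (103079215104, 34359738368), (515396075520, 171798691840)] :=
  covD_split 1 (by decide +kernel) A3_c0_t86 A3_c0_t87

theorem A3_c0_t79 : CovD 1 gA3 [(125986406400, 11453595648), (68719476736, 68719476736), (515396075520, 171798691840)] :=
  covD_split 1 (by decide +kernel) A3_c0_t80 A3_c0_t85

theorem A3_c0_t88 : CovD 1 gA3 [(125986406400, 11453595648), (206158430208, 68719476736), (515396075520, 171798691840)] :=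
  covD_split 1 (by decide +kernel) A3_c0_t89 A3_c0_t90

theorem A3_c0_t78 : CovD 1 gA3 [(125986406400, 11453595648), (137438953472, 137438953472), (515396075520, 171798691840)] :=
  covD_split 1 (by decide +kernel) A3_c0_t79 A3_c0_t88

theorem A3_c0_t54 : CovD 1 gA3 [(125986406400, 11453595648), (137438953472, 137438953472), (343597383680, 343597383680)] :=
  covD_split 2 (by decide +kernel) A3_c0_t55 A3_c0_t78

theorem A3_c0_t92 : CovD 1 gA3 [(125986406400, 11453595648), (68719476736, 68719476736), (1030792151040, 343597383680)] :=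
  covD_split 1 (by decide +kernel) A3_c0_t93 A3_c0_t94

theorem A3_c0_t95 : CovD 1 gA3 [(125986406400, 11453595648), (206158430208, 68719476736), (1030792151040, 343597383680)] :=
  covD_split 1 (by decide +kernel) A3_c0_t96 A3_c0_t97

theorem A3_c0_t91 : CovD 1 gA3 [(125986406400, 11453595648), (137438953472, 137438953472), (1030792151040, 343597383680)] :=
  covD_split 1 (by decide +kernel) A3_c0_t92 A3_c0_t95

theorem A3_c0_t53 : CovD 1 gA3 [(125986406400, 11453595648), (137438953472, 137438953472), (687194767360, 687194767360)] :=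
  covD_split 2 (by decide +kernel) A3_c0_t54 A3_c0_t91

theorem A3_c0_t98 : CovD 1 gA3 [(125986406400, 11453595648), (137438953472, 137438953472), (2061584302080, 687194767360)] :=
  covD_split 1 (by decide +kernel) A3_c0_t99 A3_c0_t100

theorem A3_c0_t52 : CovD 1 gA3 [(125986406400, 11453595648), (137438953472, 137438953472), (1374389534720, 1374389534720)] :=
  covD_split 2 (by decide +kernel) A3_c0_t53 A3_c0_t98

theorem A3_c0_t2 : CovD 1 gA3 [(114532810752, 22907191296), (137438953472, 137438953472), (1374389534720, 1374389534720)] :=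
  covD_split 0 (by decide +kernel) A3_c0_t3 A3_c0_t52

theorem A3_c0_t103 : CovD 1 gA3 [(97352417280, 5726797824), (137438953472, 137438953472), (4123168604160, 1374389534720)] :=
  covD_split 0 (by decide +kernel) A3_c0_t104 A3_c0_t105

theorem A3_c0_t102 : CovD 1 gA3 [(103079215104, 11453595648), (137438953472, 137438953472), (4123168604160, 1374389534720)] :=
  covD_split 0 (by decide +kernel) A3_c0_t103 A3_c0_t106

theorem A3_c0_t107 : CovD 1 gA3 [(125986406400, 11453595648), (137438953472, 137438953472), (4123168604160, 1374389534720)] :=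
  covD_split 0 (by decide +kernel) A3_c0_t108 A3_c0_t109

theorem A3_c0_t101 : CovD 1 gA3 [(114532810752, 22907191296), (137438953472, 137438953472), (4123168604160, 1374389534720)] :=
  covD_split 0 (by decide +kernel) A3_c0_t102 A3_c0_t107

theorem A3_c0_t1 : CovD 1 gA3 [(114532810752, 22907191296), (137438953472, 137438953472), (2748779069440, 2748779069440)] :=
  covD_split 2 (by decide +kernel) A3_c0_t2 A3_c0_t101

theorem A3_c0_t110 : CovD 1 gA3 [(114532810752, 22907191296), (137438953472, 137438953472), (8246337208320, 2748779069440)] :=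
  covD_split 0 (by decide +kernel) A3_c0_t111 A3_c0_t112

theorem A3_c0 : CovD 1 gA3 [(114532810752, 22907191296), (137438953472, 137438953472), (5497558138880, 5497558138880)] :=
  covD_split 2 (by decide +kernel) A3_c0_t1 A3_c0_t110

end Pool.Agent.helper14.NR.E8a
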