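import Pool.Agent.helper14.NR.E8a.PN3

/-!
Generated: certificates.
-/

namespace Pool.Agent.helper14.NR.E8a

open Pool.Agent.helper31.IA (Z)
open Pool.Agent.helper31.IX (Op XOps runX Cov CovD cov_split covD_split)
open Pool.Agent.helper31.IC (TD)
open Pool.Agent.helper63.RG (reloc)
open Pool.Agent.helper63.NF hiding TD
open Pool.Agent.helper14.CF (xE covD_E)
open Pool.Agent.helper14.NR (share)

mutual
theorem C3_c0_t4 : CovD 1 gC3 [(103079215104, 11453595648), (34359738368, 34359738368), (274877906944, 274877906944)] :=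
  covD_E kC3_eq (.n 1 (.n 1 (.n 0 (.n 2 (.n 2 (.l 0) (.l 0)) (.n 2 (.l 0) (.l 0))) (.n 2 (.n 2 (.l 0) (.l 0)) (.n 2 (.l 0) (.l 0)))) (.n 2 (.n 2 (.l 0) (.l 0)) (.n 2 (.l 0) (.l 0)))) (.n 2 (.n 2 (.l 0) (.l 0)) (.n 2 (.l 0) (.l 0))))
    [(103079215104, 11453595648), (34359738368, 34359738368), (274877906944, 274877906944)] rfl (by decide +kernel)
theorem C3_c0_t5 : CovD 1 gC3 [(103079215104, 11453595648), (103079215104, 34359738368), (274877906944, 274877906944)] :=
  covD_E kC3_eq (.n 0 (.n 2 (.l 0) (.l 0)) (.n 2 (.l 0) (.l 0)))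
    [(103079215104, 11453595648), (103079215104, 34359738368), (274877906944, 274877906944)] rfl (by decide +kernel)
end

mutual
theorem C3_c0_t6 : CovD 1 gC3 [(103079215104, 11453595648), (206158430208, 68719476736), (274877906944, 274877906944)] :=
  covD_E kC3_eq (.n 0 (.n 2 (.l 0) (.l 0)) (.n 2 (.l 0) (.l 0)))
    [(103079215104, 11453595648), (206158430208, 68719476736), (274877906944, 274877906944)] rfl (by decide +kernel)
theorem C3_c0_t13 : CovD 1 gC3 [(97352417280, 5726797824), (8589934592, 8589934592), (687194767360, 137438953472)] :=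
  covD_E kC3_eq (.n 2 (.l 0) (.n 0 (.l 0) (.l 0)))
    [(97352417280, 5726797824), (8589934592, 8589934592), (687194767360, 137438953472)] rfl (by decide +kernel)
end

mutual
theorem C3_c0_t16 : CovD 1 gC3 [(97352417280, 5726797824), (4294967296, 4294967296), (893353197568, 68719476736)] :=
  covD_E kC3_eq (.l 0)
    [(97352417280, 5726797824), (4294967296, 4294967296), (893353197568, 68719476736)] rfl (by decide +kernel)
theorem C3_c0_t17 : CovD 1 gC3 [(97352417280, 5726797824), (4294967296, 4294967296), (1030792151040, 68719476736)] :=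
  covD_E kC3_eq (.n 1 (.n 1 (.n 1 (.n 2 (.l 0) (.n 1 (.n 2 (.l 0) (.n 2 (.l 0) (.n 2 (.l 0) (.n 0 (.n 0 (.n 0 (.l 1) (.l 1)) (.n 0 (.l 1) (.l 1))) (.n 0 (.n 0 (.l 1) (.l 1)) (.n 0 (.l 1) (.l 1))))))) (.l 0))) (.l 0)) (.l 0)) (.l 0))
    [(97352417280, 5726797824), (4294967296, 4294967296), (1030792151040, 68719476736)] rfl (by decide +kernel)
end

mutual
theorem C3_c0_t18 : CovD 1 gC3 [(97352417280, 5726797824), (12884901888, 4294967296), (962072674304, 137438953472)] :=
  covD_E kC3_eq (.n 2 (.l 0) (.l 0))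
    [(97352417280, 5726797824), (12884901888, 4294967296), (962072674304, 137438953472)] rfl (by decide +kernel)
theorem C3_c0_t19 : CovD 1 gC3 [(97352417280, 5726797824), (25769803776, 8589934592), (824633720832, 274877906944)] :=
  covD_E kC3_eq (.n 2 (.n 2 (.l 0) (.l 0)) (.n 2 (.l 0) (.n 0 (.l 0) (.l 0))))
    [(97352417280, 5726797824), (25769803776, 8589934592), (824633720832, 274877906944)] rfl (by decide +kernel)
end

mutual
theorem C3_c0_t20 : CovD 1 gC3 [(97352417280, 5726797824), (51539607552, 17179869184), (824633720832, 274877906944)] :=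
  covD_E kC3_eq (.n 1 (.n 2 (.l 0) (.n 0 (.l 0) (.l 0))) (.n 2 (.l 0) (.l 0)))
    [(97352417280, 5726797824), (51539607552, 17179869184), (824633720832, 274877906944)] rfl (by decide +kernel)
theorem C3_c0_t21 : CovD 1 gC3 [(97352417280, 5726797824), (103079215104, 34359738368), (824633720832, 274877906944)] :=
  covD_E kC3_eq (.n 1 (.n 2 (.l 0) (.l 0)) (.n 2 (.l 0) (.l 0)))
    [(97352417280, 5726797824), (103079215104, 34359738368), (824633720832, 274877906944)] rfl (by decide +kernel)
end

mutual
theorem C3_c0_t22 : CovD 1 gC3 [(97352417280, 5726797824), (206158430208, 68719476736), (824633720832, 274877906944)] :=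
  covD_E kC3_eq (.n 2 (.l 0) (.n 0 (.l 0) (.l 0)))
    [(97352417280, 5726797824), (206158430208, 68719476736), (824633720832, 274877906944)] rfl (by decide +kernel)
theorem C3_c0_t28 : CovD 1 gC3 [(108806012928, 5726797824), (8589934592, 8589934592), (687194767360, 137438953472)] :=
  covD_E kC3_eq (.n 2 (.l 0) (.n 0 (.l 0) (.l 0)))
    [(108806012928, 5726797824), (8589934592, 8589934592), (687194767360, 137438953472)] rfl (by decide +kernel)
end

mutual
theorem C3_c0_t29 : CovD 1 gC3 [(108806012928, 5726797824), (8589934592, 8589934592), (962072674304, 137438953472)] :=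
  covD_E kC3_eq (.n 1 (.n 2 (.l 0) (.n 1 (.n 1 (.n 2 (.l 0) (.n 2 (.l 0) (.n 2 (.l 0) (.n 2 (.l 0) (.n 2 (.l 0) (.n 0 (.n 0 (.l 1) (.l 1)) (.n 0 (.l 1) (.l 1)))))))) (.l 0)) (.l 0))) (.n 2 (.l 0) (.l 0)))
    [(108806012928, 5726797824), (8589934592, 8589934592), (962072674304, 137438953472)] rfl (by decide +kernel)
theorem C3_c0_t30 : CovD 1 gC3 [(108806012928, 5726797824), (25769803776, 8589934592), (824633720832, 274877906944)] :=
  covD_E kC3_eq (.n 2 (.n 2 (.l 0) (.l 0)) (.n 2 (.l 0) (.n 0 (.l 0) (.l 0))))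
    [(108806012928, 5726797824), (25769803776, 8589934592), (824633720832, 274877906944)] rfl (by decide +kernel)
end

mutual
theorem C3_c0_t31 : CovD 1 gC3 [(108806012928, 5726797824), (51539607552, 17179869184), (824633720832, 274877906944)] :=
  covD_E kC3_eq (.n 1 (.n 2 (.l 0) (.n 1 (.l 0) (.l 0))) (.n 2 (.l 0) (.l 0)))
    [(108806012928, 5726797824), (51539607552, 17179869184), (824633720832, 274877906944)] rfl (by decide +kernel)
theorem C3_c0_t32 : CovD 1 gC3 [(108806012928, 5726797824), (103079215104, 34359738368), (824633720832, 274877906944)] :=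
  covD_E kC3_eq (.n 1 (.n 2 (.l 0) (.l 0)) (.n 2 (.l 0) (.l 0)))
    [(108806012928, 5726797824), (103079215104, 34359738368), (824633720832, 274877906944)] rfl (by decide +kernel)
end

mutual
theorem C3_c0_t33 : CovD 1 gC3 [(108806012928, 5726797824), (206158430208, 68719476736), (824633720832, 274877906944)] :=
  covD_E kC3_eq (.n 2 (.l 0) (.n 0 (.l 0) (.l 0)))
    [(108806012928, 5726797824), (206158430208, 68719476736), (824633720832, 274877906944)] rfl (by decide +kernel)
theorem C3_c0_t37 : CovD 1 gC3 [(125986406400, 11453595648), (34359738368, 34359738368), (274877906944, 274877906944)] :=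
  covD_E kC3_eq (.n 1 (.n 1 (.n 0 (.n 2 (.n 2 (.l 0) (.l 0)) (.n 2 (.l 0) (.l 0))) (.n 2 (.n 2 (.l 0) (.l 0)) (.n 2 (.l 0) (.l 0)))) (.n 2 (.n 2 (.l 0) (.l 0)) (.n 2 (.l 0) (.l 0)))) (.n 2 (.n 0 (.l 0) (.l 0)) (.n 2 (.l 0) (.l 0))))
    [(125986406400, 11453595648), (34359738368, 34359738368), (274877906944, 274877906944)] rfl (by decide +kernel)
end

mutual
theorem C3_c0_t38 : CovD 1 gC3 [(125986406400, 11453595648), (103079215104, 34359738368), (274877906944, 274877906944)] :=
  covD_E kC3_eq (.n 0 (.n 2 (.l 0) (.l 0)) (.n 2 (.l 0) (.l 0)))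
    [(125986406400, 11453595648), (103079215104, 34359738368), (274877906944, 274877906944)] rfl (by decide +kernel)
theorem C3_c0_t39 : CovD 1 gC3 [(125986406400, 11453595648), (206158430208, 68719476736), (274877906944, 274877906944)] :=
  covD_E kC3_eq (.n 0 (.n 2 (.l 0) (.l 0)) (.n 2 (.l 0) (.l 0)))
    [(125986406400, 11453595648), (206158430208, 68719476736), (274877906944, 274877906944)] rfl (by decide +kernel)
end

mutual
theorem C3_c0_t47 : CovD 1 gC3 [(125986406400, 11453595648), (2147483648, 2147483648), (687194767360, 137438953472)] :=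
  covD_E kC3_eq (.n 2 (.l 0) (.l 0))
    [(125986406400, 11453595648), (2147483648, 2147483648), (687194767360, 137438953472)] rfl (by decide +kernel)
theorem C3_c0_t48 : CovD 1 gC3 [(125986406400, 11453595648), (2147483648, 2147483648), (962072674304, 137438953472)] :=
  covD_E kC3_eq (.n 1 (.n 2 (.l 0) (.n 2 (.l 0) (.n 2 (.l 0) (.n 2 (.l 0) (.n 2 (.l 0) (.n 0 (.n 0 (.n 0 (.n 0 (.l 1) (.l 1)) (.l 1)) (.n 0 (.l 1) (.l 1))) (.n 0 (.n 0 (.l 1) (.l 1)) (.n 0 (.l 1) (.l 1))))))))) (.n 2 (.l 0) (.l 0)))
    [(125986406400, 11453595648), (2147483648, 2147483648), (962072674304, 137438953472)] rfl (by decide +kernel)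
end

mutual
theorem C3_c0_t49 : CovD 1 gC3 [(125986406400, 11453595648), (6442450944, 2147483648), (824633720832, 274877906944)] :=
  covD_E kC3_eq (.n 2 (.n 2 (.l 0) (.l 0)) (.n 2 (.l 0) (.l 0)))
    [(125986406400, 11453595648), (6442450944, 2147483648), (824633720832, 274877906944)] rfl (by decide +kernel)
theorem C3_c0_t50 : CovD 1 gC3 [(125986406400, 11453595648), (12884901888, 4294967296), (824633720832, 274877906944)] :=
  covD_E kC3_eq (.n 2 (.n 2 (.l 0) (.l 0)) (.n 0 (.n 2 (.l 0) (.l 0)) (.n 2 (.l 0) (.l 0))))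
    [(125986406400, 11453595648), (12884901888, 4294967296), (824633720832, 274877906944)] rfl (by decide +kernel)
end

mutual
theorem C3_c0_t51 : CovD 1 gC3 [(125986406400, 11453595648), (25769803776, 8589934592), (824633720832, 274877906944)] :=
  covD_E kC3_eq (.n 1 (.n 2 (.n 2 (.l 0) (.l 0)) (.n 2 (.l 0) (.n 0 (.l 0) (.l 0)))) (.n 2 (.n 0 (.l 0) (.l 0)) (.n 2 (.l 0) (.n 0 (.l 0) (.l 0)))))
    [(125986406400, 11453595648), (25769803776, 8589934592), (824633720832, 274877906944)] rfl (by decide +kernel)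
theorem C3_c0_t52 : CovD 1 gC3 [(125986406400, 11453595648), (51539607552, 17179869184), (824633720832, 274877906944)] :=
  covD_E kC3_eq (.n 1 (.n 2 (.n 0 (.l 0) (.l 0)) (.n 2 (.l 0) (.n 0 (.l 0) (.l 0)))) (.n 2 (.l 0) (.n 0 (.l 0) (.l 0))))
    [(125986406400, 11453595648), (51539607552, 17179869184), (824633720832, 274877906944)] rfl (by decide +kernel)
end

mutual
theorem C3_c0_t53 : CovD 1 gC3 [(125986406400, 11453595648), (103079215104, 34359738368), (824633720832, 274877906944)] :=
  covD_E kC3_eq (.n 1 (.n 2 (.l 0) (.n 0 (.l 0) (.l 0))) (.n 2 (.l 0) (.l 0)))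
    [(125986406400, 11453595648), (103079215104, 34359738368), (824633720832, 274877906944)] rfl (by decide +kernel)
theorem C3_c0_t54 : CovD 1 gC3 [(125986406400, 11453595648), (206158430208, 68719476736), (824633720832, 274877906944)] :=
  covD_E kC3_eq (.n 1 (.n 2 (.l 0) (.n 0 (.l 0) (.l 0))) (.n 2 (.l 0) (.l 0)))
    [(125986406400, 11453595648), (206158430208, 68719476736), (824633720832, 274877906944)] rfl (by decide +kernel)
end

mutual
theorem D3_c0_t1 : CovD 1 gD3 [(103079215104, 11453595648), (137438953472, 137438953472), (863554764800, 863554764800)] :=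
  covD_E kD3_eq (.n 2 (.n 2 (.n 1 (.l 0) (.l 0)) (.n 2 (.l 0) (.l 0))) (.n 2 (.n 2 (.l 0) (.l 0)) (.n 0 (.n 1 (.l 0) (.l 0)) (.n 1 (.l 0) (.l 0)))))
    [(103079215104, 11453595648), (137438953472, 137438953472), (863554764800, 863554764800)] rfl (by decide +kernel)
theorem D3_c0_t2 : CovD 1 gD3 [(125986406400, 11453595648), (137438953472, 137438953472), (863554764800, 863554764800)] :=
  covD_E kD3_eq (.n 2 (.n 2 (.n 1 (.l 0) (.l 0)) (.n 2 (.l 0) (.l 0))) (.n 2 (.n 2 (.l 0) (.n 0 (.l 0) (.l 0))) (.n 0 (.n 2 (.l 0) (.l 0)) (.n 2 (.l 0) (.l 0)))))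
    [(125986406400, 11453595648), (137438953472, 137438953472), (863554764800, 863554764800)] rfl (by decide +kernel)
end

mutual
theorem E3_c0_t1 : CovD 1 gE3 [(114532810752, 22907191296), (137438953472, 137438953472), (431777382400, 431777382400)] :=
  covD_E kE3_eq (.n 0 (.n 2 (.l 1) (.n 0 (.n 0 (.l 1) (.l 1)) (.l 1))) (.n 2 (.l 1) (.n 0 (.l 1) (.l 1))))
    [(114532810752, 22907191296), (137438953472, 137438953472), (431777382400, 431777382400)] rfl (by decide +kernel)
theorem E3_c0_t3 : CovD 1 gE3 [(103079215104, 11453595648), (137438953472, 137438953472), (1295332147200, 431777382400)] :=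
  covD_E kE3_eq (.n 0 (.n 2 (.n 2 (.n 2 (.n 0 (.n 1 (.l 1) (.l 1)) (.l 1)) (.n 0 (.n 2 (.l 0) (.l 0)) (.l 0))) (.n 2 (.l 0) (.l 0))) (.n 2 (.l 0) (.l 0))) (.n 2 (.n 2 (.n 2 (.l 1) (.l 0)) (.n 0 (.l 0) (.l 0))) (.n 2 (.l 0) (.l 0))))
    [(103079215104, 11453595648), (137438953472, 137438953472), (1295332147200, 431777382400)] rfl (by decide +kernel)
end

theorem E3_c0_t4 : CovD 1 gE3 [(125986406400, 11453595648), (137438953472, 137438953472), (1295332147200, 431777382400)] :=
  covD_E kE3_eq (.n 1 (.n 2 (.n 2 (.l 1) (.l 0)) (.n 2 (.l 0) (.l 0))) (.n 2 (.n 0 (.n 2 (.l 1) (.l 0)) (.l 1)) (.n 2 (.l 0) (.l 0))))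
    [(125986406400, 11453595648), (137438953472, 137438953472), (1295332147200, 431777382400)] rfl (by decide +kernel)

theorem C3_c0_t3 : CovD 1 gC3 [(103079215104, 11453595648), (68719476736, 68719476736), (274877906944, 274877906944)] :=
  covD_split 1 (by decide +kernel) C3_c0_t4 C3_c0_t5

theorem C3_c0_t2 : CovD 1 gC3 [(103079215104, 11453595648), (137438953472, 137438953472), (274877906944, 274877906944)] :=
  covD_split 1 (by decide +kernel) C3_c0_t3 C3_c0_t6

theorem C3_c0_t15 : CovD 1 gC3 [(97352417280, 5726797824), (4294967296, 4294967296), (962072674304, 137438953472)] :=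
  covD_split 2 (by decide +kernel) C3_c0_t16 C3_c0_t17

theorem C3_c0_t14 : CovD 1 gC3 [(97352417280, 5726797824), (8589934592, 8589934592), (962072674304, 137438953472)] :=
  covD_split 1 (by decide +kernel) C3_c0_t15 C3_c0_t18

theorem C3_c0_t12 : CovD 1 gC3 [(97352417280, 5726797824), (8589934592, 8589934592), (824633720832, 274877906944)] :=
  covD_split 2 (by decide +kernel) C3_c0_t13 C3_c0_t14

theorem C3_c0_t11 : CovD 1 gC3 [(97352417280, 5726797824), (17179869184, 17179869184), (824633720832, 274877906944)] :=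
  covD_split 1 (by decide +kernel) C3_c0_t12 C3_c0_t19

theorem C3_c0_t10 : CovD 1 gC3 [(97352417280, 5726797824), (34359738368, 34359738368), (824633720832, 274877906944)] :=
  covD_split 1 (by decide +kernel) C3_c0_t11 C3_c0_t20

theorem C3_c0_t9 : CovD 1 gC3 [(97352417280, 5726797824), (68719476736, 68719476736), (824633720832, 274877906944)] :=
  covD_split 1 (by decide +kernel) C3_c0_t10 C3_c0_t21

theorem C3_c0_t8 : CovD 1 gC3 [(97352417280, 5726797824), (137438953472, 137438953472), (824633720832, 274877906944)] :=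
  covD_split 1 (by decide +kernel) C3_c0_t9 C3_c0_t22

theorem C3_c0_t27 : CovD 1 gC3 [(108806012928, 5726797824), (8589934592, 8589934592), (824633720832, 274877906944)] :=
  covD_split 2 (by decide +kernel) C3_c0_t28 C3_c0_t29

theorem C3_c0_t26 : CovD 1 gC3 [(108806012928, 5726797824), (17179869184, 17179869184), (824633720832, 274877906944)] :=
  covD_split 1 (by decide +kernel) C3_c0_t27 C3_c0_t30

theorem C3_c0_t25 : CovD 1 gC3 [(108806012928, 5726797824), (34359738368, 34359738368), (824633720832, 274877906944)] :=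
  covD_split 1 (by decide +kernel) C3_c0_t26 C3_c0_t31

theorem C3_c0_t24 : CovD 1 gC3 [(108806012928, 5726797824), (68719476736, 68719476736), (824633720832, 274877906944)] :=
  covD_split 1 (by decide +kernel) C3_c0_t25 C3_c0_t32

theorem C3_c0_t23 : CovD 1 gC3 [(108806012928, 5726797824), (137438953472, 137438953472), (824633720832, 274877906944)] :=
  covD_split 1 (by decide +kernel) C3_c0_t24 C3_c0_t33

theorem C3_c0_t7 : CovD 1 gC3 [(103079215104, 11453595648), (137438953472, 137438953472), (824633720832, 274877906944)] :=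
  covD_split 0 (by decide +kernel) C3_c0_t8 C3_c0_t23

theorem C3_c0_t1 : CovD 1 gC3 [(103079215104, 11453595648), (137438953472, 137438953472), (549755813888, 549755813888)] :=
  covD_split 2 (by decide +kernel) C3_c0_t2 C3_c0_t7

theorem C3_c0_t36 : CovD 1 gC3 [(125986406400, 11453595648), (68719476736, 68719476736), (274877906944, 274877906944)] :=
  covD_split 1 (by decide +kernel) C3_c0_t37 C3_c0_t38

theorem C3_c0_t35 : CovD 1 gC3 [(125986406400, 11453595648), (137438953472, 137438953472), (274877906944, 274877906944)] :=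
  covD_split 1 (by decide +kernel) C3_c0_t36 C3_c0_t39

theorem C3_c0_t46 : CovD 1 gC3 [(125986406400, 11453595648), (2147483648, 2147483648), (824633720832, 274877906944)] :=
  covD_split 2 (by decide +kernel) C3_c0_t47 C3_c0_t48

theorem C3_c0_t45 : CovD 1 gC3 [(125986406400, 11453595648), (4294967296, 4294967296), (824633720832, 274877906944)] :=
  covD_split 1 (by decide +kernel) C3_c0_t46 C3_c0_t49

theorem C3_c0_t44 : CovD 1 gC3 [(125986406400, 11453595648), (8589934592, 8589934592), (824633720832, 274877906944)] :=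
  covD_split 1 (by decide +kernel) C3_c0_t45 C3_c0_t50

theorem C3_c0_t43 : CovD 1 gC3 [(125986406400, 11453595648), (17179869184, 17179869184), (824633720832, 274877906944)] :=
  covD_split 1 (by decide +kernel) C3_c0_t44 C3_c0_t51

theorem C3_c0_t42 : CovD 1 gC3 [(125986406400, 11453595648), (34359738368, 34359738368), (824633720832, 274877906944)] :=
  covD_split 1 (by decide +kernel) C3_c0_t43 C3_c0_t52

theorem C3_c0_t41 : CovD 1 gC3 [(125986406400, 11453595648), (68719476736, 68719476736), (824633720832, 274877906944)] :=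
  covD_split 1 (by decide +kernel) C3_c0_t42 C3_c0_t53

theorem C3_c0_t40 : CovD 1 gC3 [(125986406400, 11453595648), (137438953472, 137438953472), (824633720832, 274877906944)] :=
  covD_split 1 (by decide +kernel) C3_c0_t41 C3_c0_t54

theorem C3_c0_t34 : CovD 1 gC3 [(125986406400, 11453595648), (137438953472, 137438953472), (549755813888, 549755813888)] :=
  covD_split 2 (by decide +kernel) C3_c0_t35 C3_c0_t40

theorem C3_c0 : CovD 1 gC3 [(114532810752, 22907191296), (137438953472, 137438953472), (549755813888, 549755813888)] :=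
  covD_split 0 (by decide +kernel) C3_c0_t1 C3_c0_t34

theorem D3_c0 : CovD 1 gD3 [(114532810752, 22907191296), (137438953472, 137438953472), (863554764800, 863554764800)] :=
  covD_split 0 (by decide +kernel) D3_c0_t1 D3_c0_t2

theorem E3_c0_t2 : CovD 1 gE3 [(114532810752, 22907191296), (137438953472, 137438953472), (1295332147200, 431777382400)] :=
  covD_split 0 (by decide +kernel) E3_c0_t3 E3_c0_t4

theorem E3_c0 : CovD 1 gE3 [(114532810752, 22907191296), (137438953472, 137438953472), (863554764800, 863554764800)] :=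
  covD_split 2 (by decide +kernel) E3_c0_t1 E3_c0_t2

end Pool.Agent.helper14.NR.E8a
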