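import Pool.Agent.helper14.NR.E8a.PN4

/-!
Generated: certificates.
-/

namespace Pool.Agent.helper14.NR.E8a

open Pool.Agent.helper31.IA (Z)
open Pool.Agent.helper31.IX (Op XOps runX Cov CovD cov_split covD_split)
open Pool.Agent.helper31.IC (TD)
open Pool.Agent.helper63.RG (reloc)
open Pool.Agent.helper63.NF hiding TD
open Pool.Agent.helper14.CF (xE covD_E)
open Pool.Agent.helper14.NR (share)

mutual
theorem A4_c0_t9 : CovD 1 gA4 [(103079215104, 11453595648), (17179869184, 17179869184), (42949672960, 42949672960)] :=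
  covD_E kA4_eq (.l 2)
    [(103079215104, 11453595648), (17179869184, 17179869184), (42949672960, 42949672960)] rfl (by decide +kernel)
theorem A4_c0_t11 : CovD 1 gA4 [(103079215104, 11453595648), (17179869184, 17179869184), (107374182400, 21474836480)] :=
  covD_E kA4_eq (.l 2)
    [(103079215104, 11453595648), (17179869184, 17179869184), (107374182400, 21474836480)] rfl (by decide +kernel)
end

mutual
theorem A4_c0_t12 : CovD 1 gA4 [(103079215104, 11453595648), (17179869184, 17179869184), (150323855360, 21474836480)] :=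
  covD_E kA4_eq (.n 0 (.n 1 (.n 0 (.n 1 (.l 0) (.l 0)) (.n 1 (.l 0) (.l 0))) (.n 1 (.n 2 (.l 0) (.l 0)) (.n 0 (.l 0) (.l 0)))) (.n 1 (.n 1 (.n 1 (.l 0) (.l 0)) (.n 2 (.l 0) (.l 0))) (.n 1 (.n 2 (.l 0) (.l 0)) (.n 2 (.l 0) (.l 0)))))
    [(103079215104, 11453595648), (17179869184, 17179869184), (150323855360, 21474836480)] rfl (by decide +kernel)
theorem A4_c0_t14 : CovD 1 gA4 [(97352417280, 5726797824), (17179869184, 17179869184), (257698037760, 85899345920)] :=
  covD_E kA4_eq (.n 1 (.n 2 (.n 1 (.n 2 (.l 0) (.l 0)) (.n 2 (.l 0) (.l 0))) (.n 2 (.l 0) (.l 0))) (.n 2 (.n 2 (.n 1 (.l 0) (.l 0)) (.l 0)) (.n 2 (.l 0) (.l 0))))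
    [(97352417280, 5726797824), (17179869184, 17179869184), (257698037760, 85899345920)] rfl (by decide +kernel)
end

mutual
theorem A4_c0_t15 : CovD 1 gA4 [(108806012928, 5726797824), (17179869184, 17179869184), (257698037760, 85899345920)] :=
  covD_E kA4_eq (.n 1 (.n 2 (.n 1 (.n 2 (.l 0) (.l 0)) (.n 2 (.l 0) (.l 0))) (.n 2 (.l 0) (.l 0))) (.n 2 (.n 2 (.n 1 (.l 0) (.l 0)) (.l 0)) (.n 2 (.l 0) (.l 0))))
    [(108806012928, 5726797824), (17179869184, 17179869184), (257698037760, 85899345920)] rfl (by decide +kernel)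
theorem A4_c0_t16 : CovD 1 gA4 [(103079215104, 11453595648), (17179869184, 17179869184), (515396075520, 171798691840)] :=
  covD_E kA4_eq (.n 0 (.n 2 (.n 1 (.n 2 (.l 0) (.l 0)) (.n 2 (.n 0 (.l 0) (.l 0)) (.l 0))) (.n 2 (.l 0) (.l 0))) (.n 2 (.n 2 (.n 2 (.n 0 (.l 0) (.l 0)) (.l 0)) (.n 0 (.l 0) (.l 0))) (.n 2 (.l 0) (.l 0))))
    [(103079215104, 11453595648), (17179869184, 17179869184), (515396075520, 171798691840)] rfl (by decide +kernel)
end

mutual
theorem A4_c0_t19 : CovD 1 gA4 [(103079215104, 11453595648), (51539607552, 17179869184), (85899345920, 85899345920)] :=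
  covD_E kA4_eq (.n 2 (.l 2) (.n 2 (.l 2) (.n 0 (.n 1 (.n 2 (.l 0) (.l 0)) (.l 0)) (.n 1 (.n 2 (.l 0) (.l 0)) (.l 0)))))
    [(103079215104, 11453595648), (51539607552, 17179869184), (85899345920, 85899345920)] rfl (by decide +kernel)
theorem A4_c0_t21 : CovD 1 gA4 [(97352417280, 5726797824), (51539607552, 17179869184), (257698037760, 85899345920)] :=
  covD_E kA4_eq (.n 1 (.n 2 (.n 2 (.n 0 (.l 0) (.l 0)) (.l 0)) (.n 0 (.l 0) (.l 0))) (.n 2 (.n 2 (.l 0) (.l 0)) (.n 0 (.l 0) (.l 0))))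
    [(97352417280, 5726797824), (51539607552, 17179869184), (257698037760, 85899345920)] rfl (by decide +kernel)
end

mutual
theorem A4_c0_t22 : CovD 1 gA4 [(108806012928, 5726797824), (51539607552, 17179869184), (257698037760, 85899345920)] :=
  covD_E kA4_eq (.n 1 (.n 2 (.n 2 (.n 1 (.l 0) (.l 0)) (.l 0)) (.n 2 (.l 0) (.l 0))) (.n 2 (.n 2 (.l 0) (.l 0)) (.n 2 (.l 0) (.l 0))))
    [(108806012928, 5726797824), (51539607552, 17179869184), (257698037760, 85899345920)] rfl (by decide +kernel)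
theorem A4_c0_t23 : CovD 1 gA4 [(103079215104, 11453595648), (51539607552, 17179869184), (515396075520, 171798691840)] :=
  covD_E kA4_eq (.n 0 (.n 2 (.n 1 (.n 2 (.l 0) (.l 0)) (.n 2 (.l 0) (.l 0))) (.n 2 (.l 0) (.l 0))) (.n 2 (.n 1 (.n 2 (.l 0) (.l 0)) (.n 2 (.l 0) (.l 0))) (.n 2 (.l 0) (.l 0))))
    [(103079215104, 11453595648), (51539607552, 17179869184), (515396075520, 171798691840)] rfl (by decide +kernel)
end

mutual
theorem A4_c0_t24 : CovD 1 gA4 [(103079215104, 11453595648), (34359738368, 34359738368), (1030792151040, 343597383680)] :=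
  covD_E kA4_eq (.n 0 (.n 2 (.n 2 (.n 2 (.n 0 (.l 0) (.l 0)) (.l 0)) (.n 0 (.l 0) (.l 0))) (.n 2 (.l 0) (.l 0))) (.n 2 (.n 2 (.n 2 (.n 0 (.l 0) (.l 0)) (.l 0)) (.n 0 (.l 0) (.l 0))) (.n 2 (.l 0) (.l 0))))
    [(103079215104, 11453595648), (34359738368, 34359738368), (1030792151040, 343597383680)] rfl (by decide +kernel)
theorem A4_c0_t28 : CovD 1 gA4 [(97352417280, 5726797824), (103079215104, 34359738368), (171798691840, 171798691840)] :=
  covD_E kA4_eq (.n 2 (.n 2 (.l 2) (.n 2 (.l 2) (.n 1 (.l 0) (.l 0)))) (.n 1 (.n 2 (.n 2 (.l 0) (.l 0)) (.n 2 (.l 0) (.l 0))) (.n 0 (.n 2 (.l 0) (.l 0)) (.n 2 (.l 0) (.l 0)))))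
    [(97352417280, 5726797824), (103079215104, 34359738368), (171798691840, 171798691840)] rfl (by decide +kernel)
end

mutual
theorem A4_c0_t29 : CovD 1 gA4 [(97352417280, 5726797824), (103079215104, 34359738368), (515396075520, 171798691840)] :=
  covD_E kA4_eq (.n 1 (.n 2 (.n 2 (.n 0 (.l 0) (.l 0)) (.l 0)) (.n 2 (.l 0) (.l 0))) (.n 2 (.n 2 (.l 0) (.l 0)) (.n 2 (.l 0) (.l 0))))
    [(97352417280, 5726797824), (103079215104, 34359738368), (515396075520, 171798691840)] rfl (by decide +kernel)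
theorem A4_c0_t30 : CovD 1 gA4 [(97352417280, 5726797824), (103079215104, 34359738368), (1030792151040, 343597383680)] :=
  covD_E kA4_eq (.n 2 (.n 2 (.n 2 (.n 0 (.l 0) (.l 0)) (.l 0)) (.n 0 (.l 0) (.l 0))) (.n 2 (.l 0) (.l 0)))
    [(97352417280, 5726797824), (103079215104, 34359738368), (1030792151040, 343597383680)] rfl (by decide +kernel)
end

mutual
theorem A4_c0_t33 : CovD 1 gA4 [(108806012928, 5726797824), (103079215104, 34359738368), (171798691840, 171798691840)] :=
  covD_E kA4_eq (.n 2 (.n 2 (.l 2) (.n 1 (.n 2 (.l 0) (.l 0)) (.n 0 (.l 0) (.l 0)))) (.n 1 (.n 2 (.n 2 (.l 0) (.n 0 (.l 0) (.l 0))) (.n 2 (.l 0) (.l 0))) (.n 0 (.n 2 (.l 0) (.l 0)) (.n 2 (.l 0) (.l 0)))))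
    [(108806012928, 5726797824), (103079215104, 34359738368), (171798691840, 171798691840)] rfl (by decide +kernel)
theorem A4_c0_t34 : CovD 1 gA4 [(108806012928, 5726797824), (103079215104, 34359738368), (515396075520, 171798691840)] :=
  covD_E kA4_eq (.n 1 (.n 2 (.n 2 (.n 0 (.l 0) (.l 0)) (.l 0)) (.n 2 (.l 0) (.l 0))) (.n 2 (.n 2 (.l 0) (.l 0)) (.n 2 (.l 0) (.l 0))))
    [(108806012928, 5726797824), (103079215104, 34359738368), (515396075520, 171798691840)] rfl (by decide +kernel)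
end

mutual
theorem A4_c0_t35 : CovD 1 gA4 [(108806012928, 5726797824), (103079215104, 34359738368), (1030792151040, 343597383680)] :=
  covD_E kA4_eq (.n 2 (.n 2 (.n 2 (.n 0 (.l 0) (.l 0)) (.l 0)) (.n 0 (.l 0) (.l 0))) (.n 2 (.l 0) (.l 0)))
    [(108806012928, 5726797824), (103079215104, 34359738368), (1030792151040, 343597383680)] rfl (by decide +kernel)
theorem A4_c0_t39 : CovD 1 gA4 [(97352417280, 5726797824), (206158430208, 68719476736), (171798691840, 171798691840)] :=
  covD_E kA4_eq (.n 2 (.n 2 (.l 2) (.n 0 (.n 1 (.l 0) (.l 0)) (.n 1 (.l 0) (.l 0)))) (.n 1 (.n 0 (.n 2 (.l 0) (.l 0)) (.n 2 (.l 0) (.l 0))) (.n 2 (.n 0 (.l 0) (.l 0)) (.l 0))))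
    [(97352417280, 5726797824), (206158430208, 68719476736), (171798691840, 171798691840)] rfl (by decide +kernel)
end

mutual
theorem A4_c0_t40 : CovD 1 gA4 [(97352417280, 5726797824), (206158430208, 68719476736), (515396075520, 171798691840)] :=
  covD_E kA4_eq (.n 1 (.n 2 (.n 0 (.n 2 (.l 0) (.l 0)) (.n 2 (.l 0) (.l 0))) (.n 2 (.l 0) (.l 0))) (.n 2 (.n 2 (.l 0) (.l 0)) (.n 0 (.l 0) (.l 0))))
    [(97352417280, 5726797824), (206158430208, 68719476736), (515396075520, 171798691840)] rfl (by decide +kernel)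
theorem A4_c0_t41 : CovD 1 gA4 [(97352417280, 5726797824), (206158430208, 68719476736), (1030792151040, 343597383680)] :=
  covD_E kA4_eq (.n 1 (.n 2 (.n 1 (.n 2 (.l 0) (.l 0)) (.n 2 (.l 0) (.l 0))) (.n 2 (.l 0) (.l 0))) (.n 2 (.n 2 (.l 0) (.l 0)) (.n 2 (.l 0) (.l 0))))
    [(97352417280, 5726797824), (206158430208, 68719476736), (1030792151040, 343597383680)] rfl (by decide +kernel)
end

mutual
theorem A4_c0_t44 : CovD 1 gA4 [(108806012928, 5726797824), (206158430208, 68719476736), (171798691840, 171798691840)] :=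
  covD_E kA4_eq (.n 2 (.n 2 (.l 2) (.n 1 (.n 1 (.l 0) (.l 0)) (.n 0 (.l 0) (.l 0)))) (.n 1 (.n 0 (.n 2 (.l 0) (.l 0)) (.n 2 (.l 0) (.l 0))) (.n 2 (.n 0 (.l 0) (.l 0)) (.l 0))))
    [(108806012928, 5726797824), (206158430208, 68719476736), (171798691840, 171798691840)] rfl (by decide +kernel)
theorem A4_c0_t45 : CovD 1 gA4 [(108806012928, 5726797824), (206158430208, 68719476736), (515396075520, 171798691840)] :=
  covD_E kA4_eq (.n 1 (.n 2 (.n 0 (.n 2 (.l 0) (.l 0)) (.n 2 (.l 0) (.l 0))) (.n 2 (.l 0) (.l 0))) (.n 2 (.n 2 (.l 0) (.l 0)) (.n 0 (.l 0) (.l 0))))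
    [(108806012928, 5726797824), (206158430208, 68719476736), (515396075520, 171798691840)] rfl (by decide +kernel)
end

mutual
theorem A4_c0_t46 : CovD 1 gA4 [(108806012928, 5726797824), (206158430208, 68719476736), (1030792151040, 343597383680)] :=
  covD_E kA4_eq (.n 1 (.n 2 (.n 1 (.n 2 (.l 0) (.l 0)) (.n 2 (.l 0) (.l 0))) (.n 2 (.l 0) (.l 0))) (.n 2 (.n 2 (.l 0) (.l 0)) (.n 2 (.l 0) (.l 0))))
    [(108806012928, 5726797824), (206158430208, 68719476736), (1030792151040, 343597383680)] rfl (by decide +kernel)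
theorem A4_c0_t52 : CovD 1 gA4 [(125986406400, 11453595648), (68719476736, 68719476736), (42949672960, 42949672960)] :=
  covD_E kA4_eq (.l 2)
    [(125986406400, 11453595648), (68719476736, 68719476736), (42949672960, 42949672960)] rfl (by decide +kernel)
end

mutual
theorem A4_c0_t55 : CovD 1 gA4 [(125986406400, 11453595648), (34359738368, 34359738368), (107374182400, 21474836480)] :=
  covD_E kA4_eq (.l 2)
    [(125986406400, 11453595648), (34359738368, 34359738368), (107374182400, 21474836480)] rfl (by decide +kernel)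
theorem A4_c0_t57 : CovD 1 gA4 [(125986406400, 11453595648), (34359738368, 34359738368), (139586437120, 10737418240)] :=
  covD_E kA4_eq (.n 1 (.n 0 (.n 1 (.n 1 (.l 0) (.l 0)) (.n 1 (.l 0) (.l 0))) (.n 1 (.n 1 (.l 0) (.l 0)) (.n 1 (.l 0) (.l 0)))) (.n 1 (.n 0 (.l 0) (.n 0 (.l 0) (.l 0))) (.l 0)))
    [(125986406400, 11453595648), (34359738368, 34359738368), (139586437120, 10737418240)] rfl (by decide +kernel)
end

mutual
theorem A4_c0_t58 : CovD 1 gA4 [(125986406400, 11453595648), (34359738368, 34359738368), (161061273600, 10737418240)] :=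
  covD_E kA4_eq (.n 1 (.n 0 (.n 1 (.n 1 (.l 0) (.l 0)) (.n 1 (.l 0) (.l 0))) (.n 1 (.n 1 (.l 0) (.l 0)) (.n 1 (.l 0) (.l 0)))) (.n 1 (.n 0 (.l 0) (.l 0)) (.l 0)))
    [(125986406400, 11453595648), (34359738368, 34359738368), (161061273600, 10737418240)] rfl (by decide +kernel)
theorem A4_c0_t59 : CovD 1 gA4 [(125986406400, 11453595648), (103079215104, 34359738368), (128849018880, 42949672960)] :=
  covD_E kA4_eq (.n 1 (.n 2 (.l 2) (.n 0 (.l 0) (.l 0))) (.n 2 (.l 0) (.l 0)))
    [(125986406400, 11453595648), (103079215104, 34359738368), (128849018880, 42949672960)] rfl (by decide +kernel)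
end

mutual
theorem A4_c0_t63 : CovD 1 gA4 [(125986406400, 11453595648), (8589934592, 8589934592), (257698037760, 85899345920)] :=
  covD_E kA4_eq (.n 0 (.n 2 (.n 1 (.n 2 (.l 0) (.l 0)) (.n 2 (.l 0) (.l 0))) (.n 2 (.l 0) (.l 0))) (.n 2 (.n 1 (.n 2 (.n 0 (.l 0) (.l 0)) (.l 0)) (.n 2 (.l 0) (.l 0))) (.n 2 (.n 0 (.l 0) (.l 0)) (.l 0))))
    [(125986406400, 11453595648), (8589934592, 8589934592), (257698037760, 85899345920)] rfl (by decide +kernel)
theorem A4_c0_t64 : CovD 1 gA4 [(125986406400, 11453595648), (25769803776, 8589934592), (257698037760, 85899345920)] :=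
  covD_E kA4_eq (.n 0 (.n 2 (.n 1 (.n 2 (.l 0) (.l 0)) (.n 2 (.n 0 (.l 0) (.l 0)) (.l 0))) (.n 2 (.l 0) (.l 0))) (.n 2 (.n 2 (.n 2 (.n 1 (.l 0) (.l 0)) (.l 0)) (.n 0 (.l 0) (.l 0))) (.n 2 (.l 0) (.l 0))))
    [(125986406400, 11453595648), (25769803776, 8589934592), (257698037760, 85899345920)] rfl (by decide +kernel)
end

mutual
theorem A4_c0_t66 : CovD 1 gA4 [(120259608576, 5726797824), (51539607552, 17179869184), (257698037760, 85899345920)] :=
  covD_E kA4_eq (.n 1 (.n 2 (.n 1 (.n 2 (.l 0) (.l 0)) (.n 2 (.l 0) (.l 0))) (.n 2 (.l 0) (.l 0))) (.n 2 (.n 2 (.l 0) (.l 0)) (.n 2 (.l 0) (.l 0))))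
    [(120259608576, 5726797824), (51539607552, 17179869184), (257698037760, 85899345920)] rfl (by decide +kernel)
theorem A4_c0_t67 : CovD 1 gA4 [(131713204224, 5726797824), (51539607552, 17179869184), (257698037760, 85899345920)] :=
  covD_E kA4_eq (.n 1 (.n 2 (.n 2 (.n 2 (.l 0) (.l 0)) (.n 0 (.l 0) (.l 0))) (.n 2 (.l 0) (.l 0))) (.n 2 (.n 2 (.n 0 (.l 0) (.l 0)) (.l 0)) (.n 2 (.l 0) (.l 0))))
    [(131713204224, 5726797824), (51539607552, 17179869184), (257698037760, 85899345920)] rfl (by decide +kernel)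
end

mutual
theorem A4_c0_t68 : CovD 1 gA4 [(125986406400, 11453595648), (103079215104, 34359738368), (257698037760, 85899345920)] :=
  covD_E kA4_eq (.n 1 (.n 1 (.n 2 (.n 0 (.n 2 (.l 0) (.l 0)) (.n 2 (.l 0) (.l 0))) (.n 2 (.n 0 (.l 0) (.l 0)) (.l 0))) (.n 2 (.n 2 (.l 0) (.l 0)) (.n 2 (.l 0) (.l 0)))) (.n 2 (.n 2 (.l 0) (.l 0)) (.n 2 (.l 0) (.l 0))))
    [(125986406400, 11453595648), (103079215104, 34359738368), (257698037760, 85899345920)] rfl (by decide +kernel)
theorem A4_c0_t71 : CovD 1 gA4 [(120259608576, 5726797824), (34359738368, 34359738368), (515396075520, 171798691840)] :=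
  covD_E kA4_eq (.n 1 (.n 2 (.n 1 (.n 2 (.n 0 (.l 0) (.l 0)) (.l 0)) (.n 2 (.n 0 (.l 0) (.l 0)) (.l 0))) (.n 2 (.l 0) (.l 0))) (.n 2 (.n 2 (.n 2 (.l 0) (.l 0)) (.n 1 (.l 0) (.l 0))) (.n 2 (.n 0 (.l 0) (.l 0)) (.l 0))))
    [(120259608576, 5726797824), (34359738368, 34359738368), (515396075520, 171798691840)] rfl (by decide +kernel)
end

mutual
theorem A4_c0_t72 : CovD 1 gA4 [(131713204224, 5726797824), (34359738368, 34359738368), (515396075520, 171798691840)] :=
  covD_E kA4_eq (.n 1 (.n 2 (.n 1 (.n 2 (.n 1 (.l 0) (.l 0)) (.l 0)) (.n 2 (.n 1 (.l 0) (.l 0)) (.l 0))) (.n 2 (.n 0 (.l 0) (.l 0)) (.l 0))) (.n 2 (.n 2 (.n 2 (.l 0) (.l 0)) (.n 1 (.l 0) (.l 0))) (.n 2 (.n 0 (.l 0) (.l 0)) (.l 0))))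
    [(131713204224, 5726797824), (34359738368, 34359738368), (515396075520, 171798691840)] rfl (by decide +kernel)
theorem A4_c0_t74 : CovD 1 gA4 [(125986406400, 11453595648), (85899345920, 17179869184), (515396075520, 171798691840)] :=
  covD_E kA4_eq (.n 0 (.n 2 (.n 2 (.n 1 (.l 0) (.l 0)) (.l 0)) (.n 2 (.l 0) (.l 0))) (.n 2 (.n 1 (.n 2 (.l 0) (.l 0)) (.n 2 (.l 0) (.l 0))) (.n 2 (.l 0) (.l 0))))
    [(125986406400, 11453595648), (85899345920, 17179869184), (515396075520, 171798691840)] rfl (by decide +kernel)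
end

mutual
theorem A4_c0_t75 : CovD 1 gA4 [(125986406400, 11453595648), (120259084288, 17179869184), (515396075520, 171798691840)] :=
  covD_E kA4_eq (.n 2 (.n 2 (.n 2 (.l 0) (.l 0)) (.n 0 (.l 0) (.l 0))) (.n 0 (.n 2 (.l 0) (.l 0)) (.n 2 (.l 0) (.l 0))))
    [(125986406400, 11453595648), (120259084288, 17179869184), (515396075520, 171798691840)] rfl (by decide +kernel)
theorem A4_c0_t77 : CovD 1 gA4 [(120259608576, 5726797824), (68719476736, 68719476736), (1030792151040, 343597383680)] :=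
  covD_E kA4_eq (.n 1 (.n 2 (.n 2 (.n 2 (.n 0 (.l 0) (.l 0)) (.l 0)) (.n 0 (.l 0) (.l 0))) (.n 2 (.l 0) (.l 0))) (.n 2 (.n 2 (.n 2 (.n 0 (.l 0) (.l 0)) (.l 0)) (.n 1 (.l 0) (.l 0))) (.n 2 (.l 0) (.l 0))))
    [(120259608576, 5726797824), (68719476736, 68719476736), (1030792151040, 343597383680)] rfl (by decide +kernel)
end

mutual
theorem A4_c0_t79 : CovD 1 gA4 [(131713204224, 5726797824), (34359738368, 34359738368), (1030792151040, 343597383680)] :=
  covD_E kA4_eq (.n 2 (.n 1 (.n 2 (.n 0 (.l 0) (.l 0)) (.l 0)) (.n 2 (.n 2 (.l 0) (.l 0)) (.l 0))) (.n 2 (.l 0) (.l 0)))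
    [(131713204224, 5726797824), (34359738368, 34359738368), (1030792151040, 343597383680)] rfl (by decide +kernel)
theorem A4_c0_t80 : CovD 1 gA4 [(131713204224, 5726797824), (103079215104, 34359738368), (1030792151040, 343597383680)] :=
  covD_E kA4_eq (.n 2 (.n 1 (.n 2 (.n 2 (.l 0) (.l 0)) (.l 0)) (.n 2 (.n 0 (.l 0) (.l 0)) (.l 0))) (.n 2 (.n 0 (.l 0) (.l 0)) (.l 0)))
    [(131713204224, 5726797824), (103079215104, 34359738368), (1030792151040, 343597383680)] rfl (by decide +kernel)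
end

mutual
theorem A4_c0_t84 : CovD 1 gA4 [(125986406400, 11453595648), (171798691840, 34359738368), (171798691840, 171798691840)] :=
  covD_E kA4_eq (.n 2 (.n 2 (.l 2) (.n 0 (.n 1 (.l 0) (.l 0)) (.n 1 (.l 0) (.l 0)))) (.n 0 (.n 0 (.n 2 (.l 0) (.l 0)) (.n 2 (.l 0) (.l 0))) (.n 1 (.n 2 (.l 0) (.l 0)) (.n 2 (.l 0) (.l 0)))))
    [(125986406400, 11453595648), (171798691840, 34359738368), (171798691840, 171798691840)] rfl (by decide +kernel)
theorem A4_c0_t85 : CovD 1 gA4 [(125986406400, 11453595648), (171798691840, 34359738368), (515396075520, 171798691840)] :=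
  covD_E kA4_eq (.n 1 (.n 2 (.n 0 (.n 2 (.l 0) (.l 0)) (.n 2 (.l 0) (.l 0))) (.n 2 (.l 0) (.l 0))) (.n 2 (.n 2 (.n 0 (.l 0) (.l 0)) (.l 0)) (.n 2 (.l 0) (.l 0))))
    [(125986406400, 11453595648), (171798691840, 34359738368), (515396075520, 171798691840)] rfl (by decide +kernel)
end

mutual
theorem A4_c0_t86 : CovD 1 gA4 [(125986406400, 11453595648), (171798691840, 34359738368), (1030792151040, 343597383680)] :=
  covD_E kA4_eq (.n 0 (.n 2 (.n 1 (.n 2 (.l 0) (.l 0)) (.n 2 (.l 0) (.l 0))) (.n 2 (.l 0) (.l 0))) (.n 2 (.n 2 (.n 2 (.l 0) (.l 0)) (.n 0 (.l 0) (.l 0))) (.n 2 (.l 0) (.l 0))))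
    [(125986406400, 11453595648), (171798691840, 34359738368), (1030792151040, 343597383680)] rfl (by decide +kernel)
theorem A4_c0_t89 : CovD 1 gA4 [(125986406400, 11453595648), (240518168576, 34359738368), (171798691840, 171798691840)] :=
  covD_E kA4_eq (.n 2 (.n 2 (.n 2 (.l 0) (.l 2)) (.n 0 (.n 0 (.l 0) (.l 0)) (.n 0 (.l 0) (.l 0)))) (.n 0 (.n 2 (.n 0 (.l 0) (.l 0)) (.l 0)) (.n 2 (.n 0 (.l 0) (.l 0)) (.l 0))))
    [(125986406400, 11453595648), (240518168576, 34359738368), (171798691840, 171798691840)] rfl (by decide +kernel)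
end

mutual
theorem A4_c0_t90 : CovD 1 gA4 [(125986406400, 11453595648), (240518168576, 34359738368), (515396075520, 171798691840)] :=
  covD_E kA4_eq (.n 0 (.n 2 (.n 2 (.l 0) (.l 0)) (.n 1 (.l 0) (.l 0))) (.n 2 (.n 2 (.l 0) (.l 0)) (.n 1 (.l 0) (.l 0))))
    [(125986406400, 11453595648), (240518168576, 34359738368), (515396075520, 171798691840)] rfl (by decide +kernel)
theorem A4_c0_t91 : CovD 1 gA4 [(125986406400, 11453595648), (240518168576, 34359738368), (1030792151040, 343597383680)] :=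
  covD_E kA4_eq (.n 0 (.n 2 (.n 2 (.l 0) (.l 0)) (.n 2 (.l 0) (.l 0))) (.n 2 (.n 2 (.l 0) (.l 0)) (.n 2 (.l 0) (.l 0))))
    [(125986406400, 11453595648), (240518168576, 34359738368), (1030792151040, 343597383680)] rfl (by decide +kernel)
end

mutual
theorem A4_c0_t95 : CovD 1 gA4 [(97352417280, 5726797824), (68719476736, 68719476736), (2061584302080, 687194767360)] :=
  covD_E kA4_eq (.n 2 (.n 2 (.n 2 (.n 0 (.l 0) (.l 0)) (.l 0)) (.n 0 (.l 0) (.l 0))) (.n 2 (.n 0 (.l 0) (.l 0)) (.l 0)))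
    [(97352417280, 5726797824), (68719476736, 68719476736), (2061584302080, 687194767360)] rfl (by decide +kernel)
theorem A4_c0_t96 : CovD 1 gA4 [(108806012928, 5726797824), (68719476736, 68719476736), (2061584302080, 687194767360)] :=
  covD_E kA4_eq (.n 2 (.n 1 (.n 2 (.n 0 (.l 0) (.l 0)) (.l 0)) (.n 2 (.n 0 (.l 0) (.l 0)) (.l 0))) (.n 2 (.n 0 (.l 0) (.l 0)) (.l 0)))
    [(108806012928, 5726797824), (68719476736, 68719476736), (2061584302080, 687194767360)] rfl (by decide +kernel)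
end

mutual
theorem A4_c0_t98 : CovD 1 gA4 [(125986406400, 11453595648), (68719476736, 68719476736), (1717986918400, 343597383680)] :=
  covD_E kA4_eq (.n 1 (.n 2 (.n 2 (.n 0 (.l 0) (.l 0)) (.l 0)) (.n 0 (.l 0) (.l 0))) (.n 0 (.n 2 (.n 0 (.l 0) (.l 0)) (.l 0)) (.n 2 (.n 0 (.l 0) (.l 0)) (.l 0))))
    [(125986406400, 11453595648), (68719476736, 68719476736), (1717986918400, 343597383680)] rfl (by decide +kernel)
theorem A4_c0_t99 : CovD 1 gA4 [(125986406400, 11453595648), (68719476736, 68719476736), (2405181685760, 343597383680)] :=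
  covD_E kA4_eq (.n 0 (.n 2 (.n 0 (.l 0) (.l 0)) (.l 0)) (.n 0 (.n 2 (.l 0) (.l 0)) (.n 2 (.l 0) (.l 0))))
    [(125986406400, 11453595648), (68719476736, 68719476736), (2405181685760, 343597383680)] rfl (by decide +kernel)
end

mutual
theorem A4_c0_t101 : CovD 1 gA4 [(103079215104, 11453595648), (206158430208, 68719476736), (2061584302080, 687194767360)] :=
  covD_E kA4_eq (.n 0 (.n 2 (.n 2 (.n 2 (.n 0 (.l 0) (.l 0)) (.l 0)) (.n 0 (.l 0) (.l 0))) (.n 2 (.n 0 (.l 0) (.l 0)) (.l 0))) (.n 2 (.n 2 (.n 2 (.n 0 (.l 0) (.l 0)) (.l 0)) (.n 0 (.l 0) (.l 0))) (.n 2 (.n 0 (.l 0) (.l 0)) (.l 0))))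
    [(103079215104, 11453595648), (206158430208, 68719476736), (2061584302080, 687194767360)] rfl (by decide +kernel)
theorem A4_c0_t102 : CovD 1 gA4 [(125986406400, 11453595648), (206158430208, 68719476736), (2061584302080, 687194767360)] :=
  covD_E kA4_eq (.n 2 (.n 1 (.n 2 (.n 2 (.n 0 (.l 0) (.l 0)) (.l 0)) (.n 0 (.l 0) (.l 0))) (.n 2 (.n 2 (.l 0) (.l 0)) (.n 0 (.l 0) (.l 0)))) (.n 0 (.n 2 (.n 0 (.l 0) (.l 0)) (.l 0)) (.n 2 (.n 0 (.l 0) (.l 0)) (.l 0))))
    [(125986406400, 11453595648), (206158430208, 68719476736), (2061584302080, 687194767360)] rfl (by decide +kernel)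
end

theorem A4_c0_t10 : CovD 1 gA4 [(103079215104, 11453595648), (17179869184, 17179869184), (128849018880, 42949672960)] :=
  covD_split 2 (by decide +kernel) A4_c0_t11 A4_c0_t12

theorem A4_c0_t8 : CovD 1 gA4 [(103079215104, 11453595648), (17179869184, 17179869184), (85899345920, 85899345920)] :=
  covD_split 2 (by decide +kernel) A4_c0_t9 A4_c0_t10

theorem A4_c0_t13 : CovD 1 gA4 [(103079215104, 11453595648), (17179869184, 17179869184), (257698037760, 85899345920)] :=
  covD_split 0 (by decide +kernel) A4_c0_t14 A4_c0_t15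

theorem A4_c0_t7 : CovD 1 gA4 [(103079215104, 11453595648), (17179869184, 17179869184), (171798691840, 171798691840)] :=
  covD_split 2 (by decide +kernel) A4_c0_t8 A4_c0_t13

theorem A4_c0_t6 : CovD 1 gA4 [(103079215104, 11453595648), (17179869184, 17179869184), (343597383680, 343597383680)] :=
  covD_split 2 (by decide +kernel) A4_c0_t7 A4_c0_t16

theorem A4_c0_t20 : CovD 1 gA4 [(103079215104, 11453595648), (51539607552, 17179869184), (257698037760, 85899345920)] :=
  covD_split 0 (by decide +kernel) A4_c0_t21 A4_c0_t22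

theorem A4_c0_t18 : CovD 1 gA4 [(103079215104, 11453595648), (51539607552, 17179869184), (171798691840, 171798691840)] :=
  covD_split 2 (by decide +kernel) A4_c0_t19 A4_c0_t20

theorem A4_c0_t17 : CovD 1 gA4 [(103079215104, 11453595648), (51539607552, 17179869184), (343597383680, 343597383680)] :=
  covD_split 2 (by decide +kernel) A4_c0_t18 A4_c0_t23

theorem A4_c0_t5 : CovD 1 gA4 [(103079215104, 11453595648), (34359738368, 34359738368), (343597383680, 343597383680)] :=
  covD_split 1 (by decide +kernel) A4_c0_t6 A4_c0_t17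

theorem A4_c0_t4 : CovD 1 gA4 [(103079215104, 11453595648), (34359738368, 34359738368), (687194767360, 687194767360)] :=
  covD_split 2 (by decide +kernel) A4_c0_t5 A4_c0_t24

theorem A4_c0_t27 : CovD 1 gA4 [(97352417280, 5726797824), (103079215104, 34359738368), (343597383680, 343597383680)] :=
  covD_split 2 (by decide +kernel) A4_c0_t28 A4_c0_t29

theorem A4_c0_t26 : CovD 1 gA4 [(97352417280, 5726797824), (103079215104, 34359738368), (687194767360, 687194767360)] :=
  covD_split 2 (by decide +kernel) A4_c0_t27 A4_c0_t30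

theorem A4_c0_t32 : CovD 1 gA4 [(108806012928, 5726797824), (103079215104, 34359738368), (343597383680, 343597383680)] :=
  covD_split 2 (by decide +kernel) A4_c0_t33 A4_c0_t34

theorem A4_c0_t31 : CovD 1 gA4 [(108806012928, 5726797824), (103079215104, 34359738368), (687194767360, 687194767360)] :=
  covD_split 2 (by decide +kernel) A4_c0_t32 A4_c0_t35

theorem A4_c0_t25 : CovD 1 gA4 [(103079215104, 11453595648), (103079215104, 34359738368), (687194767360, 687194767360)] :=
  covD_split 0 (by decide +kernel) A4_c0_t26 A4_c0_t31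

theorem A4_c0_t3 : CovD 1 gA4 [(103079215104, 11453595648), (68719476736, 68719476736), (687194767360, 687194767360)] :=
  covD_split 1 (by decide +kernel) A4_c0_t4 A4_c0_t25

theorem A4_c0_t38 : CovD 1 gA4 [(97352417280, 5726797824), (206158430208, 68719476736), (343597383680, 343597383680)] :=
  covD_split 2 (by decide +kernel) A4_c0_t39 A4_c0_t40

theorem A4_c0_t37 : CovD 1 gA4 [(97352417280, 5726797824), (206158430208, 68719476736), (687194767360, 687194767360)] :=
  covD_split 2 (by decide +kernel) A4_c0_t38 A4_c0_t41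

theorem A4_c0_t43 : CovD 1 gA4 [(108806012928, 5726797824), (206158430208, 68719476736), (343597383680, 343597383680)] :=
  covD_split 2 (by decide +kernel) A4_c0_t44 A4_c0_t45

theorem A4_c0_t42 : CovD 1 gA4 [(108806012928, 5726797824), (206158430208, 68719476736), (687194767360, 687194767360)] :=
  covD_split 2 (by decide +kernel) A4_c0_t43 A4_c0_t46

theorem A4_c0_t36 : CovD 1 gA4 [(103079215104, 11453595648), (206158430208, 68719476736), (687194767360, 687194767360)] :=
  covD_split 0 (by decide +kernel) A4_c0_t37 A4_c0_t42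

theorem A4_c0_t2 : CovD 1 gA4 [(103079215104, 11453595648), (137438953472, 137438953472), (687194767360, 687194767360)] :=
  covD_split 1 (by decide +kernel) A4_c0_t3 A4_c0_t36

theorem A4_c0_t56 : CovD 1 gA4 [(125986406400, 11453595648), (34359738368, 34359738368), (150323855360, 21474836480)] :=
  covD_split 2 (by decide +kernel) A4_c0_t57 A4_c0_t58

theorem A4_c0_t54 : CovD 1 gA4 [(125986406400, 11453595648), (34359738368, 34359738368), (128849018880, 42949672960)] :=
  covD_split 2 (by decide +kernel) A4_c0_t55 A4_c0_t56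

theorem A4_c0_t53 : CovD 1 gA4 [(125986406400, 11453595648), (68719476736, 68719476736), (128849018880, 42949672960)] :=
  covD_split 1 (by decide +kernel) A4_c0_t54 A4_c0_t59

theorem A4_c0_t51 : CovD 1 gA4 [(125986406400, 11453595648), (68719476736, 68719476736), (85899345920, 85899345920)] :=
  covD_split 2 (by decide +kernel) A4_c0_t52 A4_c0_t53

theorem A4_c0_t62 : CovD 1 gA4 [(125986406400, 11453595648), (17179869184, 17179869184), (257698037760, 85899345920)] :=
  covD_split 1 (by decide +kernel) A4_c0_t63 A4_c0_t64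

theorem A4_c0_t65 : CovD 1 gA4 [(125986406400, 11453595648), (51539607552, 17179869184), (257698037760, 85899345920)] :=
  covD_split 0 (by decide +kernel) A4_c0_t66 A4_c0_t67

theorem A4_c0_t61 : CovD 1 gA4 [(125986406400, 11453595648), (34359738368, 34359738368), (257698037760, 85899345920)] :=
  covD_split 1 (by decide +kernel) A4_c0_t62 A4_c0_t65

theorem A4_c0_t60 : CovD 1 gA4 [(125986406400, 11453595648), (68719476736, 68719476736), (257698037760, 85899345920)] :=
  covD_split 1 (by decide +kernel) A4_c0_t61 A4_c0_t68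

theorem A4_c0_t50 : CovD 1 gA4 [(125986406400, 11453595648), (68719476736, 68719476736), (171798691840, 171798691840)] :=
  covD_split 2 (by decide +kernel) A4_c0_t51 A4_c0_t60

theorem A4_c0_t70 : CovD 1 gA4 [(125986406400, 11453595648), (34359738368, 34359738368), (515396075520, 171798691840)] :=
  covD_split 0 (by decide +kernel) A4_c0_t71 A4_c0_t72

theorem A4_c0_t73 : CovD 1 gA4 [(125986406400, 11453595648), (103079215104, 34359738368), (515396075520, 171798691840)] :=
  covD_split 1 (by decide +kernel) A4_c0_t74 A4_c0_t75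

theorem A4_c0_t69 : CovD 1 gA4 [(125986406400, 11453595648), (68719476736, 68719476736), (515396075520, 171798691840)] :=
  covD_split 1 (by decide +kernel) A4_c0_t70 A4_c0_t73

theorem A4_c0_t49 : CovD 1 gA4 [(125986406400, 11453595648), (68719476736, 68719476736), (343597383680, 343597383680)] :=
  covD_split 2 (by decide +kernel) A4_c0_t50 A4_c0_t69

theorem A4_c0_t78 : CovD 1 gA4 [(131713204224, 5726797824), (68719476736, 68719476736), (1030792151040, 343597383680)] :=
  covD_split 1 (by decide +kernel) A4_c0_t79 A4_c0_t80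

theorem A4_c0_t76 : CovD 1 gA4 [(125986406400, 11453595648), (68719476736, 68719476736), (1030792151040, 343597383680)] :=
  covD_split 0 (by decide +kernel) A4_c0_t77 A4_c0_t78

theorem A4_c0_t48 : CovD 1 gA4 [(125986406400, 11453595648), (68719476736, 68719476736), (687194767360, 687194767360)] :=
  covD_split 2 (by decide +kernel) A4_c0_t49 A4_c0_t76

theorem A4_c0_t83 : CovD 1 gA4 [(125986406400, 11453595648), (171798691840, 34359738368), (343597383680, 343597383680)] :=
  covD_split 2 (by decide +kernel) A4_c0_t84 A4_c0_t85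

theorem A4_c0_t82 : CovD 1 gA4 [(125986406400, 11453595648), (171798691840, 34359738368), (687194767360, 687194767360)] :=
  covD_split 2 (by decide +kernel) A4_c0_t83 A4_c0_t86

theorem A4_c0_t88 : CovD 1 gA4 [(125986406400, 11453595648), (240518168576, 34359738368), (343597383680, 343597383680)] :=
  covD_split 2 (by decide +kernel) A4_c0_t89 A4_c0_t90

theorem A4_c0_t87 : CovD 1 gA4 [(125986406400, 11453595648), (240518168576, 34359738368), (687194767360, 687194767360)] :=
  covD_split 2 (by decide +kernel) A4_c0_t88 A4_c0_t91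

theorem A4_c0_t81 : CovD 1 gA4 [(125986406400, 11453595648), (206158430208, 68719476736), (687194767360, 687194767360)] :=
  covD_split 1 (by decide +kernel) A4_c0_t82 A4_c0_t87

theorem A4_c0_t47 : CovD 1 gA4 [(125986406400, 11453595648), (137438953472, 137438953472), (687194767360, 687194767360)] :=
  covD_split 1 (by decide +kernel) A4_c0_t48 A4_c0_t81

theorem A4_c0_t1 : CovD 1 gA4 [(114532810752, 22907191296), (137438953472, 137438953472), (687194767360, 687194767360)] :=
  covD_split 0 (by decide +kernel) A4_c0_t2 A4_c0_t47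

theorem A4_c0_t94 : CovD 1 gA4 [(103079215104, 11453595648), (68719476736, 68719476736), (2061584302080, 687194767360)] :=
  covD_split 0 (by decide +kernel) A4_c0_t95 A4_c0_t96

theorem A4_c0_t97 : CovD 1 gA4 [(125986406400, 11453595648), (68719476736, 68719476736), (2061584302080, 687194767360)] :=
  covD_split 2 (by decide +kernel) A4_c0_t98 A4_c0_t99

theorem A4_c0_t93 : CovD 1 gA4 [(114532810752, 22907191296), (68719476736, 68719476736), (2061584302080, 687194767360)] :=
  covD_split 0 (by decide +kernel) A4_c0_t94 A4_c0_t97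

theorem A4_c0_t100 : CovD 1 gA4 [(114532810752, 22907191296), (206158430208, 68719476736), (2061584302080, 687194767360)] :=
  covD_split 0 (by decide +kernel) A4_c0_t101 A4_c0_t102

theorem A4_c0_t92 : CovD 1 gA4 [(114532810752, 22907191296), (137438953472, 137438953472), (2061584302080, 687194767360)] :=
  covD_split 1 (by decide +kernel) A4_c0_t93 A4_c0_t100

theorem A4_c0 : CovD 1 gA4 [(114532810752, 22907191296), (137438953472, 137438953472), (1374389534720, 1374389534720)] :=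
  covD_split 2 (by decide +kernel) A4_c0_t1 A4_c0_t92

end Pool.Agent.helper14.NR.E8a
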