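import Pool.Agent.helper14.NR.E8a.PN4

/-!
Generated: certificates.
-/

namespace Pool.Agent.helper14.NR.E8a

open Pool.Agent.helper31.IA (Z)
open Pool.Agent.helper31.IX (Op XOps runX Cov CovD cov_split covD_split)
open Pool.Agent.helper31.IC (TD)
open Pool.Agent.helper63.RG (reloc)
open Pool.Agent.helper63.NF hiding TD
open Pool.Agent.helper14.CF (xE covD_E)
open Pool.Agent.helper14.NR (share)

mutual
theorem A4_c1_t3 : CovD 1 gA4 [(97352417280, 5726797824), (137438953472, 137438953472), (3435973836800, 687194767360)] :=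
  covD_E kA4_eq (.n 1 (.n 1 (.n 2 (.l 0) (.l 0)) (.n 2 (.l 0) (.l 0))) (.n 0 (.n 2 (.l 0) (.l 0)) (.n 2 (.l 0) (.l 0))))
    [(97352417280, 5726797824), (137438953472, 137438953472), (3435973836800, 687194767360)] rfl (by decide +kernel)
theorem A4_c1_t5 : CovD 1 gA4 [(94489018368, 2863398912), (137438953472, 137438953472), (4810363371520, 687194767360)] :=
  covD_E kA4_eq (.n 1 (.n 2 (.n 2 (.n 2 (.l 0) (.l 0)) (.n 0 (.n 2 (.n 0 (.l 1) (.l 0)) (.l 1)) (.n 2 (.l 0) (.l 1)))) (.l 1)) (.n 2 (.n 0 (.n 2 (.l 0) (.n 2 (.n 2 (.l 0) (.l 1)) (.l 1))) (.n 2 (.l 0) (.n 2 (.l 0) (.l 0)))) (.l 1)))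
    [(94489018368, 2863398912), (137438953472, 137438953472), (4810363371520, 687194767360)] rfl (by decide +kernel)
end

mutual
theorem A4_c1_t6 : CovD 1 gA4 [(100215816192, 2863398912), (137438953472, 137438953472), (4810363371520, 687194767360)] :=
  covD_E kA4_eq (.n 2 (.n 1 (.n 2 (.l 0) (.l 0)) (.n 2 (.l 0) (.l 0))) (.n 2 (.n 1 (.n 0 (.l 1) (.l 0)) (.n 2 (.l 0) (.l 1))) (.l 1)))
    [(100215816192, 2863398912), (137438953472, 137438953472), (4810363371520, 687194767360)] rfl (by decide +kernel)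
theorem A4_c1_t7 : CovD 1 gA4 [(108806012928, 5726797824), (137438953472, 137438953472), (4123168604160, 1374389534720)] :=
  covD_E kA4_eq (.n 1 (.n 2 (.n 1 (.n 2 (.l 0) (.l 0)) (.n 2 (.l 0) (.l 0))) (.n 2 (.l 0) (.n 2 (.l 0) (.l 0)))) (.n 2 (.n 0 (.n 2 (.l 0) (.l 0)) (.n 2 (.l 0) (.l 0))) (.n 2 (.l 0) (.n 0 (.l 0) (.l 0)))))
    [(108806012928, 5726797824), (137438953472, 137438953472), (4123168604160, 1374389534720)] rfl (by decide +kernel)
end

mutual
theorem A4_c1_t9 : CovD 1 gA4 [(120259608576, 5726797824), (137438953472, 137438953472), (4123168604160, 1374389534720)] :=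
  covD_E kA4_eq (.n 1 (.n 2 (.n 1 (.n 2 (.l 0) (.l 0)) (.n 2 (.l 0) (.l 0))) (.n 2 (.n 0 (.l 0) (.l 0)) (.l 0))) (.n 2 (.n 1 (.n 2 (.l 0) (.l 0)) (.n 2 (.l 0) (.l 0))) (.n 2 (.l 0) (.l 0))))
    [(120259608576, 5726797824), (137438953472, 137438953472), (4123168604160, 1374389534720)] rfl (by decide +kernel)
theorem A4_c1_t10 : CovD 1 gA4 [(131713204224, 5726797824), (137438953472, 137438953472), (4123168604160, 1374389534720)] :=
  covD_E kA4_eq (.n 1 (.n 2 (.n 1 (.n 2 (.l 0) (.l 0)) (.n 2 (.l 0) (.l 0))) (.n 2 (.n 0 (.l 0) (.l 0)) (.l 0))) (.n 2 (.n 1 (.n 2 (.l 0) (.l 0)) (.n 2 (.l 0) (.l 0))) (.n 2 (.l 0) (.l 0))))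
    [(131713204224, 5726797824), (137438953472, 137438953472), (4123168604160, 1374389534720)] rfl (by decide +kernel)
end

mutual
theorem A4_c2_t1 : CovD 1 gA4 [(103079215104, 11453595648), (137438953472, 137438953472), (8246337208320, 2748779069440)] :=
  covD_E kA4_eq (.n 0 (.n 2 (.n 2 (.n 2 (.l 1) (.l 1)) (.l 1)) (.l 1)) (.n 1 (.n 2 (.n 2 (.n 2 (.n 0 (.l 1) (.l 0)) (.l 1)) (.l 1)) (.l 1)) (.n 2 (.n 2 (.n 2 (.n 0 (.l 1) (.l 0)) (.l 1)) (.l 1)) (.l 1))))
    [(103079215104, 11453595648), (137438953472, 137438953472), (8246337208320, 2748779069440)] rfl (by decide +kernel)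
theorem A4_c2_t3 : CovD 1 gA4 [(120259608576, 5726797824), (137438953472, 137438953472), (8246337208320, 2748779069440)] :=
  covD_E kA4_eq (.n 2 (.n 1 (.n 1 (.n 2 (.l 0) (.l 0)) (.n 2 (.l 0) (.l 0))) (.n 2 (.n 0 (.l 0) (.l 0)) (.l 0))) (.n 2 (.n 1 (.l 1) (.l 0)) (.l 1)))
    [(120259608576, 5726797824), (137438953472, 137438953472), (8246337208320, 2748779069440)] rfl (by decide +kernel)
end

mutual
theorem A4_c2_t4 : CovD 1 gA4 [(131713204224, 5726797824), (137438953472, 137438953472), (8246337208320, 2748779069440)] :=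
  covD_E kA4_eq (.n 1 (.n 2 (.n 1 (.n 2 (.l 0) (.l 0)) (.n 2 (.l 0) (.l 0))) (.n 2 (.n 0 (.l 0) (.l 0)) (.l 0))) (.n 2 (.n 2 (.n 0 (.l 0) (.l 0)) (.l 0)) (.n 2 (.l 0) (.l 0))))
    [(131713204224, 5726797824), (137438953472, 137438953472), (8246337208320, 2748779069440)] rfl (by decide +kernel)
theorem B4_c0 : CovD 1 gB4 [(114532810752, 22907191296), (137438953472, 137438953472), (54975791104, 54975791104)] :=
  covD_E kB4_eq (.n 0 (.n 0 (.n 2 (.l 1) (.l 1)) (.n 2 (.l 1) (.l 1))) (.n 0 (.n 2 (.n 1 (.l 1) (.l 1)) (.n 2 (.l 1) (.l 1))) (.n 1 (.n 0 (.n 2 (.l 0) (.l 0)) (.n 2 (.l 0) (.l 0))) (.n 2 (.l 0) (.n 0 (.l 0) (.l 0))))))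
    [(114532810752, 22907191296), (137438953472, 137438953472), (54975791104, 54975791104)] rfl (by decide +kernel)
end

mutual
theorem C4_c0_t7 : CovD 1 gC4 [(97352417280, 5726797824), (8589934592, 8589934592), (274877906944, 274877906944)] :=
  covD_E kC4_eq (.n 2 (.n 2 (.l 0) (.l 0)) (.n 2 (.l 0) (.l 0)))
    [(97352417280, 5726797824), (8589934592, 8589934592), (274877906944, 274877906944)] rfl (by decide +kernel)
theorem C4_c0_t8 : CovD 1 gC4 [(97352417280, 5726797824), (8589934592, 8589934592), (824633720832, 274877906944)] :=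
  covD_E kC4_eq (.n 2 (.n 2 (.l 0) (.n 0 (.l 0) (.l 0))) (.n 1 (.n 2 (.l 0) (.n 1 (.n 2 (.l 0) (.n 2 (.l 0) (.n 2 (.l 0) (.n 2 (.l 0) (.n 0 (.n 0 (.l 1) (.l 1)) (.n 0 (.l 1) (.l 1))))))) (.l 0))) (.n 2 (.l 0) (.l 0))))
    [(97352417280, 5726797824), (8589934592, 8589934592), (824633720832, 274877906944)] rfl (by decide +kernel)
end

mutual
theorem C4_c0_t10 : CovD 1 gC4 [(108806012928, 5726797824), (8589934592, 8589934592), (274877906944, 274877906944)] :=
  covD_E kC4_eq (.n 2 (.n 2 (.l 0) (.l 0)) (.n 2 (.l 0) (.l 0)))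
    [(108806012928, 5726797824), (8589934592, 8589934592), (274877906944, 274877906944)] rfl (by decide +kernel)
theorem C4_c0_t11 : CovD 1 gC4 [(108806012928, 5726797824), (8589934592, 8589934592), (824633720832, 274877906944)] :=
  covD_E kC4_eq (.n 2 (.n 2 (.l 0) (.n 0 (.l 0) (.l 0))) (.n 1 (.n 2 (.l 0) (.n 1 (.n 2 (.l 0) (.n 2 (.l 0) (.n 2 (.l 0) (.n 2 (.l 0) (.n 0 (.n 0 (.l 1) (.l 1)) (.n 0 (.l 1) (.l 1))))))) (.l 0))) (.n 2 (.l 0) (.l 0))))
    [(108806012928, 5726797824), (8589934592, 8589934592), (824633720832, 274877906944)] rfl (by decide +kernel)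
end

mutual
theorem C4_c0_t12 : CovD 1 gC4 [(103079215104, 11453595648), (25769803776, 8589934592), (549755813888, 549755813888)] :=
  covD_E kC4_eq (.n 2 (.n 2 (.n 2 (.l 0) (.l 0)) (.n 2 (.l 0) (.l 0))) (.n 0 (.n 2 (.n 2 (.l 0) (.l 0)) (.n 2 (.l 0) (.n 0 (.l 0) (.l 0)))) (.n 2 (.n 2 (.l 0) (.l 0)) (.n 2 (.l 0) (.n 1 (.l 0) (.l 0))))))
    [(103079215104, 11453595648), (25769803776, 8589934592), (549755813888, 549755813888)] rfl (by decide +kernel)
theorem C4_c0_t13 : CovD 1 gC4 [(103079215104, 11453595648), (51539607552, 17179869184), (549755813888, 549755813888)] :=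
  covD_E kC4_eq (.n 2 (.n 2 (.n 2 (.l 0) (.l 0)) (.n 2 (.l 0) (.n 0 (.l 0) (.l 0)))) (.n 1 (.n 2 (.n 0 (.l 0) (.l 0)) (.n 2 (.l 0) (.n 0 (.l 0) (.l 0)))) (.n 0 (.n 2 (.l 0) (.l 0)) (.n 2 (.l 0) (.l 0)))))
    [(103079215104, 11453595648), (51539607552, 17179869184), (549755813888, 549755813888)] rfl (by decide +kernel)
end

mutual
theorem C4_c0_t14 : CovD 1 gC4 [(103079215104, 11453595648), (103079215104, 34359738368), (549755813888, 549755813888)] :=
  covD_E kC4_eq (.n 0 (.n 2 (.n 2 (.l 0) (.l 0)) (.n 1 (.n 2 (.l 0) (.l 0)) (.n 2 (.l 0) (.l 0)))) (.n 2 (.n 2 (.l 0) (.l 0)) (.n 1 (.n 2 (.l 0) (.l 0)) (.n 2 (.l 0) (.l 0)))))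
    [(103079215104, 11453595648), (103079215104, 34359738368), (549755813888, 549755813888)] rfl (by decide +kernel)
theorem C4_c0_t15 : CovD 1 gC4 [(103079215104, 11453595648), (206158430208, 68719476736), (549755813888, 549755813888)] :=
  covD_E kC4_eq (.n 0 (.n 2 (.n 2 (.l 0) (.l 0)) (.n 0 (.n 2 (.l 0) (.l 0)) (.n 2 (.l 0) (.l 0)))) (.n 2 (.n 2 (.l 0) (.l 0)) (.n 0 (.n 2 (.l 0) (.l 0)) (.n 2 (.l 0) (.l 0)))))
    [(103079215104, 11453595648), (206158430208, 68719476736), (549755813888, 549755813888)] rfl (by decide +kernel)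
end

mutual
theorem C4_c0_t21 : CovD 1 gC4 [(125986406400, 11453595648), (8589934592, 8589934592), (274877906944, 274877906944)] :=
  covD_E kC4_eq (.n 0 (.n 2 (.n 2 (.l 0) (.l 0)) (.n 2 (.l 0) (.l 0))) (.n 2 (.n 2 (.l 0) (.l 0)) (.n 2 (.l 0) (.l 0))))
    [(125986406400, 11453595648), (8589934592, 8589934592), (274877906944, 274877906944)] rfl (by decide +kernel)
theorem C4_c0_t24 : CovD 1 gC4 [(125986406400, 11453595648), (2147483648, 2147483648), (824633720832, 274877906944)] :=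
  covD_E kC4_eq (.n 2 (.n 2 (.l 0) (.l 0)) (.n 2 (.l 0) (.n 1 (.n 2 (.l 0) (.n 1 (.n 2 (.l 0) (.n 2 (.l 0) (.n 2 (.l 0) (.n 0 (.n 2 (.l 0) (.n 0 (.l 1) (.l 1))) (.n 0 (.l 1) (.l 1)))))) (.l 0))) (.l 0))))
    [(125986406400, 11453595648), (2147483648, 2147483648), (824633720832, 274877906944)] rfl (by decide +kernel)
end

mutual
theorem C4_c0_t25 : CovD 1 gC4 [(125986406400, 11453595648), (6442450944, 2147483648), (824633720832, 274877906944)] :=
  covD_E kC4_eq (.n 2 (.n 2 (.l 0) (.l 0)) (.n 2 (.l 0) (.l 0)))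
    [(125986406400, 11453595648), (6442450944, 2147483648), (824633720832, 274877906944)] rfl (by decide +kernel)
theorem C4_c0_t26 : CovD 1 gC4 [(125986406400, 11453595648), (12884901888, 4294967296), (824633720832, 274877906944)] :=
  covD_E kC4_eq (.n 2 (.n 2 (.l 0) (.n 0 (.l 0) (.l 0))) (.n 0 (.n 2 (.l 0) (.l 0)) (.n 2 (.l 0) (.l 0))))
    [(125986406400, 11453595648), (12884901888, 4294967296), (824633720832, 274877906944)] rfl (by decide +kernel)
end

mutual
theorem C4_c0_t27 : CovD 1 gC4 [(125986406400, 11453595648), (25769803776, 8589934592), (549755813888, 549755813888)] :=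
  covD_E kC4_eq (.n 2 (.n 2 (.n 2 (.l 0) (.l 0)) (.n 2 (.l 0) (.l 0))) (.n 2 (.n 2 (.l 0) (.n 0 (.l 0) (.l 0))) (.n 0 (.n 2 (.l 0) (.n 1 (.l 0) (.l 0))) (.n 1 (.n 2 (.l 0) (.l 0)) (.n 2 (.l 0) (.l 0))))))
    [(125986406400, 11453595648), (25769803776, 8589934592), (549755813888, 549755813888)] rfl (by decide +kernel)
theorem C4_c0_t28 : CovD 1 gC4 [(125986406400, 11453595648), (51539607552, 17179869184), (549755813888, 549755813888)] :=
  covD_E kC4_eq (.n 2 (.n 2 (.n 2 (.l 0) (.l 0)) (.n 2 (.l 0) (.l 0))) (.n 1 (.n 2 (.n 2 (.l 0) (.l 0)) (.n 2 (.l 0) (.n 0 (.l 0) (.l 0)))) (.n 0 (.n 2 (.l 0) (.l 0)) (.n 2 (.l 0) (.l 0)))))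
    [(125986406400, 11453595648), (51539607552, 17179869184), (549755813888, 549755813888)] rfl (by decide +kernel)
end

mutual
theorem C4_c0_t29 : CovD 1 gC4 [(125986406400, 11453595648), (103079215104, 34359738368), (549755813888, 549755813888)] :=
  covD_E kC4_eq (.n 1 (.n 2 (.n 2 (.l 0) (.l 0)) (.n 0 (.n 2 (.l 0) (.l 0)) (.n 2 (.l 0) (.l 0)))) (.n 2 (.n 2 (.l 0) (.l 0)) (.n 2 (.l 0) (.l 0))))
    [(125986406400, 11453595648), (103079215104, 34359738368), (549755813888, 549755813888)] rfl (by decide +kernel)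
theorem C4_c0_t30 : CovD 1 gC4 [(125986406400, 11453595648), (206158430208, 68719476736), (549755813888, 549755813888)] :=
  covD_E kC4_eq (.n 1 (.n 2 (.n 2 (.l 0) (.l 0)) (.n 0 (.n 2 (.l 0) (.l 0)) (.n 2 (.l 0) (.l 0)))) (.n 2 (.n 2 (.l 0) (.l 0)) (.n 2 (.l 0) (.n 0 (.l 0) (.l 0)))))
    [(125986406400, 11453595648), (206158430208, 68719476736), (549755813888, 549755813888)] rfl (by decide +kernel)
end

mutual
theorem D4_c0_t1 : CovD 1 gD4 [(103079215104, 11453595648), (137438953472, 137438953472), (863554764800, 863554764800)] :=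
  covD_E kD4_eq (.n 2 (.n 2 (.n 2 (.l 0) (.n 0 (.l 0) (.l 0))) (.n 0 (.n 1 (.l 0) (.l 0)) (.n 1 (.l 0) (.l 0)))) (.n 1 (.n 2 (.n 2 (.l 0) (.l 0)) (.n 2 (.l 0) (.l 0))) (.n 2 (.n 2 (.l 0) (.l 0)) (.n 2 (.l 0) (.l 0)))))
    [(103079215104, 11453595648), (137438953472, 137438953472), (863554764800, 863554764800)] rfl (by decide +kernel)
theorem D4_c0_t2 : CovD 1 gD4 [(125986406400, 11453595648), (137438953472, 137438953472), (863554764800, 863554764800)] :=
  covD_E kD4_eq (.n 2 (.n 2 (.n 2 (.l 0) (.n 0 (.l 0) (.l 0))) (.n 0 (.n 1 (.l 0) (.l 0)) (.n 2 (.l 0) (.l 0)))) (.n 1 (.n 2 (.n 2 (.l 0) (.l 0)) (.n 2 (.l 0) (.l 0))) (.n 2 (.n 2 (.l 0) (.l 0)) (.n 2 (.l 0) (.n 0 (.l 0) (.l 0))))))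
    [(125986406400, 11453595648), (137438953472, 137438953472), (863554764800, 863554764800)] rfl (by decide +kernel)
end

mutual
theorem E4_c0_t1 : CovD 1 gE4 [(114532810752, 22907191296), (137438953472, 137438953472), (431777382400, 431777382400)] :=
  covD_E kE4_eq (.n 0 (.n 2 (.l 1) (.n 0 (.l 1) (.l 1))) (.n 2 (.l 1) (.l 1)))
    [(114532810752, 22907191296), (137438953472, 137438953472), (431777382400, 431777382400)] rfl (by decide +kernel)
theorem E4_c0_t4 : CovD 1 gE4 [(97352417280, 5726797824), (137438953472, 137438953472), (1295332147200, 431777382400)] :=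
  covD_E kE4_eq (.n 2 (.n 2 (.l 1) (.n 0 (.n 0 (.l 1) (.l 1)) (.l 1))) (.n 0 (.n 2 (.n 2 (.n 2 (.l 0) (.l 0)) (.l 0)) (.n 2 (.l 0) (.l 0))) (.n 2 (.n 2 (.l 0) (.l 0)) (.l 0))))
    [(97352417280, 5726797824), (137438953472, 137438953472), (1295332147200, 431777382400)] rfl (by decide +kernel)
end

mutual
theorem E4_c0_t5 : CovD 1 gE4 [(108806012928, 5726797824), (137438953472, 137438953472), (1295332147200, 431777382400)] :=
  covD_E kE4_eq (.n 1 (.n 2 (.l 1) (.n 2 (.l 1) (.l 0))) (.n 2 (.l 1) (.n 2 (.l 1) (.l 0))))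
    [(108806012928, 5726797824), (137438953472, 137438953472), (1295332147200, 431777382400)] rfl (by decide +kernel)
theorem E4_c0_t6 : CovD 1 gE4 [(125986406400, 11453595648), (137438953472, 137438953472), (1295332147200, 431777382400)] :=
  covD_E kE4_eq (.n 0 (.n 2 (.l 1) (.n 2 (.l 1) (.n 1 (.l 0) (.l 0)))) (.n 2 (.l 1) (.n 0 (.l 1) (.l 1))))
    [(125986406400, 11453595648), (137438953472, 137438953472), (1295332147200, 431777382400)] rfl (by decide +kernel)
end

theorem A4_c1_t4 : CovD 1 gA4 [(97352417280, 5726797824), (137438953472, 137438953472), (4810363371520, 687194767360)] :=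
  covD_split 0 (by decide +kernel) A4_c1_t5 A4_c1_t6

theorem A4_c1_t2 : CovD 1 gA4 [(97352417280, 5726797824), (137438953472, 137438953472), (4123168604160, 1374389534720)] :=
  covD_split 2 (by decide +kernel) A4_c1_t3 A4_c1_t4

theorem A4_c1_t1 : CovD 1 gA4 [(103079215104, 11453595648), (137438953472, 137438953472), (4123168604160, 1374389534720)] :=
  covD_split 0 (by decide +kernel) A4_c1_t2 A4_c1_t7

theorem A4_c1_t8 : CovD 1 gA4 [(125986406400, 11453595648), (137438953472, 137438953472), (4123168604160, 1374389534720)] :=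
  covD_split 0 (by decide +kernel) A4_c1_t9 A4_c1_t10

theorem A4_c1 : CovD 1 gA4 [(114532810752, 22907191296), (137438953472, 137438953472), (4123168604160, 1374389534720)] :=
  covD_split 0 (by decide +kernel) A4_c1_t1 A4_c1_t8

theorem A4_c2_t2 : CovD 1 gA4 [(125986406400, 11453595648), (137438953472, 137438953472), (8246337208320, 2748779069440)] :=
  covD_split 0 (by decide +kernel) A4_c2_t3 A4_c2_t4

theorem A4_c2 : CovD 1 gA4 [(114532810752, 22907191296), (137438953472, 137438953472), (8246337208320, 2748779069440)] :=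
  covD_split 0 (by decide +kernel) A4_c2_t1 A4_c2_t2

theorem C4_c0_t6 : CovD 1 gC4 [(97352417280, 5726797824), (8589934592, 8589934592), (549755813888, 549755813888)] :=
  covD_split 2 (by decide +kernel) C4_c0_t7 C4_c0_t8

theorem C4_c0_t9 : CovD 1 gC4 [(108806012928, 5726797824), (8589934592, 8589934592), (549755813888, 549755813888)] :=
  covD_split 2 (by decide +kernel) C4_c0_t10 C4_c0_t11

theorem C4_c0_t5 : CovD 1 gC4 [(103079215104, 11453595648), (8589934592, 8589934592), (549755813888, 549755813888)] :=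
  covD_split 0 (by decide +kernel) C4_c0_t6 C4_c0_t9

theorem C4_c0_t4 : CovD 1 gC4 [(103079215104, 11453595648), (17179869184, 17179869184), (549755813888, 549755813888)] :=
  covD_split 1 (by decide +kernel) C4_c0_t5 C4_c0_t12

theorem C4_c0_t3 : CovD 1 gC4 [(103079215104, 11453595648), (34359738368, 34359738368), (549755813888, 549755813888)] :=
  covD_split 1 (by decide +kernel) C4_c0_t4 C4_c0_t13

theorem C4_c0_t2 : CovD 1 gC4 [(103079215104, 11453595648), (68719476736, 68719476736), (549755813888, 549755813888)] :=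
  covD_split 1 (by decide +kernel) C4_c0_t3 C4_c0_t14

theorem C4_c0_t1 : CovD 1 gC4 [(103079215104, 11453595648), (137438953472, 137438953472), (549755813888, 549755813888)] :=
  covD_split 1 (by decide +kernel) C4_c0_t2 C4_c0_t15

theorem C4_c0_t23 : CovD 1 gC4 [(125986406400, 11453595648), (4294967296, 4294967296), (824633720832, 274877906944)] :=
  covD_split 1 (by decide +kernel) C4_c0_t24 C4_c0_t25

theorem C4_c0_t22 : CovD 1 gC4 [(125986406400, 11453595648), (8589934592, 8589934592), (824633720832, 274877906944)] :=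
  covD_split 1 (by decide +kernel) C4_c0_t23 C4_c0_t26

theorem C4_c0_t20 : CovD 1 gC4 [(125986406400, 11453595648), (8589934592, 8589934592), (549755813888, 549755813888)] :=
  covD_split 2 (by decide +kernel) C4_c0_t21 C4_c0_t22

theorem C4_c0_t19 : CovD 1 gC4 [(125986406400, 11453595648), (17179869184, 17179869184), (549755813888, 549755813888)] :=
  covD_split 1 (by decide +kernel) C4_c0_t20 C4_c0_t27

theorem C4_c0_t18 : CovD 1 gC4 [(125986406400, 11453595648), (34359738368, 34359738368), (549755813888, 549755813888)] :=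
  covD_split 1 (by decide +kernel) C4_c0_t19 C4_c0_t28

theorem C4_c0_t17 : CovD 1 gC4 [(125986406400, 11453595648), (68719476736, 68719476736), (549755813888, 549755813888)] :=
  covD_split 1 (by decide +kernel) C4_c0_t18 C4_c0_t29

theorem C4_c0_t16 : CovD 1 gC4 [(125986406400, 11453595648), (137438953472, 137438953472), (549755813888, 549755813888)] :=
  covD_split 1 (by decide +kernel) C4_c0_t17 C4_c0_t30

theorem C4_c0 : CovD 1 gC4 [(114532810752, 22907191296), (137438953472, 137438953472), (549755813888, 549755813888)] :=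
  covD_split 0 (by decide +kernel) C4_c0_t1 C4_c0_t16

theorem D4_c0 : CovD 1 gD4 [(114532810752, 22907191296), (137438953472, 137438953472), (863554764800, 863554764800)] :=
  covD_split 0 (by decide +kernel) D4_c0_t1 D4_c0_t2

theorem E4_c0_t3 : CovD 1 gE4 [(103079215104, 11453595648), (137438953472, 137438953472), (1295332147200, 431777382400)] :=
  covD_split 0 (by decide +kernel) E4_c0_t4 E4_c0_t5

theorem E4_c0_t2 : CovD 1 gE4 [(114532810752, 22907191296), (137438953472, 137438953472), (1295332147200, 431777382400)] :=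
  covD_split 0 (by decide +kernel) E4_c0_t3 E4_c0_t6

theorem E4_c0 : CovD 1 gE4 [(114532810752, 22907191296), (137438953472, 137438953472), (863554764800, 863554764800)] :=
  covD_split 2 (by decide +kernel) E4_c0_t1 E4_c0_t2

end Pool.Agent.helper14.NR.E8a
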