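import Pool.Agent.helper14.NR.E8a.PN5

/-!
Generated: certificates.
-/

namespace Pool.Agent.helper14.NR.E8a

open Pool.Agent.helper31.IA (Z)
open Pool.Agent.helper31.IX (Op XOps runX Cov CovD cov_split covD_split)
open Pool.Agent.helper31.IC (TD)
open Pool.Agent.helper63.RG (reloc)
open Pool.Agent.helper63.NF hiding TD
open Pool.Agent.helper14.CF (xE covD_E)
open Pool.Agent.helper14.NR (share)

mutual
theorem A5_c0_t6 : CovD 1 gA5 [(103079215104, 11453595648), (34359738368, 34359738368), (42949672960, 42949672960)] :=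
  covD_E kA5_eq (.l 2)
    [(103079215104, 11453595648), (34359738368, 34359738368), (42949672960, 42949672960)] rfl (by decide +kernel)
theorem A5_c0_t8 : CovD 1 gA5 [(103079215104, 11453595648), (34359738368, 34359738368), (107374182400, 21474836480)] :=
  covD_E kA5_eq (.l 2)
    [(103079215104, 11453595648), (34359738368, 34359738368), (107374182400, 21474836480)] rfl (by decide +kernel)
end

mutual
theorem A5_c0_t10 : CovD 1 gA5 [(103079215104, 11453595648), (17179869184, 17179869184), (150323855360, 21474836480)] :=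
  covD_E kA5_eq (.n 0 (.n 1 (.n 0 (.n 1 (.l 0) (.l 0)) (.n 1 (.l 0) (.l 0))) (.n 1 (.n 2 (.l 0) (.l 0)) (.n 0 (.l 0) (.l 0)))) (.n 1 (.n 1 (.n 1 (.l 0) (.l 0)) (.n 2 (.l 0) (.l 0))) (.n 1 (.n 2 (.l 0) (.l 0)) (.n 2 (.l 0) (.l 0)))))
    [(103079215104, 11453595648), (17179869184, 17179869184), (150323855360, 21474836480)] rfl (by decide +kernel)
theorem A5_c0_t11 : CovD 1 gA5 [(103079215104, 11453595648), (51539607552, 17179869184), (150323855360, 21474836480)] :=
  covD_E kA5_eq (.n 0 (.n 1 (.n 2 (.l 0) (.l 0)) (.l 0)) (.n 1 (.n 2 (.l 0) (.l 0)) (.l 0)))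
    [(103079215104, 11453595648), (51539607552, 17179869184), (150323855360, 21474836480)] rfl (by decide +kernel)
end

mutual
theorem A5_c0_t14 : CovD 1 gA5 [(103079215104, 11453595648), (8589934592, 8589934592), (257698037760, 85899345920)] :=
  covD_E kA5_eq (.n 0 (.n 2 (.n 1 (.n 2 (.l 0) (.l 0)) (.n 2 (.l 0) (.l 0))) (.n 2 (.l 0) (.l 0))) (.n 2 (.n 1 (.n 2 (.l 0) (.l 0)) (.n 2 (.l 0) (.l 0))) (.n 2 (.l 0) (.l 0))))
    [(103079215104, 11453595648), (8589934592, 8589934592), (257698037760, 85899345920)] rfl (by decide +kernel)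
theorem A5_c0_t15 : CovD 1 gA5 [(103079215104, 11453595648), (25769803776, 8589934592), (257698037760, 85899345920)] :=
  covD_E kA5_eq (.n 0 (.n 2 (.n 2 (.n 1 (.l 0) (.l 0)) (.l 0)) (.n 2 (.l 0) (.l 0))) (.n 2 (.n 2 (.n 1 (.l 0) (.l 0)) (.l 0)) (.n 2 (.l 0) (.l 0))))
    [(103079215104, 11453595648), (25769803776, 8589934592), (257698037760, 85899345920)] rfl (by decide +kernel)
end

mutual
theorem A5_c0_t17 : CovD 1 gA5 [(97352417280, 5726797824), (51539607552, 17179869184), (257698037760, 85899345920)] :=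
  covD_E kA5_eq (.n 1 (.n 2 (.n 2 (.n 0 (.l 0) (.l 0)) (.l 0)) (.n 0 (.l 0) (.l 0))) (.n 2 (.n 2 (.l 0) (.l 0)) (.n 0 (.l 0) (.l 0))))
    [(97352417280, 5726797824), (51539607552, 17179869184), (257698037760, 85899345920)] rfl (by decide +kernel)
theorem A5_c0_t18 : CovD 1 gA5 [(108806012928, 5726797824), (51539607552, 17179869184), (257698037760, 85899345920)] :=
  covD_E kA5_eq (.n 1 (.n 2 (.n 1 (.n 2 (.l 0) (.l 0)) (.n 2 (.l 0) (.l 0))) (.n 2 (.l 0) (.l 0))) (.n 2 (.n 2 (.l 0) (.l 0)) (.n 2 (.l 0) (.l 0))))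
    [(108806012928, 5726797824), (51539607552, 17179869184), (257698037760, 85899345920)] rfl (by decide +kernel)
end

mutual
theorem A5_c0_t21 : CovD 1 gA5 [(97352417280, 5726797824), (17179869184, 17179869184), (515396075520, 171798691840)] :=
  covD_E kA5_eq (.n 1 (.n 2 (.n 2 (.l 0) (.l 0)) (.n 2 (.l 0) (.l 0))) (.n 2 (.n 2 (.n 0 (.l 0) (.l 0)) (.l 0)) (.n 2 (.l 0) (.l 0))))
    [(97352417280, 5726797824), (17179869184, 17179869184), (515396075520, 171798691840)] rfl (by decide +kernel)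
theorem A5_c0_t22 : CovD 1 gA5 [(97352417280, 5726797824), (51539607552, 17179869184), (515396075520, 171798691840)] :=
  covD_E kA5_eq (.n 1 (.n 2 (.n 2 (.l 0) (.l 0)) (.n 2 (.l 0) (.l 0))) (.n 2 (.n 2 (.l 0) (.l 0)) (.n 2 (.l 0) (.l 0))))
    [(97352417280, 5726797824), (51539607552, 17179869184), (515396075520, 171798691840)] rfl (by decide +kernel)
end

mutual
theorem A5_c0_t24 : CovD 1 gA5 [(108806012928, 5726797824), (17179869184, 17179869184), (515396075520, 171798691840)] :=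
  covD_E kA5_eq (.n 2 (.n 2 (.n 2 (.n 0 (.l 0) (.l 0)) (.l 0)) (.n 0 (.l 0) (.l 0))) (.n 0 (.n 2 (.l 0) (.l 0)) (.n 2 (.l 0) (.l 0))))
    [(108806012928, 5726797824), (17179869184, 17179869184), (515396075520, 171798691840)] rfl (by decide +kernel)
theorem A5_c0_t25 : CovD 1 gA5 [(108806012928, 5726797824), (51539607552, 17179869184), (515396075520, 171798691840)] :=
  covD_E kA5_eq (.n 1 (.n 2 (.n 2 (.l 0) (.l 0)) (.n 2 (.l 0) (.l 0))) (.n 2 (.n 2 (.l 0) (.l 0)) (.n 2 (.l 0) (.l 0))))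
    [(108806012928, 5726797824), (51539607552, 17179869184), (515396075520, 171798691840)] rfl (by decide +kernel)
end

mutual
theorem A5_c0_t28 : CovD 1 gA5 [(97352417280, 5726797824), (34359738368, 34359738368), (858993459200, 171798691840)] :=
  covD_E kA5_eq (.n 1 (.n 2 (.n 0 (.n 2 (.l 0) (.l 0)) (.n 2 (.l 0) (.l 0))) (.n 2 (.n 0 (.l 0) (.l 0)) (.l 0))) (.n 2 (.n 0 (.n 2 (.l 0) (.l 0)) (.n 2 (.l 0) (.l 0))) (.n 2 (.l 0) (.l 0))))
    [(97352417280, 5726797824), (34359738368, 34359738368), (858993459200, 171798691840)] rfl (by decide +kernel)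
theorem A5_c0_t29 : CovD 1 gA5 [(97352417280, 5726797824), (34359738368, 34359738368), (1202590842880, 171798691840)] :=
  covD_E kA5_eq (.n 0 (.n 2 (.n 2 (.l 0) (.l 0)) (.l 0)) (.n 2 (.n 1 (.l 0) (.l 0)) (.l 0)))
    [(97352417280, 5726797824), (34359738368, 34359738368), (1202590842880, 171798691840)] rfl (by decide +kernel)
end

mutual
theorem A5_c0_t30 : CovD 1 gA5 [(108806012928, 5726797824), (34359738368, 34359738368), (1030792151040, 343597383680)] :=
  covD_E kA5_eq (.n 2 (.n 1 (.n 2 (.n 0 (.n 2 (.l 0) (.l 0)) (.n 2 (.l 0) (.l 0))) (.n 2 (.l 0) (.l 0))) (.n 2 (.n 2 (.n 0 (.l 0) (.l 0)) (.l 0)) (.n 2 (.l 0) (.l 0)))) (.n 2 (.n 2 (.n 0 (.l 0) (.l 0)) (.l 0)) (.n 0 (.l 0) (.l 0))))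
    [(108806012928, 5726797824), (34359738368, 34359738368), (1030792151040, 343597383680)] rfl (by decide +kernel)
theorem A5_c0_t34 : CovD 1 gA5 [(103079215104, 11453595648), (103079215104, 34359738368), (85899345920, 85899345920)] :=
  covD_E kA5_eq (.n 2 (.l 2) (.n 1 (.n 2 (.l 2) (.n 0 (.l 0) (.l 0))) (.n 0 (.n 0 (.l 0) (.l 0)) (.n 0 (.l 0) (.l 0)))))
    [(103079215104, 11453595648), (103079215104, 34359738368), (85899345920, 85899345920)] rfl (by decide +kernel)
end

mutual
theorem A5_c0_t36 : CovD 1 gA5 [(97352417280, 5726797824), (103079215104, 34359738368), (257698037760, 85899345920)] :=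
  covD_E kA5_eq (.n 1 (.n 2 (.n 2 (.l 0) (.l 0)) (.n 2 (.l 0) (.l 0))) (.n 0 (.n 2 (.l 0) (.l 0)) (.n 2 (.l 0) (.l 0))))
    [(97352417280, 5726797824), (103079215104, 34359738368), (257698037760, 85899345920)] rfl (by decide +kernel)
theorem A5_c0_t37 : CovD 1 gA5 [(108806012928, 5726797824), (103079215104, 34359738368), (257698037760, 85899345920)] :=
  covD_E kA5_eq (.n 1 (.n 2 (.n 2 (.l 0) (.n 0 (.l 0) (.l 0))) (.n 2 (.l 0) (.l 0))) (.n 0 (.n 2 (.l 0) (.l 0)) (.n 2 (.l 0) (.l 0))))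
    [(108806012928, 5726797824), (103079215104, 34359738368), (257698037760, 85899345920)] rfl (by decide +kernel)
end

mutual
theorem A5_c0_t39 : CovD 1 gA5 [(97352417280, 5726797824), (103079215104, 34359738368), (515396075520, 171798691840)] :=
  covD_E kA5_eq (.n 1 (.n 2 (.n 2 (.n 0 (.l 0) (.l 0)) (.l 0)) (.n 2 (.l 0) (.l 0))) (.n 2 (.n 2 (.l 0) (.l 0)) (.n 2 (.l 0) (.l 0))))
    [(97352417280, 5726797824), (103079215104, 34359738368), (515396075520, 171798691840)] rfl (by decide +kernel)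
theorem A5_c0_t40 : CovD 1 gA5 [(108806012928, 5726797824), (103079215104, 34359738368), (515396075520, 171798691840)] :=
  covD_E kA5_eq (.n 1 (.n 0 (.n 2 (.n 2 (.l 0) (.l 0)) (.n 2 (.l 0) (.l 0))) (.n 2 (.n 2 (.l 0) (.l 0)) (.n 2 (.l 0) (.l 0)))) (.n 2 (.n 2 (.l 0) (.l 0)) (.n 2 (.l 0) (.l 0))))
    [(108806012928, 5726797824), (103079215104, 34359738368), (515396075520, 171798691840)] rfl (by decide +kernel)
end

mutual
theorem A5_c0_t42 : CovD 1 gA5 [(97352417280, 5726797824), (103079215104, 34359738368), (1030792151040, 343597383680)] :=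
  covD_E kA5_eq (.n 2 (.n 1 (.n 2 (.n 2 (.l 0) (.l 0)) (.n 2 (.l 0) (.l 0))) (.n 2 (.n 2 (.l 0) (.l 0)) (.n 2 (.l 0) (.l 0)))) (.n 2 (.n 2 (.n 0 (.l 0) (.l 0)) (.l 0)) (.n 0 (.l 0) (.l 0))))
    [(97352417280, 5726797824), (103079215104, 34359738368), (1030792151040, 343597383680)] rfl (by decide +kernel)
theorem A5_c0_t43 : CovD 1 gA5 [(108806012928, 5726797824), (103079215104, 34359738368), (1030792151040, 343597383680)] :=
  covD_E kA5_eq (.n 2 (.n 1 (.n 2 (.n 2 (.l 0) (.l 0)) (.n 2 (.l 0) (.l 0))) (.n 2 (.n 2 (.l 0) (.l 0)) (.n 2 (.l 0) (.l 0)))) (.n 2 (.n 2 (.l 0) (.l 0)) (.n 0 (.l 0) (.l 0))))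
    [(108806012928, 5726797824), (103079215104, 34359738368), (1030792151040, 343597383680)] rfl (by decide +kernel)
end

mutual
theorem A5_c0_t47 : CovD 1 gA5 [(103079215104, 11453595648), (171798691840, 34359738368), (171798691840, 171798691840)] :=
  covD_E kA5_eq (.n 2 (.n 2 (.l 2) (.n 0 (.n 1 (.l 0) (.l 0)) (.n 1 (.l 0) (.l 0)))) (.n 0 (.n 1 (.n 2 (.l 0) (.l 0)) (.n 2 (.l 0) (.l 0))) (.n 1 (.n 2 (.l 0) (.l 0)) (.n 2 (.l 0) (.l 0)))))
    [(103079215104, 11453595648), (171798691840, 34359738368), (171798691840, 171798691840)] rfl (by decide +kernel)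
theorem A5_c0_t48 : CovD 1 gA5 [(103079215104, 11453595648), (171798691840, 34359738368), (515396075520, 171798691840)] :=
  covD_E kA5_eq (.n 0 (.n 1 (.n 2 (.n 2 (.l 0) (.l 0)) (.n 2 (.l 0) (.l 0))) (.n 2 (.n 2 (.l 0) (.l 0)) (.n 2 (.l 0) (.l 0)))) (.n 1 (.n 2 (.n 2 (.l 0) (.l 0)) (.n 2 (.l 0) (.l 0))) (.n 2 (.n 2 (.l 0) (.l 0)) (.n 2 (.l 0) (.l 0)))))
    [(103079215104, 11453595648), (171798691840, 34359738368), (515396075520, 171798691840)] rfl (by decide +kernel)
end

mutual
theorem A5_c0_t50 : CovD 1 gA5 [(103079215104, 11453595648), (223338299392, 17179869184), (343597383680, 343597383680)] :=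
  covD_E kA5_eq (.n 2 (.n 2 (.n 2 (.l 2) (.n 0 (.l 0) (.l 0))) (.n 0 (.n 2 (.l 0) (.l 0)) (.n 2 (.l 0) (.l 0)))) (.n 0 (.n 2 (.n 2 (.l 0) (.l 0)) (.n 2 (.l 0) (.l 0))) (.n 2 (.n 2 (.l 0) (.l 0)) (.n 2 (.l 0) (.l 0)))))
    [(103079215104, 11453595648), (223338299392, 17179869184), (343597383680, 343597383680)] rfl (by decide +kernel)
theorem A5_c0_t51 : CovD 1 gA5 [(103079215104, 11453595648), (257698037760, 17179869184), (343597383680, 343597383680)] :=
  covD_E kA5_eq (.n 0 (.n 2 (.n 2 (.n 2 (.l 0) (.l 0)) (.n 2 (.l 0) (.l 0))) (.n 2 (.n 2 (.l 0) (.l 0)) (.n 2 (.l 0) (.l 0)))) (.n 2 (.n 2 (.n 2 (.l 0) (.l 0)) (.n 2 (.l 0) (.l 0))) (.n 2 (.n 2 (.l 0) (.l 0)) (.n 2 (.l 0) (.l 0)))))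
    [(103079215104, 11453595648), (257698037760, 17179869184), (343597383680, 343597383680)] rfl (by decide +kernel)
end

mutual
theorem A5_c0_t54 : CovD 1 gA5 [(97352417280, 5726797824), (171798691840, 34359738368), (1030792151040, 343597383680)] :=
  covD_E kA5_eq (.n 2 (.n 2 (.n 0 (.n 2 (.l 0) (.l 0)) (.n 2 (.l 0) (.l 0))) (.n 2 (.n 0 (.l 0) (.l 0)) (.l 0))) (.n 0 (.n 2 (.l 0) (.l 0)) (.n 2 (.l 0) (.l 0))))
    [(97352417280, 5726797824), (171798691840, 34359738368), (1030792151040, 343597383680)] rfl (by decide +kernel)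
theorem A5_c0_t55 : CovD 1 gA5 [(97352417280, 5726797824), (240518168576, 34359738368), (1030792151040, 343597383680)] :=
  covD_E kA5_eq (.n 2 (.n 2 (.n 0 (.n 2 (.l 0) (.l 0)) (.n 2 (.l 0) (.l 0))) (.n 2 (.l 0) (.l 0))) (.n 2 (.n 0 (.l 0) (.l 0)) (.l 0)))
    [(97352417280, 5726797824), (240518168576, 34359738368), (1030792151040, 343597383680)] rfl (by decide +kernel)
end

mutual
theorem A5_c0_t57 : CovD 1 gA5 [(108806012928, 5726797824), (171798691840, 34359738368), (1030792151040, 343597383680)] :=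
  covD_E kA5_eq (.n 2 (.n 2 (.n 0 (.n 2 (.l 0) (.l 0)) (.n 2 (.l 0) (.l 0))) (.n 2 (.n 0 (.l 0) (.l 0)) (.l 0))) (.n 2 (.n 0 (.l 0) (.l 0)) (.l 0)))
    [(108806012928, 5726797824), (171798691840, 34359738368), (1030792151040, 343597383680)] rfl (by decide +kernel)
theorem A5_c0_t58 : CovD 1 gA5 [(108806012928, 5726797824), (240518168576, 34359738368), (1030792151040, 343597383680)] :=
  covD_E kA5_eq (.n 2 (.n 2 (.n 2 (.n 0 (.l 0) (.l 0)) (.l 0)) (.n 2 (.l 0) (.l 0))) (.n 2 (.n 0 (.l 0) (.l 0)) (.l 0)))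
    [(108806012928, 5726797824), (240518168576, 34359738368), (1030792151040, 343597383680)] rfl (by decide +kernel)
end

theorem A5_c0_t9 : CovD 1 gA5 [(103079215104, 11453595648), (34359738368, 34359738368), (150323855360, 21474836480)] :=
  covD_split 1 (by decide +kernel) A5_c0_t10 A5_c0_t11

theorem A5_c0_t7 : CovD 1 gA5 [(103079215104, 11453595648), (34359738368, 34359738368), (128849018880, 42949672960)] :=
  covD_split 2 (by decide +kernel) A5_c0_t8 A5_c0_t9

theorem A5_c0_t5 : CovD 1 gA5 [(103079215104, 11453595648), (34359738368, 34359738368), (85899345920, 85899345920)] :=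
  covD_split 2 (by decide +kernel) A5_c0_t6 A5_c0_t7

theorem A5_c0_t13 : CovD 1 gA5 [(103079215104, 11453595648), (17179869184, 17179869184), (257698037760, 85899345920)] :=
  covD_split 1 (by decide +kernel) A5_c0_t14 A5_c0_t15

theorem A5_c0_t16 : CovD 1 gA5 [(103079215104, 11453595648), (51539607552, 17179869184), (257698037760, 85899345920)] :=
  covD_split 0 (by decide +kernel) A5_c0_t17 A5_c0_t18

theorem A5_c0_t12 : CovD 1 gA5 [(103079215104, 11453595648), (34359738368, 34359738368), (257698037760, 85899345920)] :=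
  covD_split 1 (by decide +kernel) A5_c0_t13 A5_c0_t16

theorem A5_c0_t4 : CovD 1 gA5 [(103079215104, 11453595648), (34359738368, 34359738368), (171798691840, 171798691840)] :=
  covD_split 2 (by decide +kernel) A5_c0_t5 A5_c0_t12

theorem A5_c0_t20 : CovD 1 gA5 [(97352417280, 5726797824), (34359738368, 34359738368), (515396075520, 171798691840)] :=
  covD_split 1 (by decide +kernel) A5_c0_t21 A5_c0_t22

theorem A5_c0_t23 : CovD 1 gA5 [(108806012928, 5726797824), (34359738368, 34359738368), (515396075520, 171798691840)] :=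
  covD_split 1 (by decide +kernel) A5_c0_t24 A5_c0_t25

theorem A5_c0_t19 : CovD 1 gA5 [(103079215104, 11453595648), (34359738368, 34359738368), (515396075520, 171798691840)] :=
  covD_split 0 (by decide +kernel) A5_c0_t20 A5_c0_t23

theorem A5_c0_t3 : CovD 1 gA5 [(103079215104, 11453595648), (34359738368, 34359738368), (343597383680, 343597383680)] :=
  covD_split 2 (by decide +kernel) A5_c0_t4 A5_c0_t19

theorem A5_c0_t27 : CovD 1 gA5 [(97352417280, 5726797824), (34359738368, 34359738368), (1030792151040, 343597383680)] :=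
  covD_split 2 (by decide +kernel) A5_c0_t28 A5_c0_t29

theorem A5_c0_t26 : CovD 1 gA5 [(103079215104, 11453595648), (34359738368, 34359738368), (1030792151040, 343597383680)] :=
  covD_split 0 (by decide +kernel) A5_c0_t27 A5_c0_t30

theorem A5_c0_t2 : CovD 1 gA5 [(103079215104, 11453595648), (34359738368, 34359738368), (687194767360, 687194767360)] :=
  covD_split 2 (by decide +kernel) A5_c0_t3 A5_c0_t26

theorem A5_c0_t35 : CovD 1 gA5 [(103079215104, 11453595648), (103079215104, 34359738368), (257698037760, 85899345920)] :=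
  covD_split 0 (by decide +kernel) A5_c0_t36 A5_c0_t37

theorem A5_c0_t33 : CovD 1 gA5 [(103079215104, 11453595648), (103079215104, 34359738368), (171798691840, 171798691840)] :=
  covD_split 2 (by decide +kernel) A5_c0_t34 A5_c0_t35

theorem A5_c0_t38 : CovD 1 gA5 [(103079215104, 11453595648), (103079215104, 34359738368), (515396075520, 171798691840)] :=
  covD_split 0 (by decide +kernel) A5_c0_t39 A5_c0_t40

theorem A5_c0_t32 : CovD 1 gA5 [(103079215104, 11453595648), (103079215104, 34359738368), (343597383680, 343597383680)] :=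
  covD_split 2 (by decide +kernel) A5_c0_t33 A5_c0_t38

theorem A5_c0_t41 : CovD 1 gA5 [(103079215104, 11453595648), (103079215104, 34359738368), (1030792151040, 343597383680)] :=
  covD_split 0 (by decide +kernel) A5_c0_t42 A5_c0_t43

theorem A5_c0_t31 : CovD 1 gA5 [(103079215104, 11453595648), (103079215104, 34359738368), (687194767360, 687194767360)] :=
  covD_split 2 (by decide +kernel) A5_c0_t32 A5_c0_t41

theorem A5_c0_t1 : CovD 1 gA5 [(103079215104, 11453595648), (68719476736, 68719476736), (687194767360, 687194767360)] :=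
  covD_split 1 (by decide +kernel) A5_c0_t2 A5_c0_t31

theorem A5_c0_t46 : CovD 1 gA5 [(103079215104, 11453595648), (171798691840, 34359738368), (343597383680, 343597383680)] :=
  covD_split 2 (by decide +kernel) A5_c0_t47 A5_c0_t48

theorem A5_c0_t49 : CovD 1 gA5 [(103079215104, 11453595648), (240518168576, 34359738368), (343597383680, 343597383680)] :=
  covD_split 1 (by decide +kernel) A5_c0_t50 A5_c0_t51

theorem A5_c0_t45 : CovD 1 gA5 [(103079215104, 11453595648), (206158430208, 68719476736), (343597383680, 343597383680)] :=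
  covD_split 1 (by decide +kernel) A5_c0_t46 A5_c0_t49

theorem A5_c0_t53 : CovD 1 gA5 [(97352417280, 5726797824), (206158430208, 68719476736), (1030792151040, 343597383680)] :=
  covD_split 1 (by decide +kernel) A5_c0_t54 A5_c0_t55

theorem A5_c0_t56 : CovD 1 gA5 [(108806012928, 5726797824), (206158430208, 68719476736), (1030792151040, 343597383680)] :=
  covD_split 1 (by decide +kernel) A5_c0_t57 A5_c0_t58

theorem A5_c0_t52 : CovD 1 gA5 [(103079215104, 11453595648), (206158430208, 68719476736), (1030792151040, 343597383680)] :=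
  covD_split 0 (by decide +kernel) A5_c0_t53 A5_c0_t56

theorem A5_c0_t44 : CovD 1 gA5 [(103079215104, 11453595648), (206158430208, 68719476736), (687194767360, 687194767360)] :=
  covD_split 2 (by decide +kernel) A5_c0_t45 A5_c0_t52

theorem A5_c0 : CovD 1 gA5 [(103079215104, 11453595648), (137438953472, 137438953472), (687194767360, 687194767360)] :=
  covD_split 1 (by decide +kernel) A5_c0_t1 A5_c0_t44

end Pool.Agent.helper14.NR.E8a
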