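import Pool.Agent.helper14.NR.E8a.PN5

/-!
Generated: certificates.
-/

namespace Pool.Agent.helper14.NR.E8a

open Pool.Agent.helper31.IA (Z)
open Pool.Agent.helper31.IX (Op XOps runX Cov CovD cov_split covD_split)
open Pool.Agent.helper31.IC (TD)
open Pool.Agent.helper63.RG (reloc)
open Pool.Agent.helper63.NF hiding TD
open Pool.Agent.helper14.CF (xE covD_E)
open Pool.Agent.helper14.NR (share)

mutual
theorem A5_c1_t5 : CovD 1 gA5 [(125986406400, 11453595648), (68719476736, 68719476736), (42949672960, 42949672960)] :=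
  covD_E kA5_eq (.l 2)
    [(125986406400, 11453595648), (68719476736, 68719476736), (42949672960, 42949672960)] rfl (by decide +kernel)
theorem A5_c1_t8 : CovD 1 gA5 [(125986406400, 11453595648), (34359738368, 34359738368), (107374182400, 21474836480)] :=
  covD_E kA5_eq (.l 2)
    [(125986406400, 11453595648), (34359738368, 34359738368), (107374182400, 21474836480)] rfl (by decide +kernel)
end

mutual
theorem A5_c1_t10 : CovD 1 gA5 [(125986406400, 11453595648), (34359738368, 34359738368), (139586437120, 10737418240)] :=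
  covD_E kA5_eq (.n 1 (.n 0 (.n 1 (.n 1 (.l 0) (.l 0)) (.n 1 (.l 0) (.l 0))) (.n 1 (.n 1 (.l 0) (.l 0)) (.n 1 (.l 0) (.l 0)))) (.n 1 (.n 0 (.l 0) (.n 0 (.l 0) (.l 0))) (.l 0)))
    [(125986406400, 11453595648), (34359738368, 34359738368), (139586437120, 10737418240)] rfl (by decide +kernel)
theorem A5_c1_t11 : CovD 1 gA5 [(125986406400, 11453595648), (34359738368, 34359738368), (161061273600, 10737418240)] :=
  covD_E kA5_eq (.n 1 (.n 0 (.n 1 (.n 0 (.l 0) (.l 0)) (.n 1 (.l 0) (.l 0))) (.n 1 (.n 1 (.l 0) (.l 0)) (.n 1 (.l 0) (.l 0)))) (.n 1 (.n 0 (.l 0) (.l 0)) (.l 0)))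
    [(125986406400, 11453595648), (34359738368, 34359738368), (161061273600, 10737418240)] rfl (by decide +kernel)
end

mutual
theorem A5_c1_t12 : CovD 1 gA5 [(125986406400, 11453595648), (103079215104, 34359738368), (128849018880, 42949672960)] :=
  covD_E kA5_eq (.n 1 (.n 2 (.l 2) (.n 1 (.l 0) (.l 0))) (.n 0 (.n 0 (.l 0) (.l 0)) (.n 0 (.l 0) (.l 0))))
    [(125986406400, 11453595648), (103079215104, 34359738368), (128849018880, 42949672960)] rfl (by decide +kernel)
theorem A5_c1_t16 : CovD 1 gA5 [(125986406400, 11453595648), (8589934592, 8589934592), (257698037760, 85899345920)] :=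
  covD_E kA5_eq (.n 0 (.n 2 (.n 1 (.n 2 (.l 0) (.l 0)) (.n 2 (.l 0) (.l 0))) (.n 2 (.l 0) (.l 0))) (.n 2 (.n 1 (.n 2 (.n 0 (.l 0) (.l 0)) (.l 0)) (.n 2 (.l 0) (.l 0))) (.n 2 (.l 0) (.l 0))))
    [(125986406400, 11453595648), (8589934592, 8589934592), (257698037760, 85899345920)] rfl (by decide +kernel)
end

mutual
theorem A5_c1_t17 : CovD 1 gA5 [(125986406400, 11453595648), (25769803776, 8589934592), (257698037760, 85899345920)] :=
  covD_E kA5_eq (.n 0 (.n 2 (.n 1 (.n 2 (.l 0) (.l 0)) (.n 2 (.n 0 (.l 0) (.l 0)) (.l 0))) (.n 2 (.l 0) (.l 0))) (.n 2 (.n 2 (.n 2 (.n 0 (.l 0) (.l 0)) (.l 0)) (.n 0 (.l 0) (.l 0))) (.n 2 (.l 0) (.l 0))))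
    [(125986406400, 11453595648), (25769803776, 8589934592), (257698037760, 85899345920)] rfl (by decide +kernel)
theorem A5_c1_t19 : CovD 1 gA5 [(120259608576, 5726797824), (51539607552, 17179869184), (257698037760, 85899345920)] :=
  covD_E kA5_eq (.n 1 (.n 2 (.n 1 (.n 2 (.l 0) (.l 0)) (.n 2 (.l 0) (.l 0))) (.n 2 (.l 0) (.l 0))) (.n 2 (.n 2 (.l 0) (.l 0)) (.n 2 (.l 0) (.l 0))))
    [(120259608576, 5726797824), (51539607552, 17179869184), (257698037760, 85899345920)] rfl (by decide +kernel)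
end

mutual
theorem A5_c1_t20 : CovD 1 gA5 [(131713204224, 5726797824), (51539607552, 17179869184), (257698037760, 85899345920)] :=
  covD_E kA5_eq (.n 1 (.n 2 (.n 2 (.n 2 (.l 0) (.l 0)) (.n 0 (.l 0) (.l 0))) (.n 2 (.l 0) (.l 0))) (.n 2 (.n 2 (.l 0) (.l 0)) (.n 2 (.l 0) (.l 0))))
    [(131713204224, 5726797824), (51539607552, 17179869184), (257698037760, 85899345920)] rfl (by decide +kernel)
theorem A5_c1_t22 : CovD 1 gA5 [(125986406400, 11453595648), (85899345920, 17179869184), (257698037760, 85899345920)] :=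
  covD_E kA5_eq (.n 1 (.n 2 (.n 0 (.n 2 (.l 0) (.l 0)) (.n 2 (.l 0) (.l 0))) (.n 2 (.n 0 (.l 0) (.l 0)) (.l 0))) (.n 2 (.n 2 (.l 0) (.l 0)) (.n 2 (.l 0) (.l 0))))
    [(125986406400, 11453595648), (85899345920, 17179869184), (257698037760, 85899345920)] rfl (by decide +kernel)
end

mutual
theorem A5_c1_t23 : CovD 1 gA5 [(125986406400, 11453595648), (120259084288, 17179869184), (257698037760, 85899345920)] :=
  covD_E kA5_eq (.n 0 (.n 0 (.n 2 (.l 0) (.l 0)) (.n 2 (.l 0) (.l 0))) (.n 0 (.n 2 (.l 0) (.l 0)) (.n 2 (.l 0) (.l 0))))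
    [(125986406400, 11453595648), (120259084288, 17179869184), (257698037760, 85899345920)] rfl (by decide +kernel)
theorem A5_c1_t27 : CovD 1 gA5 [(120259608576, 5726797824), (17179869184, 17179869184), (515396075520, 171798691840)] :=
  covD_E kA5_eq (.n 2 (.n 2 (.n 2 (.n 0 (.l 0) (.l 0)) (.l 0)) (.n 2 (.l 0) (.l 0))) (.n 2 (.n 2 (.l 0) (.l 0)) (.n 2 (.l 0) (.l 0))))
    [(120259608576, 5726797824), (17179869184, 17179869184), (515396075520, 171798691840)] rfl (by decide +kernel)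
end

mutual
theorem A5_c1_t28 : CovD 1 gA5 [(120259608576, 5726797824), (51539607552, 17179869184), (515396075520, 171798691840)] :=
  covD_E kA5_eq (.n 1 (.n 2 (.n 2 (.l 0) (.l 0)) (.n 2 (.l 0) (.l 0))) (.n 2 (.n 2 (.l 0) (.l 0)) (.n 2 (.l 0) (.l 0))))
    [(120259608576, 5726797824), (51539607552, 17179869184), (515396075520, 171798691840)] rfl (by decide +kernel)
theorem A5_c1_t30 : CovD 1 gA5 [(131713204224, 5726797824), (17179869184, 17179869184), (515396075520, 171798691840)] :=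
  covD_E kA5_eq (.n 2 (.n 2 (.n 0 (.n 1 (.l 0) (.l 0)) (.n 1 (.l 0) (.l 0))) (.n 2 (.l 0) (.l 0))) (.n 2 (.n 2 (.l 0) (.l 0)) (.n 2 (.l 0) (.l 0))))
    [(131713204224, 5726797824), (17179869184, 17179869184), (515396075520, 171798691840)] rfl (by decide +kernel)
end

mutual
theorem A5_c1_t31 : CovD 1 gA5 [(131713204224, 5726797824), (51539607552, 17179869184), (515396075520, 171798691840)] :=
  covD_E kA5_eq (.n 2 (.n 2 (.n 2 (.l 0) (.l 0)) (.n 2 (.l 0) (.l 0))) (.n 2 (.n 2 (.l 0) (.l 0)) (.n 0 (.l 0) (.l 0))))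
    [(131713204224, 5726797824), (51539607552, 17179869184), (515396075520, 171798691840)] rfl (by decide +kernel)
theorem A5_c1_t33 : CovD 1 gA5 [(120259608576, 5726797824), (103079215104, 34359738368), (515396075520, 171798691840)] :=
  covD_E kA5_eq (.n 1 (.n 1 (.n 2 (.n 2 (.l 0) (.l 0)) (.n 2 (.l 0) (.l 0))) (.n 2 (.n 2 (.l 0) (.l 0)) (.n 2 (.l 0) (.l 0)))) (.n 2 (.n 0 (.n 2 (.l 0) (.l 0)) (.n 2 (.l 0) (.l 0))) (.n 2 (.n 0 (.l 0) (.l 0)) (.l 0))))
    [(120259608576, 5726797824), (103079215104, 34359738368), (515396075520, 171798691840)] rfl (by decide +kernel)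
end

mutual
theorem A5_c1_t34 : CovD 1 gA5 [(131713204224, 5726797824), (103079215104, 34359738368), (515396075520, 171798691840)] :=
  covD_E kA5_eq (.n 1 (.n 1 (.n 2 (.n 2 (.l 0) (.l 0)) (.n 2 (.l 0) (.l 0))) (.n 2 (.n 2 (.l 0) (.l 0)) (.n 2 (.l 0) (.l 0)))) (.n 2 (.n 0 (.n 2 (.l 0) (.l 0)) (.n 2 (.l 0) (.l 0))) (.n 2 (.n 0 (.l 0) (.l 0)) (.l 0))))
    [(131713204224, 5726797824), (103079215104, 34359738368), (515396075520, 171798691840)] rfl (by decide +kernel)
theorem A5_c1_t37 : CovD 1 gA5 [(120259608576, 5726797824), (34359738368, 34359738368), (1030792151040, 343597383680)] :=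
  covD_E kA5_eq (.n 2 (.n 1 (.n 2 (.n 0 (.n 2 (.l 0) (.l 0)) (.n 2 (.l 0) (.l 0))) (.n 2 (.l 0) (.l 0))) (.n 2 (.n 2 (.n 0 (.l 0) (.l 0)) (.l 0)) (.n 2 (.l 0) (.l 0)))) (.n 2 (.n 2 (.l 0) (.l 0)) (.n 0 (.l 0) (.l 0))))
    [(120259608576, 5726797824), (34359738368, 34359738368), (1030792151040, 343597383680)] rfl (by decide +kernel)
end

mutual
theorem A5_c1_t38 : CovD 1 gA5 [(120259608576, 5726797824), (103079215104, 34359738368), (1030792151040, 343597383680)] :=
  covD_E kA5_eq (.n 2 (.n 2 (.n 1 (.n 2 (.l 0) (.l 0)) (.n 2 (.l 0) (.l 0))) (.n 2 (.n 0 (.l 0) (.l 0)) (.l 0))) (.n 2 (.n 0 (.l 0) (.l 0)) (.l 0)))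
    [(120259608576, 5726797824), (103079215104, 34359738368), (1030792151040, 343597383680)] rfl (by decide +kernel)
theorem A5_c1_t40 : CovD 1 gA5 [(131713204224, 5726797824), (34359738368, 34359738368), (1030792151040, 343597383680)] :=
  covD_E kA5_eq (.n 2 (.n 1 (.n 2 (.n 2 (.n 0 (.l 0) (.l 0)) (.l 0)) (.n 2 (.l 0) (.l 0))) (.n 2 (.n 2 (.n 0 (.l 0) (.l 0)) (.l 0)) (.n 2 (.l 0) (.l 0)))) (.n 2 (.n 1 (.l 0) (.l 0)) (.l 0)))
    [(131713204224, 5726797824), (34359738368, 34359738368), (1030792151040, 343597383680)] rfl (by decide +kernel)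
end

mutual
theorem A5_c1_t41 : CovD 1 gA5 [(131713204224, 5726797824), (103079215104, 34359738368), (1030792151040, 343597383680)] :=
  covD_E kA5_eq (.n 2 (.n 2 (.n 1 (.n 2 (.l 0) (.l 0)) (.n 2 (.l 0) (.l 0))) (.n 2 (.n 0 (.l 0) (.l 0)) (.l 0))) (.n 2 (.n 0 (.l 0) (.l 0)) (.l 0)))
    [(131713204224, 5726797824), (103079215104, 34359738368), (1030792151040, 343597383680)] rfl (by decide +kernel)
theorem A5_c1_t46 : CovD 1 gA5 [(125986406400, 11453595648), (171798691840, 34359738368), (85899345920, 85899345920)] :=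
  covD_E kA5_eq (.n 2 (.l 2) (.n 0 (.n 1 (.n 0 (.l 0) (.l 0)) (.l 0)) (.n 1 (.n 0 (.l 0) (.l 0)) (.l 0))))
    [(125986406400, 11453595648), (171798691840, 34359738368), (85899345920, 85899345920)] rfl (by decide +kernel)
end

mutual
theorem A5_c1_t47 : CovD 1 gA5 [(125986406400, 11453595648), (171798691840, 34359738368), (257698037760, 85899345920)] :=
  covD_E kA5_eq (.n 0 (.n 1 (.n 2 (.n 0 (.l 0) (.l 0)) (.l 0)) (.n 2 (.l 0) (.l 0))) (.n 0 (.n 1 (.n 2 (.l 0) (.l 0)) (.n 2 (.l 0) (.l 0))) (.n 1 (.n 2 (.l 0) (.l 0)) (.n 2 (.l 0) (.l 0)))))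
    [(125986406400, 11453595648), (171798691840, 34359738368), (257698037760, 85899345920)] rfl (by decide +kernel)
theorem A5_c1_t49 : CovD 1 gA5 [(120259608576, 5726797824), (171798691840, 34359738368), (515396075520, 171798691840)] :=
  covD_E kA5_eq (.n 1 (.n 2 (.n 2 (.l 0) (.l 0)) (.n 2 (.l 0) (.l 0))) (.n 2 (.n 2 (.l 0) (.l 0)) (.n 2 (.l 0) (.l 0))))
    [(120259608576, 5726797824), (171798691840, 34359738368), (515396075520, 171798691840)] rfl (by decide +kernel)
end

mutual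
theorem A5_c1_t50 : CovD 1 gA5 [(131713204224, 5726797824), (171798691840, 34359738368), (515396075520, 171798691840)] :=
  covD_E kA5_eq (.n 1 (.n 2 (.n 0 (.n 2 (.l 0) (.l 0)) (.n 2 (.l 0) (.l 0))) (.n 2 (.l 0) (.l 0))) (.n 2 (.n 2 (.l 0) (.l 0)) (.n 2 (.l 0) (.l 0))))
    [(131713204224, 5726797824), (171798691840, 34359738368), (515396075520, 171798691840)] rfl (by decide +kernel)
theorem A5_c1_t52 : CovD 1 gA5 [(120259608576, 5726797824), (171798691840, 34359738368), (1030792151040, 343597383680)] :=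
  covD_E kA5_eq (.n 2 (.n 2 (.n 0 (.n 2 (.l 0) (.l 0)) (.n 2 (.l 0) (.l 0))) (.n 2 (.l 0) (.l 0))) (.n 2 (.n 0 (.l 0) (.l 0)) (.l 0)))
    [(120259608576, 5726797824), (171798691840, 34359738368), (1030792151040, 343597383680)] rfl (by decide +kernel)
end

mutual
theorem A5_c1_t53 : CovD 1 gA5 [(131713204224, 5726797824), (171798691840, 34359738368), (1030792151040, 343597383680)] :=
  covD_E kA5_eq (.n 2 (.n 2 (.n 0 (.n 2 (.l 0) (.l 0)) (.n 2 (.l 0) (.l 0))) (.n 2 (.l 0) (.l 0))) (.n 2 (.n 0 (.l 0) (.l 0)) (.l 0)))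
    [(131713204224, 5726797824), (171798691840, 34359738368), (1030792151040, 343597383680)] rfl (by decide +kernel)
theorem A5_c1_t56 : CovD 1 gA5 [(125986406400, 11453595648), (240518168576, 34359738368), (171798691840, 171798691840)] :=
  covD_E kA5_eq (.n 2 (.n 2 (.n 2 (.l 2) (.n 0 (.l 0) (.l 0))) (.n 0 (.n 1 (.l 0) (.l 0)) (.n 1 (.l 0) (.l 0)))) (.n 0 (.n 1 (.n 2 (.l 0) (.l 0)) (.n 2 (.l 0) (.l 0))) (.n 1 (.n 2 (.l 0) (.l 0)) (.n 2 (.l 0) (.l 0)))))
    [(125986406400, 11453595648), (240518168576, 34359738368), (171798691840, 171798691840)] rfl (by decide +kernel)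
end

mutual
theorem A5_c1_t57 : CovD 1 gA5 [(125986406400, 11453595648), (240518168576, 34359738368), (515396075520, 171798691840)] :=
  covD_E kA5_eq (.n 0 (.n 1 (.n 2 (.n 2 (.l 0) (.l 0)) (.n 2 (.l 0) (.l 0))) (.n 2 (.n 2 (.l 0) (.l 0)) (.n 2 (.l 0) (.l 0)))) (.n 1 (.n 2 (.n 2 (.l 0) (.l 0)) (.n 2 (.l 0) (.l 0))) (.n 2 (.n 2 (.l 0) (.l 0)) (.n 2 (.l 0) (.l 0)))))
    [(125986406400, 11453595648), (240518168576, 34359738368), (515396075520, 171798691840)] rfl (by decide +kernel)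
theorem A5_c1_t58 : CovD 1 gA5 [(125986406400, 11453595648), (240518168576, 34359738368), (1030792151040, 343597383680)] :=
  covD_E kA5_eq (.n 0 (.n 2 (.n 2 (.n 2 (.n 0 (.l 0) (.l 0)) (.l 0)) (.n 0 (.l 0) (.l 0))) (.n 2 (.n 0 (.l 0) (.l 0)) (.l 0))) (.n 2 (.n 2 (.n 2 (.n 0 (.l 0) (.l 0)) (.l 0)) (.n 0 (.l 0) (.l 0))) (.n 2 (.l 0) (.l 0))))
    [(125986406400, 11453595648), (240518168576, 34359738368), (1030792151040, 343597383680)] rfl (by decide +kernel)
end

mutual
theorem A5_c2_t3 : CovD 1 gA5 [(97352417280, 5726797824), (68719476736, 68719476736), (2061584302080, 687194767360)] :=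
  covD_E kA5_eq (.n 1 (.n 2 (.n 2 (.n 2 (.n 0 (.l 0) (.l 0)) (.l 0)) (.n 0 (.l 0) (.l 0))) (.n 2 (.l 0) (.l 0))) (.n 2 (.n 2 (.n 2 (.l 0) (.l 0)) (.n 0 (.l 0) (.l 0))) (.n 2 (.l 0) (.l 0))))
    [(97352417280, 5726797824), (68719476736, 68719476736), (2061584302080, 687194767360)] rfl (by decide +kernel)
theorem A5_c2_t4 : CovD 1 gA5 [(97352417280, 5726797824), (206158430208, 68719476736), (2061584302080, 687194767360)] :=
  covD_E kA5_eq (.n 2 (.n 1 (.n 2 (.n 2 (.l 0) (.l 0)) (.n 0 (.l 0) (.l 0))) (.n 2 (.n 2 (.l 0) (.l 0)) (.l 0))) (.n 2 (.n 0 (.l 0) (.l 0)) (.l 0)))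
    [(97352417280, 5726797824), (206158430208, 68719476736), (2061584302080, 687194767360)] rfl (by decide +kernel)
end

mutual
theorem A5_c2_t6 : CovD 1 gA5 [(108806012928, 5726797824), (68719476736, 68719476736), (2061584302080, 687194767360)] :=
  covD_E kA5_eq (.n 1 (.n 2 (.n 2 (.n 2 (.l 0) (.l 0)) (.n 0 (.l 0) (.l 0))) (.n 2 (.l 0) (.l 0))) (.n 2 (.n 2 (.n 2 (.l 0) (.l 0)) (.l 0)) (.n 2 (.l 0) (.l 0))))
    [(108806012928, 5726797824), (68719476736, 68719476736), (2061584302080, 687194767360)] rfl (by decide +kernel)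
theorem A5_c2_t7 : CovD 1 gA5 [(108806012928, 5726797824), (206158430208, 68719476736), (2061584302080, 687194767360)] :=
  covD_E kA5_eq (.n 1 (.n 2 (.n 2 (.n 0 (.l 0) (.l 0)) (.l 0)) (.n 2 (.l 0) (.l 0))) (.n 2 (.n 2 (.n 0 (.l 0) (.l 0)) (.l 0)) (.n 0 (.l 0) (.l 0))))
    [(108806012928, 5726797824), (206158430208, 68719476736), (2061584302080, 687194767360)] rfl (by decide +kernel)
end

mutual
theorem A5_c2_t10 : CovD 1 gA5 [(120259608576, 5726797824), (68719476736, 68719476736), (2061584302080, 687194767360)] :=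
  covD_E kA5_eq (.n 1 (.n 2 (.n 2 (.n 2 (.l 0) (.l 0)) (.l 0)) (.n 2 (.l 0) (.l 0))) (.n 2 (.n 2 (.n 0 (.l 0) (.l 0)) (.l 0)) (.n 2 (.l 0) (.l 0))))
    [(120259608576, 5726797824), (68719476736, 68719476736), (2061584302080, 687194767360)] rfl (by decide +kernel)
theorem A5_c2_t11 : CovD 1 gA5 [(120259608576, 5726797824), (206158430208, 68719476736), (2061584302080, 687194767360)] :=
  covD_E kA5_eq (.n 1 (.n 2 (.n 2 (.n 0 (.l 0) (.l 0)) (.l 0)) (.n 2 (.l 0) (.l 0))) (.n 2 (.n 2 (.n 0 (.l 0) (.l 0)) (.l 0)) (.n 2 (.l 0) (.l 0))))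
    [(120259608576, 5726797824), (206158430208, 68719476736), (2061584302080, 687194767360)] rfl (by decide +kernel)
end

mutual
theorem A5_c2_t13 : CovD 1 gA5 [(131713204224, 5726797824), (68719476736, 68719476736), (2061584302080, 687194767360)] :=
  covD_E kA5_eq (.n 1 (.n 2 (.n 2 (.n 2 (.l 0) (.l 0)) (.l 0)) (.n 2 (.l 0) (.l 0))) (.n 2 (.n 2 (.n 0 (.l 0) (.l 0)) (.l 0)) (.n 2 (.l 0) (.l 0))))
    [(131713204224, 5726797824), (68719476736, 68719476736), (2061584302080, 687194767360)] rfl (by decide +kernel)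
theorem A5_c2_t14 : CovD 1 gA5 [(131713204224, 5726797824), (206158430208, 68719476736), (2061584302080, 687194767360)] :=
  covD_E kA5_eq (.n 1 (.n 2 (.n 2 (.n 0 (.l 0) (.l 0)) (.l 0)) (.n 2 (.l 0) (.l 0))) (.n 2 (.n 2 (.n 0 (.l 0) (.l 0)) (.l 0)) (.n 2 (.l 0) (.l 0))))
    [(131713204224, 5726797824), (206158430208, 68719476736), (2061584302080, 687194767360)] rfl (by decide +kernel)
end

mutual
theorem A5_c3_t4 : CovD 1 gA5 [(97352417280, 5726797824), (68719476736, 68719476736), (3435973836800, 687194767360)] :=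
  covD_E kA5_eq (.n 2 (.n 2 (.n 0 (.l 0) (.l 0)) (.l 0)) (.n 0 (.l 0) (.l 0)))
    [(97352417280, 5726797824), (68719476736, 68719476736), (3435973836800, 687194767360)] rfl (by decide +kernel)
theorem A5_c3_t5 : CovD 1 gA5 [(97352417280, 5726797824), (68719476736, 68719476736), (4810363371520, 687194767360)] :=
  covD_E kA5_eq (.n 0 (.n 2 (.n 2 (.l 0) (.n 0 (.n 0 (.n 2 (.l 0) (.l 1)) (.l 0)) (.l 0))) (.n 2 (.n 0 (.l 1) (.n 2 (.l 0) (.l 0))) (.l 1))) (.n 2 (.l 0) (.n 2 (.l 0) (.l 0))))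
    [(97352417280, 5726797824), (68719476736, 68719476736), (4810363371520, 687194767360)] rfl (by decide +kernel)
end

mutual
theorem A5_c3_t7 : CovD 1 gA5 [(97352417280, 5726797824), (206158430208, 68719476736), (3435973836800, 687194767360)] :=
  covD_E kA5_eq (.n 2 (.n 2 (.l 0) (.l 0)) (.n 0 (.l 0) (.l 0)))
    [(97352417280, 5726797824), (206158430208, 68719476736), (3435973836800, 687194767360)] rfl (by decide +kernel)
theorem A5_c3_t8 : CovD 1 gA5 [(97352417280, 5726797824), (206158430208, 68719476736), (4810363371520, 687194767360)] :=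
  covD_E kA5_eq (.n 0 (.n 0 (.n 2 (.n 2 (.l 0) (.n 2 (.l 0) (.l 0))) (.n 2 (.n 0 (.l 1) (.n 1 (.l 1) (.l 0))) (.l 1))) (.n 2 (.l 0) (.n 2 (.l 0) (.l 1)))) (.n 2 (.l 0) (.n 2 (.l 0) (.l 0))))
    [(97352417280, 5726797824), (206158430208, 68719476736), (4810363371520, 687194767360)] rfl (by decide +kernel)
end

mutual
theorem A5_c3_t9 : CovD 1 gA5 [(108806012928, 5726797824), (137438953472, 137438953472), (4123168604160, 1374389534720)] :=
  covD_E kA5_eq (.n 1 (.n 2 (.n 2 (.n 2 (.n 0 (.l 0) (.l 0)) (.l 0)) (.n 0 (.l 0) (.l 0))) (.n 0 (.n 2 (.l 0) (.l 0)) (.n 2 (.l 0) (.l 0)))) (.n 2 (.n 2 (.n 2 (.l 0) (.l 0)) (.n 0 (.l 0) (.l 0))) (.n 2 (.n 0 (.l 0) (.l 0)) (.l 0))))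
    [(108806012928, 5726797824), (137438953472, 137438953472), (4123168604160, 1374389534720)] rfl (by decide +kernel)
theorem A5_c3_t11 : CovD 1 gA5 [(120259608576, 5726797824), (137438953472, 137438953472), (4123168604160, 1374389534720)] :=
  covD_E kA5_eq (.n 1 (.n 2 (.n 2 (.n 2 (.n 0 (.l 0) (.l 0)) (.l 0)) (.n 1 (.l 0) (.l 0))) (.n 0 (.n 2 (.l 0) (.l 0)) (.n 2 (.l 0) (.l 0)))) (.n 2 (.n 1 (.n 2 (.l 0) (.l 0)) (.n 2 (.l 0) (.l 0))) (.n 2 (.n 0 (.l 0) (.l 0)) (.l 0))))
    [(120259608576, 5726797824), (137438953472, 137438953472), (4123168604160, 1374389534720)] rfl (by decide +kernel)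
end

mutual
theorem A5_c3_t13 : CovD 1 gA5 [(131713204224, 5726797824), (68719476736, 68719476736), (4123168604160, 1374389534720)] :=
  covD_E kA5_eq (.n 1 (.n 2 (.n 2 (.n 0 (.l 0) (.l 0)) (.l 0)) (.n 2 (.l 0) (.l 0))) (.n 2 (.n 2 (.n 0 (.l 0) (.l 0)) (.l 0)) (.n 2 (.l 0) (.l 0))))
    [(131713204224, 5726797824), (68719476736, 68719476736), (4123168604160, 1374389534720)] rfl (by decide +kernel)
theorem A5_c3_t14 : CovD 1 gA5 [(131713204224, 5726797824), (206158430208, 68719476736), (4123168604160, 1374389534720)] :=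
  covD_E kA5_eq (.n 2 (.n 1 (.n 2 (.l 0) (.l 0)) (.n 2 (.l 0) (.l 0))) (.n 2 (.n 0 (.l 0) (.l 0)) (.l 0)))
    [(131713204224, 5726797824), (206158430208, 68719476736), (4123168604160, 1374389534720)] rfl (by decide +kernel)
end

mutual
theorem A5_c4_t2 : CovD 1 gA5 [(97352417280, 5726797824), (137438953472, 137438953472), (8246337208320, 2748779069440)] :=
  covD_E kA5_eq (.n 1 (.n 2 (.n 2 (.n 0 (.l 1) (.n 2 (.n 0 (.l 1) (.n 0 (.l 1) (.l 0))) (.l 1))) (.l 1)) (.l 1)) (.n 2 (.n 2 (.n 0 (.n 2 (.l 1) (.l 1)) (.n 2 (.n 0 (.n 2 (.l 1) (.l 1)) (.l 0)) (.l 1))) (.l 1)) (.l 1)))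
    [(97352417280, 5726797824), (137438953472, 137438953472), (8246337208320, 2748779069440)] rfl (by decide +kernel)
theorem A5_c4_t4 : CovD 1 gA5 [(108806012928, 5726797824), (137438953472, 137438953472), (6871947673600, 1374389534720)] :=
  covD_E kA5_eq (.n 1 (.n 0 (.n 2 (.n 2 (.l 0) (.l 0)) (.n 2 (.l 1) (.l 1))) (.n 2 (.n 1 (.l 0) (.l 0)) (.l 0))) (.n 2 (.n 2 (.l 0) (.l 0)) (.n 0 (.n 0 (.l 1) (.l 0)) (.l 0))))
    [(108806012928, 5726797824), (137438953472, 137438953472), (6871947673600, 1374389534720)] rfl (by decide +kernel)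
end

mutual
theorem A5_c4_t5 : CovD 1 gA5 [(108806012928, 5726797824), (137438953472, 137438953472), (9620726743040, 1374389534720)] :=
  covD_E kA5_eq (.n 0 (.n 2 (.l 1) (.l 1)) (.n 1 (.n 2 (.l 0) (.l 0)) (.n 2 (.l 0) (.l 0))))
    [(108806012928, 5726797824), (137438953472, 137438953472), (9620726743040, 1374389534720)] rfl (by decide +kernel)
theorem A5_c4_t7 : CovD 1 gA5 [(120259608576, 5726797824), (137438953472, 137438953472), (8246337208320, 2748779069440)] :=
  covD_E kA5_eq (.n 1 (.n 2 (.n 2 (.n 2 (.n 0 (.l 0) (.l 0)) (.l 0)) (.n 0 (.l 0) (.l 0))) (.n 0 (.n 1 (.l 0) (.l 0)) (.n 1 (.l 0) (.l 0)))) (.n 2 (.n 1 (.n 2 (.l 0) (.l 0)) (.n 2 (.l 0) (.l 0))) (.n 2 (.l 0) (.l 0))))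
    [(120259608576, 5726797824), (137438953472, 137438953472), (8246337208320, 2748779069440)] rfl (by decide +kernel)
end

mutual
theorem A5_c4_t8 : CovD 1 gA5 [(131713204224, 5726797824), (137438953472, 137438953472), (8246337208320, 2748779069440)] :=
  covD_E kA5_eq (.n 1 (.n 1 (.n 2 (.n 2 (.n 0 (.l 0) (.l 0)) (.l 0)) (.n 0 (.l 0) (.l 0))) (.n 2 (.n 2 (.l 0) (.l 0)) (.n 0 (.l 0) (.l 0)))) (.n 2 (.n 1 (.n 2 (.l 0) (.l 0)) (.n 2 (.l 0) (.l 0))) (.n 2 (.l 0) (.l 0))))
    [(131713204224, 5726797824), (137438953472, 137438953472), (8246337208320, 2748779069440)] rfl (by decide +kernel)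
theorem B5_c0_t1 : CovD 1 gB5 [(103079215104, 11453595648), (137438953472, 137438953472), (54975791104, 54975791104)] :=
  covD_E kB5_eq (.n 0 (.n 2 (.l 1) (.n 0 (.l 1) (.l 1))) (.n 2 (.n 2 (.l 1) (.l 1)) (.n 0 (.n 1 (.l 1) (.l 1)) (.n 2 (.l 1) (.n 1 (.l 1) (.l 0))))))
    [(103079215104, 11453595648), (137438953472, 137438953472), (54975791104, 54975791104)] rfl (by decide +kernel)
end

theorem B5_c0_t2 : CovD 1 gB5 [(125986406400, 11453595648), (137438953472, 137438953472), (54975791104, 54975791104)] :=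
  covD_E kB5_eq (.n 0 (.n 1 (.n 1 (.n 2 (.l 0) (.l 0)) (.n 2 (.l 0) (.l 0))) (.n 2 (.l 0) (.l 0))) (.n 1 (.n 2 (.l 0) (.n 0 (.l 0) (.l 0))) (.n 2 (.l 0) (.l 0))))
    [(125986406400, 11453595648), (137438953472, 137438953472), (54975791104, 54975791104)] rfl (by decide +kernel)

theorem A5_c1_t9 : CovD 1 gA5 [(125986406400, 11453595648), (34359738368, 34359738368), (150323855360, 21474836480)] :=
  covD_split 2 (by decide +kernel) A5_c1_t10 A5_c1_t11

theorem A5_c1_t7 : CovD 1 gA5 [(125986406400, 11453595648), (34359738368, 34359738368), (128849018880, 42949672960)] :=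
  covD_split 2 (by decide +kernel) A5_c1_t8 A5_c1_t9

theorem A5_c1_t6 : CovD 1 gA5 [(125986406400, 11453595648), (68719476736, 68719476736), (128849018880, 42949672960)] :=
  covD_split 1 (by decide +kernel) A5_c1_t7 A5_c1_t12

theorem A5_c1_t4 : CovD 1 gA5 [(125986406400, 11453595648), (68719476736, 68719476736), (85899345920, 85899345920)] :=
  covD_split 2 (by decide +kernel) A5_c1_t5 A5_c1_t6

theorem A5_c1_t15 : CovD 1 gA5 [(125986406400, 11453595648), (17179869184, 17179869184), (257698037760, 85899345920)] :=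
  covD_split 1 (by decide +kernel) A5_c1_t16 A5_c1_t17

theorem A5_c1_t18 : CovD 1 gA5 [(125986406400, 11453595648), (51539607552, 17179869184), (257698037760, 85899345920)] :=
  covD_split 0 (by decide +kernel) A5_c1_t19 A5_c1_t20

theorem A5_c1_t14 : CovD 1 gA5 [(125986406400, 11453595648), (34359738368, 34359738368), (257698037760, 85899345920)] :=
  covD_split 1 (by decide +kernel) A5_c1_t15 A5_c1_t18

theorem A5_c1_t21 : CovD 1 gA5 [(125986406400, 11453595648), (103079215104, 34359738368), (257698037760, 85899345920)] :=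
  covD_split 1 (by decide +kernel) A5_c1_t22 A5_c1_t23

theorem A5_c1_t13 : CovD 1 gA5 [(125986406400, 11453595648), (68719476736, 68719476736), (257698037760, 85899345920)] :=
  covD_split 1 (by decide +kernel) A5_c1_t14 A5_c1_t21

theorem A5_c1_t3 : CovD 1 gA5 [(125986406400, 11453595648), (68719476736, 68719476736), (171798691840, 171798691840)] :=
  covD_split 2 (by decide +kernel) A5_c1_t4 A5_c1_t13

theorem A5_c1_t26 : CovD 1 gA5 [(120259608576, 5726797824), (34359738368, 34359738368), (515396075520, 171798691840)] :=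
  covD_split 1 (by decide +kernel) A5_c1_t27 A5_c1_t28

theorem A5_c1_t29 : CovD 1 gA5 [(131713204224, 5726797824), (34359738368, 34359738368), (515396075520, 171798691840)] :=
  covD_split 1 (by decide +kernel) A5_c1_t30 A5_c1_t31

theorem A5_c1_t25 : CovD 1 gA5 [(125986406400, 11453595648), (34359738368, 34359738368), (515396075520, 171798691840)] :=
  covD_split 0 (by decide +kernel) A5_c1_t26 A5_c1_t29

theorem A5_c1_t32 : CovD 1 gA5 [(125986406400, 11453595648), (103079215104, 34359738368), (515396075520, 171798691840)] :=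
  covD_split 0 (by decide +kernel) A5_c1_t33 A5_c1_t34

theorem A5_c1_t24 : CovD 1 gA5 [(125986406400, 11453595648), (68719476736, 68719476736), (515396075520, 171798691840)] :=
  covD_split 1 (by decide +kernel) A5_c1_t25 A5_c1_t32

theorem A5_c1_t2 : CovD 1 gA5 [(125986406400, 11453595648), (68719476736, 68719476736), (343597383680, 343597383680)] :=
  covD_split 2 (by decide +kernel) A5_c1_t3 A5_c1_t24

theorem A5_c1_t36 : CovD 1 gA5 [(120259608576, 5726797824), (68719476736, 68719476736), (1030792151040, 343597383680)] :=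
  covD_split 1 (by decide +kernel) A5_c1_t37 A5_c1_t38

theorem A5_c1_t39 : CovD 1 gA5 [(131713204224, 5726797824), (68719476736, 68719476736), (1030792151040, 343597383680)] :=
  covD_split 1 (by decide +kernel) A5_c1_t40 A5_c1_t41

theorem A5_c1_t35 : CovD 1 gA5 [(125986406400, 11453595648), (68719476736, 68719476736), (1030792151040, 343597383680)] :=
  covD_split 0 (by decide +kernel) A5_c1_t36 A5_c1_t39

theorem A5_c1_t1 : CovD 1 gA5 [(125986406400, 11453595648), (68719476736, 68719476736), (687194767360, 687194767360)] :=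
  covD_split 2 (by decide +kernel) A5_c1_t2 A5_c1_t35

theorem A5_c1_t45 : CovD 1 gA5 [(125986406400, 11453595648), (171798691840, 34359738368), (171798691840, 171798691840)] :=
  covD_split 2 (by decide +kernel) A5_c1_t46 A5_c1_t47

theorem A5_c1_t48 : CovD 1 gA5 [(125986406400, 11453595648), (171798691840, 34359738368), (515396075520, 171798691840)] :=
  covD_split 0 (by decide +kernel) A5_c1_t49 A5_c1_t50

theorem A5_c1_t44 : CovD 1 gA5 [(125986406400, 11453595648), (171798691840, 34359738368), (343597383680, 343597383680)] :=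
  covD_split 2 (by decide +kernel) A5_c1_t45 A5_c1_t48

theorem A5_c1_t51 : CovD 1 gA5 [(125986406400, 11453595648), (171798691840, 34359738368), (1030792151040, 343597383680)] :=
  covD_split 0 (by decide +kernel) A5_c1_t52 A5_c1_t53

theorem A5_c1_t43 : CovD 1 gA5 [(125986406400, 11453595648), (171798691840, 34359738368), (687194767360, 687194767360)] :=
  covD_split 2 (by decide +kernel) A5_c1_t44 A5_c1_t51

theorem A5_c1_t55 : CovD 1 gA5 [(125986406400, 11453595648), (240518168576, 34359738368), (343597383680, 343597383680)] :=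
  covD_split 2 (by decide +kernel) A5_c1_t56 A5_c1_t57

theorem A5_c1_t54 : CovD 1 gA5 [(125986406400, 11453595648), (240518168576, 34359738368), (687194767360, 687194767360)] :=
  covD_split 2 (by decide +kernel) A5_c1_t55 A5_c1_t58

theorem A5_c1_t42 : CovD 1 gA5 [(125986406400, 11453595648), (206158430208, 68719476736), (687194767360, 687194767360)] :=
  covD_split 1 (by decide +kernel) A5_c1_t43 A5_c1_t54

theorem A5_c1 : CovD 1 gA5 [(125986406400, 11453595648), (137438953472, 137438953472), (687194767360, 687194767360)] :=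
  covD_split 1 (by decide +kernel) A5_c1_t1 A5_c1_t42

theorem A5_c2_t2 : CovD 1 gA5 [(97352417280, 5726797824), (137438953472, 137438953472), (2061584302080, 687194767360)] :=
  covD_split 1 (by decide +kernel) A5_c2_t3 A5_c2_t4

theorem A5_c2_t5 : CovD 1 gA5 [(108806012928, 5726797824), (137438953472, 137438953472), (2061584302080, 687194767360)] :=
  covD_split 1 (by decide +kernel) A5_c2_t6 A5_c2_t7

theorem A5_c2_t1 : CovD 1 gA5 [(103079215104, 11453595648), (137438953472, 137438953472), (2061584302080, 687194767360)] :=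
  covD_split 0 (by decide +kernel) A5_c2_t2 A5_c2_t5

theorem A5_c2_t9 : CovD 1 gA5 [(120259608576, 5726797824), (137438953472, 137438953472), (2061584302080, 687194767360)] :=
  covD_split 1 (by decide +kernel) A5_c2_t10 A5_c2_t11

theorem A5_c2_t12 : CovD 1 gA5 [(131713204224, 5726797824), (137438953472, 137438953472), (2061584302080, 687194767360)] :=
  covD_split 1 (by decide +kernel) A5_c2_t13 A5_c2_t14

theorem A5_c2_t8 : CovD 1 gA5 [(125986406400, 11453595648), (137438953472, 137438953472), (2061584302080, 687194767360)] :=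
  covD_split 0 (by decide +kernel) A5_c2_t9 A5_c2_t12

theorem A5_c2 : CovD 1 gA5 [(114532810752, 22907191296), (137438953472, 137438953472), (2061584302080, 687194767360)] :=
  covD_split 0 (by decide +kernel) A5_c2_t1 A5_c2_t8

theorem A5_c3_t3 : CovD 1 gA5 [(97352417280, 5726797824), (68719476736, 68719476736), (4123168604160, 1374389534720)] :=
  covD_split 2 (by decide +kernel) A5_c3_t4 A5_c3_t5

theorem A5_c3_t6 : CovD 1 gA5 [(97352417280, 5726797824), (206158430208, 68719476736), (4123168604160, 1374389534720)] :=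
  covD_split 2 (by decide +kernel) A5_c3_t7 A5_c3_t8

theorem A5_c3_t2 : CovD 1 gA5 [(97352417280, 5726797824), (137438953472, 137438953472), (4123168604160, 1374389534720)] :=
  covD_split 1 (by decide +kernel) A5_c3_t3 A5_c3_t6

theorem A5_c3_t1 : CovD 1 gA5 [(103079215104, 11453595648), (137438953472, 137438953472), (4123168604160, 1374389534720)] :=
  covD_split 0 (by decide +kernel) A5_c3_t2 A5_c3_t9

theorem A5_c3_t12 : CovD 1 gA5 [(131713204224, 5726797824), (137438953472, 137438953472), (4123168604160, 1374389534720)] :=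
  covD_split 1 (by decide +kernel) A5_c3_t13 A5_c3_t14

theorem A5_c3_t10 : CovD 1 gA5 [(125986406400, 11453595648), (137438953472, 137438953472), (4123168604160, 1374389534720)] :=
  covD_split 0 (by decide +kernel) A5_c3_t11 A5_c3_t12

theorem A5_c3 : CovD 1 gA5 [(114532810752, 22907191296), (137438953472, 137438953472), (4123168604160, 1374389534720)] :=
  covD_split 0 (by decide +kernel) A5_c3_t1 A5_c3_t10

theorem A5_c4_t3 : CovD 1 gA5 [(108806012928, 5726797824), (137438953472, 137438953472), (8246337208320, 2748779069440)] :=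
  covD_split 2 (by decide +kernel) A5_c4_t4 A5_c4_t5

theorem A5_c4_t1 : CovD 1 gA5 [(103079215104, 11453595648), (137438953472, 137438953472), (8246337208320, 2748779069440)] :=
  covD_split 0 (by decide +kernel) A5_c4_t2 A5_c4_t3

theorem A5_c4_t6 : CovD 1 gA5 [(125986406400, 11453595648), (137438953472, 137438953472), (8246337208320, 2748779069440)] :=
  covD_split 0 (by decide +kernel) A5_c4_t7 A5_c4_t8

theorem A5_c4 : CovD 1 gA5 [(114532810752, 22907191296), (137438953472, 137438953472), (8246337208320, 2748779069440)] :=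
  covD_split 0 (by decide +kernel) A5_c4_t1 A5_c4_t6

theorem B5_c0 : CovD 1 gB5 [(114532810752, 22907191296), (137438953472, 137438953472), (54975791104, 54975791104)] :=
  covD_split 0 (by decide +kernel) B5_c0_t1 B5_c0_t2

end Pool.Agent.helper14.NR.E8a
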