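import Pool.Agent.helper14.NR.E8a.PN5

/-!
Generated: certificates.
-/

namespace Pool.Agent.helper14.NR.E8a

open Pool.Agent.helper31.IA (Z)
open Pool.Agent.helper31.IX (Op XOps runX Cov CovD cov_split covD_split)
open Pool.Agent.helper31.IC (TD)
open Pool.Agent.helper63.RG (reloc)
open Pool.Agent.helper63.NF hiding TD
open Pool.Agent.helper14.CF (xE covD_E)
open Pool.Agent.helper14.NR (share)

mutual
theorem C5_c0_t5 : CovD 1 gC5 [(103079215104, 11453595648), (17179869184, 17179869184), (274877906944, 274877906944)] :=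
  covD_E kC5_eq (.n 1 (.n 0 (.n 2 (.n 2 (.l 0) (.l 0)) (.n 2 (.l 0) (.l 0))) (.n 2 (.n 2 (.l 0) (.l 0)) (.n 2 (.l 0) (.l 0)))) (.n 2 (.n 2 (.l 0) (.l 0)) (.n 2 (.l 0) (.n 0 (.l 0) (.l 0)))))
    [(103079215104, 11453595648), (17179869184, 17179869184), (274877906944, 274877906944)] rfl (by decide +kernel)
theorem C5_c0_t6 : CovD 1 gC5 [(103079215104, 11453595648), (51539607552, 17179869184), (274877906944, 274877906944)] :=
  covD_E kC5_eq (.n 2 (.n 2 (.l 0) (.l 0)) (.n 2 (.l 0) (.n 0 (.l 0) (.l 0))))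
    [(103079215104, 11453595648), (51539607552, 17179869184), (274877906944, 274877906944)] rfl (by decide +kernel)
end

mutual
theorem C5_c0_t7 : CovD 1 gC5 [(103079215104, 11453595648), (103079215104, 34359738368), (274877906944, 274877906944)] :=
  covD_E kC5_eq (.n 0 (.n 2 (.l 0) (.n 0 (.l 0) (.l 0))) (.n 2 (.l 0) (.n 0 (.l 0) (.l 0))))
    [(103079215104, 11453595648), (103079215104, 34359738368), (274877906944, 274877906944)] rfl (by decide +kernel)
theorem C5_c0_t8 : CovD 1 gC5 [(103079215104, 11453595648), (206158430208, 68719476736), (274877906944, 274877906944)] :=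
  covD_E kC5_eq (.n 0 (.n 1 (.n 2 (.l 0) (.l 0)) (.n 2 (.l 0) (.l 0))) (.n 1 (.n 2 (.l 0) (.l 0)) (.n 2 (.l 0) (.l 0))))
    [(103079215104, 11453595648), (206158430208, 68719476736), (274877906944, 274877906944)] rfl (by decide +kernel)
end

mutual
theorem C5_c0_t14 : CovD 1 gC5 [(97352417280, 5726797824), (8589934592, 8589934592), (824633720832, 274877906944)] :=
  covD_E kC5_eq (.n 2 (.n 2 (.l 0) (.n 0 (.l 0) (.l 0))) (.n 1 (.n 2 (.l 0) (.n 2 (.l 0) (.n 2 (.l 0) (.n 2 (.l 0) (.n 0 (.n 0 (.l 1) (.l 1)) (.n 0 (.l 1) (.l 1))))))) (.n 2 (.l 0) (.l 0))))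
    [(97352417280, 5726797824), (8589934592, 8589934592), (824633720832, 274877906944)] rfl (by decide +kernel)
theorem C5_c0_t15 : CovD 1 gC5 [(97352417280, 5726797824), (25769803776, 8589934592), (824633720832, 274877906944)] :=
  covD_E kC5_eq (.n 2 (.n 2 (.l 0) (.l 0)) (.n 2 (.l 0) (.n 0 (.l 0) (.l 0))))
    [(97352417280, 5726797824), (25769803776, 8589934592), (824633720832, 274877906944)] rfl (by decide +kernel)
end

mutual
theorem C5_c0_t16 : CovD 1 gC5 [(97352417280, 5726797824), (51539607552, 17179869184), (824633720832, 274877906944)] :=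
  covD_E kC5_eq (.n 2 (.n 2 (.l 0) (.l 0)) (.n 1 (.n 1 (.l 0) (.l 0)) (.l 0)))
    [(97352417280, 5726797824), (51539607552, 17179869184), (824633720832, 274877906944)] rfl (by decide +kernel)
theorem C5_c0_t17 : CovD 1 gC5 [(97352417280, 5726797824), (103079215104, 34359738368), (824633720832, 274877906944)] :=
  covD_E kC5_eq (.n 1 (.n 2 (.l 0) (.l 0)) (.n 2 (.l 0) (.l 0)))
    [(97352417280, 5726797824), (103079215104, 34359738368), (824633720832, 274877906944)] rfl (by decide +kernel)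
end

mutual
theorem C5_c0_t18 : CovD 1 gC5 [(97352417280, 5726797824), (206158430208, 68719476736), (824633720832, 274877906944)] :=
  covD_E kC5_eq (.n 1 (.n 2 (.l 0) (.n 0 (.l 0) (.l 0))) (.n 2 (.l 0) (.n 0 (.l 0) (.l 0))))
    [(97352417280, 5726797824), (206158430208, 68719476736), (824633720832, 274877906944)] rfl (by decide +kernel)
theorem C5_c0_t23 : CovD 1 gC5 [(108806012928, 5726797824), (8589934592, 8589934592), (824633720832, 274877906944)] :=
  covD_E kC5_eq (.n 1 (.n 2 (.n 2 (.l 0) (.l 0)) (.n 2 (.l 0) (.n 2 (.l 0) (.n 2 (.l 0) (.n 2 (.l 0) (.n 2 (.l 0) (.n 0 (.l 1) (.l 1)))))))) (.n 2 (.n 2 (.l 0) (.l 0)) (.n 2 (.l 0) (.l 0))))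
    [(108806012928, 5726797824), (8589934592, 8589934592), (824633720832, 274877906944)] rfl (by decide +kernel)
end

mutual
theorem C5_c0_t24 : CovD 1 gC5 [(108806012928, 5726797824), (25769803776, 8589934592), (824633720832, 274877906944)] :=
  covD_E kC5_eq (.n 2 (.n 2 (.l 0) (.l 0)) (.n 2 (.l 0) (.n 1 (.l 0) (.l 0))))
    [(108806012928, 5726797824), (25769803776, 8589934592), (824633720832, 274877906944)] rfl (by decide +kernel)
theorem C5_c0_t25 : CovD 1 gC5 [(108806012928, 5726797824), (51539607552, 17179869184), (824633720832, 274877906944)] :=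
  covD_E kC5_eq (.n 2 (.n 2 (.l 0) (.l 0)) (.n 1 (.n 2 (.l 0) (.l 0)) (.l 0)))
    [(108806012928, 5726797824), (51539607552, 17179869184), (824633720832, 274877906944)] rfl (by decide +kernel)
end

mutual
theorem C5_c0_t26 : CovD 1 gC5 [(108806012928, 5726797824), (103079215104, 34359738368), (824633720832, 274877906944)] :=
  covD_E kC5_eq (.n 1 (.n 2 (.l 0) (.l 0)) (.n 2 (.l 0) (.l 0)))
    [(108806012928, 5726797824), (103079215104, 34359738368), (824633720832, 274877906944)] rfl (by decide +kernel)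
theorem C5_c0_t27 : CovD 1 gC5 [(108806012928, 5726797824), (206158430208, 68719476736), (824633720832, 274877906944)] :=
  covD_E kC5_eq (.n 1 (.n 2 (.l 0) (.n 0 (.l 0) (.l 0))) (.n 2 (.l 0) (.n 0 (.l 0) (.l 1))))
    [(108806012928, 5726797824), (206158430208, 68719476736), (824633720832, 274877906944)] rfl (by decide +kernel)
end

mutual
theorem C5_c0_t33 : CovD 1 gC5 [(125986406400, 11453595648), (8589934592, 8589934592), (274877906944, 274877906944)] :=
  covD_E kC5_eq (.n 0 (.n 2 (.n 2 (.l 0) (.l 0)) (.n 2 (.l 0) (.l 0))) (.n 2 (.n 2 (.l 0) (.l 0)) (.n 2 (.l 0) (.l 0))))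
    [(125986406400, 11453595648), (8589934592, 8589934592), (274877906944, 274877906944)] rfl (by decide +kernel)
theorem C5_c0_t35 : CovD 1 gC5 [(125986406400, 11453595648), (4294967296, 4294967296), (824633720832, 274877906944)] :=
  covD_E kC5_eq (.n 1 (.n 2 (.n 2 (.l 0) (.l 0)) (.n 2 (.l 0) (.n 2 (.l 0) (.n 2 (.l 0) (.n 2 (.l 0) (.n 0 (.n 0 (.n 0 (.l 1) (.l 1)) (.l 1)) (.n 0 (.l 1) (.l 1)))))))) (.n 2 (.n 2 (.l 0) (.l 0)) (.n 2 (.l 0) (.l 0))))
    [(125986406400, 11453595648), (4294967296, 4294967296), (824633720832, 274877906944)] rfl (by decide +kernel)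
end

mutual
theorem C5_c0_t36 : CovD 1 gC5 [(125986406400, 11453595648), (12884901888, 4294967296), (824633720832, 274877906944)] :=
  covD_E kC5_eq (.n 2 (.n 2 (.l 0) (.n 0 (.l 0) (.l 0))) (.n 0 (.n 2 (.l 0) (.l 0)) (.n 2 (.l 0) (.l 0))))
    [(125986406400, 11453595648), (12884901888, 4294967296), (824633720832, 274877906944)] rfl (by decide +kernel)
theorem C5_c0_t37 : CovD 1 gC5 [(125986406400, 11453595648), (25769803776, 8589934592), (549755813888, 549755813888)] :=
  covD_E kC5_eq (.n 2 (.n 2 (.n 2 (.l 0) (.l 0)) (.n 2 (.l 0) (.l 0))) (.n 1 (.n 2 (.n 2 (.l 0) (.l 0)) (.n 0 (.n 2 (.l 0) (.l 0)) (.n 2 (.l 0) (.l 0)))) (.n 2 (.n 0 (.l 0) (.l 0)) (.n 2 (.l 0) (.n 0 (.l 0) (.l 0))))))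
    [(125986406400, 11453595648), (25769803776, 8589934592), (549755813888, 549755813888)] rfl (by decide +kernel)
end

mutual
theorem C5_c0_t38 : CovD 1 gC5 [(125986406400, 11453595648), (51539607552, 17179869184), (549755813888, 549755813888)] :=
  covD_E kC5_eq (.n 2 (.n 2 (.n 2 (.l 0) (.l 0)) (.n 2 (.l 0) (.l 0))) (.n 1 (.n 2 (.n 2 (.l 0) (.l 0)) (.n 2 (.l 0) (.n 0 (.l 0) (.l 0)))) (.n 0 (.n 2 (.l 0) (.l 0)) (.n 2 (.l 0) (.l 0)))))
    [(125986406400, 11453595648), (51539607552, 17179869184), (549755813888, 549755813888)] rfl (by decide +kernel)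
theorem C5_c0_t39 : CovD 1 gC5 [(125986406400, 11453595648), (103079215104, 34359738368), (549755813888, 549755813888)] :=
  covD_E kC5_eq (.n 1 (.n 2 (.n 2 (.l 0) (.n 0 (.l 0) (.l 0))) (.n 0 (.n 2 (.l 0) (.l 0)) (.n 2 (.l 0) (.l 0)))) (.n 2 (.n 2 (.l 0) (.l 0)) (.n 0 (.n 2 (.l 0) (.l 0)) (.n 2 (.l 0) (.l 0)))))
    [(125986406400, 11453595648), (103079215104, 34359738368), (549755813888, 549755813888)] rfl (by decide +kernel)
end

mutual
theorem C5_c0_t41 : CovD 1 gC5 [(120259608576, 5726797824), (206158430208, 68719476736), (549755813888, 549755813888)] :=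
  covD_E kC5_eq (.n 1 (.n 2 (.n 2 (.l 0) (.l 0)) (.n 2 (.l 0) (.n 0 (.l 0) (.l 0)))) (.n 2 (.n 2 (.l 0) (.l 0)) (.n 2 (.n 0 (.l 0) (.l 0)) (.l 1))))
    [(120259608576, 5726797824), (206158430208, 68719476736), (549755813888, 549755813888)] rfl (by decide +kernel)
theorem C5_c0_t42 : CovD 1 gC5 [(131713204224, 5726797824), (206158430208, 68719476736), (549755813888, 549755813888)] :=
  covD_E kC5_eq (.n 1 (.n 2 (.n 2 (.l 0) (.l 0)) (.n 1 (.n 2 (.l 0) (.l 0)) (.n 2 (.l 0) (.l 0)))) (.n 2 (.n 2 (.l 0) (.l 0)) (.n 2 (.n 1 (.l 0) (.l 0)) (.l 1))))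
    [(131713204224, 5726797824), (206158430208, 68719476736), (549755813888, 549755813888)] rfl (by decide +kernel)
end

mutual
theorem D5_c0_t2 : CovD 1 gD5 [(103079215104, 11453595648), (68719476736, 68719476736), (863554764800, 863554764800)] :=
  covD_E kD5_eq (.n 2 (.n 2 (.n 0 (.l 0) (.l 0)) (.n 2 (.l 0) (.l 0))) (.n 2 (.n 2 (.l 0) (.n 0 (.l 0) (.l 0))) (.n 0 (.n 2 (.l 0) (.n 2 (.l 0) (.l 0))) (.n 2 (.l 0) (.l 0)))))
    [(103079215104, 11453595648), (68719476736, 68719476736), (863554764800, 863554764800)] rfl (by decide +kernel)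
theorem D5_c0_t3 : CovD 1 gD5 [(103079215104, 11453595648), (206158430208, 68719476736), (863554764800, 863554764800)] :=
  covD_E kD5_eq (.n 2 (.n 2 (.n 0 (.l 0) (.l 0)) (.n 2 (.l 0) (.l 0))) (.n 2 (.n 2 (.l 0) (.l 0)) (.n 0 (.n 2 (.l 0) (.n 2 (.l 0) (.l 0))) (.n 2 (.l 0) (.l 0)))))
    [(103079215104, 11453595648), (206158430208, 68719476736), (863554764800, 863554764800)] rfl (by decide +kernel)
end

mutual
theorem D5_c0_t5 : CovD 1 gD5 [(125986406400, 11453595648), (68719476736, 68719476736), (863554764800, 863554764800)] :=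
  covD_E kD5_eq (.n 2 (.n 2 (.n 2 (.l 0) (.l 0)) (.n 2 (.l 0) (.l 0))) (.n 0 (.n 2 (.n 2 (.l 0) (.l 0)) (.n 2 (.l 0) (.l 0))) (.n 2 (.n 2 (.l 0) (.l 0)) (.l 1))))
    [(125986406400, 11453595648), (68719476736, 68719476736), (863554764800, 863554764800)] rfl (by decide +kernel)
theorem D5_c0_t6 : CovD 1 gD5 [(125986406400, 11453595648), (206158430208, 68719476736), (863554764800, 863554764800)] :=
  covD_E kD5_eq (.n 2 (.n 2 (.n 2 (.l 0) (.l 0)) (.n 2 (.l 0) (.l 0))) (.n 2 (.n 0 (.n 2 (.l 0) (.l 0)) (.n 2 (.l 0) (.l 0))) (.n 2 (.l 1) (.l 1))))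
    [(125986406400, 11453595648), (206158430208, 68719476736), (863554764800, 863554764800)] rfl (by decide +kernel)
end

mutual
theorem E5_c0_t1 : CovD 1 gE5 [(114532810752, 22907191296), (137438953472, 137438953472), (431777382400, 431777382400)] :=
  covD_E kE5_eq (.n 1 (.n 2 (.l 1) (.n 0 (.l 1) (.l 1))) (.n 2 (.l 1) (.l 1)))
    [(114532810752, 22907191296), (137438953472, 137438953472), (431777382400, 431777382400)] rfl (by decide +kernel)
theorem E5_c0_t2 : CovD 1 gE5 [(114532810752, 22907191296), (137438953472, 137438953472), (1295332147200, 431777382400)] :=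
  covD_E kE5_eq (.n 0 (.n 1 (.n 2 (.l 1) (.n 0 (.n 2 (.l 1) (.n 2 (.l 1) (.n 2 (.l 0) (.l 0)))) (.l 1))) (.n 2 (.l 1) (.n 0 (.n 2 (.l 1) (.n 0 (.n 2 (.l 1) (.l 0)) (.l 1))) (.l 1)))) (.n 1 (.n 2 (.l 1) (.l 1)) (.n 2 (.l 1) (.l 1))))
    [(114532810752, 22907191296), (137438953472, 137438953472), (1295332147200, 431777382400)] rfl (by decide +kernel)
end

theorem C5_c0_t4 : CovD 1 gC5 [(103079215104, 11453595648), (34359738368, 34359738368), (274877906944, 274877906944)] :=
  covD_split 1 (by decide +kernel) C5_c0_t5 C5_c0_t6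

theorem C5_c0_t3 : CovD 1 gC5 [(103079215104, 11453595648), (68719476736, 68719476736), (274877906944, 274877906944)] :=
  covD_split 1 (by decide +kernel) C5_c0_t4 C5_c0_t7

theorem C5_c0_t2 : CovD 1 gC5 [(103079215104, 11453595648), (137438953472, 137438953472), (274877906944, 274877906944)] :=
  covD_split 1 (by decide +kernel) C5_c0_t3 C5_c0_t8

theorem C5_c0_t13 : CovD 1 gC5 [(97352417280, 5726797824), (17179869184, 17179869184), (824633720832, 274877906944)] :=
  covD_split 1 (by decide +kernel) C5_c0_t14 C5_c0_t15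

theorem C5_c0_t12 : CovD 1 gC5 [(97352417280, 5726797824), (34359738368, 34359738368), (824633720832, 274877906944)] :=
  covD_split 1 (by decide +kernel) C5_c0_t13 C5_c0_t16

theorem C5_c0_t11 : CovD 1 gC5 [(97352417280, 5726797824), (68719476736, 68719476736), (824633720832, 274877906944)] :=
  covD_split 1 (by decide +kernel) C5_c0_t12 C5_c0_t17

theorem C5_c0_t10 : CovD 1 gC5 [(97352417280, 5726797824), (137438953472, 137438953472), (824633720832, 274877906944)] :=
  covD_split 1 (by decide +kernel) C5_c0_t11 C5_c0_t18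

theorem C5_c0_t22 : CovD 1 gC5 [(108806012928, 5726797824), (17179869184, 17179869184), (824633720832, 274877906944)] :=
  covD_split 1 (by decide +kernel) C5_c0_t23 C5_c0_t24

theorem C5_c0_t21 : CovD 1 gC5 [(108806012928, 5726797824), (34359738368, 34359738368), (824633720832, 274877906944)] :=
  covD_split 1 (by decide +kernel) C5_c0_t22 C5_c0_t25

theorem C5_c0_t20 : CovD 1 gC5 [(108806012928, 5726797824), (68719476736, 68719476736), (824633720832, 274877906944)] :=
  covD_split 1 (by decide +kernel) C5_c0_t21 C5_c0_t26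

theorem C5_c0_t19 : CovD 1 gC5 [(108806012928, 5726797824), (137438953472, 137438953472), (824633720832, 274877906944)] :=
  covD_split 1 (by decide +kernel) C5_c0_t20 C5_c0_t27

theorem C5_c0_t9 : CovD 1 gC5 [(103079215104, 11453595648), (137438953472, 137438953472), (824633720832, 274877906944)] :=
  covD_split 0 (by decide +kernel) C5_c0_t10 C5_c0_t19

theorem C5_c0_t1 : CovD 1 gC5 [(103079215104, 11453595648), (137438953472, 137438953472), (549755813888, 549755813888)] :=
  covD_split 2 (by decide +kernel) C5_c0_t2 C5_c0_t9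

theorem C5_c0_t34 : CovD 1 gC5 [(125986406400, 11453595648), (8589934592, 8589934592), (824633720832, 274877906944)] :=
  covD_split 1 (by decide +kernel) C5_c0_t35 C5_c0_t36

theorem C5_c0_t32 : CovD 1 gC5 [(125986406400, 11453595648), (8589934592, 8589934592), (549755813888, 549755813888)] :=
  covD_split 2 (by decide +kernel) C5_c0_t33 C5_c0_t34

theorem C5_c0_t31 : CovD 1 gC5 [(125986406400, 11453595648), (17179869184, 17179869184), (549755813888, 549755813888)] :=
  covD_split 1 (by decide +kernel) C5_c0_t32 C5_c0_t37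

theorem C5_c0_t30 : CovD 1 gC5 [(125986406400, 11453595648), (34359738368, 34359738368), (549755813888, 549755813888)] :=
  covD_split 1 (by decide +kernel) C5_c0_t31 C5_c0_t38

theorem C5_c0_t29 : CovD 1 gC5 [(125986406400, 11453595648), (68719476736, 68719476736), (549755813888, 549755813888)] :=
  covD_split 1 (by decide +kernel) C5_c0_t30 C5_c0_t39

theorem C5_c0_t40 : CovD 1 gC5 [(125986406400, 11453595648), (206158430208, 68719476736), (549755813888, 549755813888)] :=
  covD_split 0 (by decide +kernel) C5_c0_t41 C5_c0_t42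

theorem C5_c0_t28 : CovD 1 gC5 [(125986406400, 11453595648), (137438953472, 137438953472), (549755813888, 549755813888)] :=
  covD_split 1 (by decide +kernel) C5_c0_t29 C5_c0_t40

theorem C5_c0 : CovD 1 gC5 [(114532810752, 22907191296), (137438953472, 137438953472), (549755813888, 549755813888)] :=
  covD_split 0 (by decide +kernel) C5_c0_t1 C5_c0_t28

theorem D5_c0_t1 : CovD 1 gD5 [(103079215104, 11453595648), (137438953472, 137438953472), (863554764800, 863554764800)] :=
  covD_split 1 (by decide +kernel) D5_c0_t2 D5_c0_t3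

theorem D5_c0_t4 : CovD 1 gD5 [(125986406400, 11453595648), (137438953472, 137438953472), (863554764800, 863554764800)] :=
  covD_split 1 (by decide +kernel) D5_c0_t5 D5_c0_t6

theorem D5_c0 : CovD 1 gD5 [(114532810752, 22907191296), (137438953472, 137438953472), (863554764800, 863554764800)] :=
  covD_split 0 (by decide +kernel) D5_c0_t1 D5_c0_t4

theorem E5_c0 : CovD 1 gE5 [(114532810752, 22907191296), (137438953472, 137438953472), (863554764800, 863554764800)] :=
  covD_split 2 (by decide +kernel) E5_c0_t1 E5_c0_t2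

end Pool.Agent.helper14.NR.E8a
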